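import Mathlib
import Pool.Agent.H.MP_0335f8_al.Defs

set_option linter.unusedSectionVars false
set_option linter.unusedSimpArgs false

/-!
# The lower bound five
-/

namespace H47Cl

open H47Inv
open scoped commutatorElement

private theorem lower5_norm {G : Type*} [Group G] (S : Set G) (a : G) (ha : a * a = 1)
    (h : ∀ s ∈ S, a * s * a ∈ Subgroup.closure S) :
    ∀ n ∈ Subgroup.closure S, a * n * a ∈ Subgroup.closure S := by
  intro n hn
  induction hn using Subgroup.closure_induction with
  | mem x hx => exact h x hx
  | one => rw [mul_one, ha]; exact Subgroup.one_mem _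
  | mul x y _ _ hx hy =>
    have : a * (x * y) * a = (a * x * a) * (a * y * a) := by
      rw [show (a * x * a) * (a * y * a) = a * x * (a * a) * y * a by group, ha]; group
    rw [this]; exact Subgroup.mul_mem _ hx hy
  | inv x _ hx =>
    have hai : a⁻¹ = a := inv_eq_of_mul_eq_one_left ha
    have : a * x⁻¹ * a = (a * x * a)⁻¹ := by
      rw [_root_.mul_inv_rev, _root_.mul_inv_rev, hai, mul_assoc]
    rw [this]; exact Subgroup.inv_mem _ hx

/-- a group generated by three elements of order at most two whose product has order at most two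
is abelian-by-(order at most two) -/
theorem comm_of_three {G : Type*} [Group G] (a b c : G) (ha : a * a = 1) (hb : b * b = 1)
    (hc : c * c = 1) (habc : (a * b * c) * (a * b * c) = 1)
    (hgen : Subgroup.closure ({a, b, c} : Set G) = ⊤) :
    ∀ x ∈ commutator G, ∀ y ∈ commutator G, x * y = y * x := by
  have hai : a⁻¹ = a := inv_eq_of_mul_eq_one_left ha
  have hbi : b⁻¹ = b := inv_eq_of_mul_eq_one_left hb
  have hci : c⁻¹ = c := inv_eq_of_mul_eq_one_left hc
  have habc' : a * b * c = c * b * a := by
    have := eq_inv_of_mul_eq_one_left habc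
    rw [this]
    simp only [_root_.mul_inv_rev, hai, hbi, hci, mul_assoc]
  -- c a b = b a c
  have h1 : c * a * b = b * a * c := by
    have e1 : c * (a * b * c) * c = c * (c * b * a) * c := by rw [habc']
    have e2 : c * (a * b * c) * c = c * a * b * (c * c) := by group
    have e3 : c * (c * b * a) * c = (c * c) * b * a * c := by group
    rw [e2, e3, hc, mul_one, one_mul] at e1
    exact e1
  have h2 : b * c * a = a * c * b := by
    have e1 : a * (a * b * c) * a = a * (c * b * a) * a := by rw [habc']
    have e2 : a * (a * b * c) * a = (a * a) * b * c * a := by group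
    have e3 : a * (c * b * a) * a = a * c * b * (a * a) := by group
    rw [e2, e3, ha, mul_one, one_mul] at e1
    exact e1
  set S : Set G := {a * b, b * c} with hS
  set N : Subgroup G := Subgroup.closure S with hN
  have hp : a * b ∈ N := Subgroup.subset_closure (by simp [hS])
  have hq : b * c ∈ N := Subgroup.subset_closure (by simp [hS])
  have hpi : b * a ∈ N := by
    have := N.inv_mem hp
    rwa [_root_.mul_inv_rev, hai, hbi] at this
  have hqi : c * b ∈ N := by
    have := N.inv_mem hq
    rwa [_root_.mul_inv_rev, hbi, hci] at this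
  have hconjS : ∀ d ∈ ({a, b, c} : Set G), ∀ s ∈ S, d * s * d ∈ N := by
    intro d hd s hs
    simp only [Set.mem_insert_iff, Set.mem_singleton_iff] at hd
    simp only [hS, Set.mem_insert_iff, Set.mem_singleton_iff] at hs
    rcases hd with hd | hd | hd <;> rcases hs with hs | hs <;> rw [hd, hs]
    · rw [← mul_assoc, ha, one_mul]; exact hpi
    · rw [show a * (b * c) * a = a * (b * c * a) by group, h2,
        show a * (a * c * b) = (a * a) * c * b by group, ha, one_mul]; exact hqi
    · rw [show b * (a * b) * b = b * a * (b * b) by group, hb, mul_one]; exact hpi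
    · rw [show b * (b * c) * b = (b * b) * c * b by group, hb, one_mul]; exact hqi
    · rw [show c * (a * b) * c = (c * a * b) * c by group, h1,
        show b * a * c * c = b * a * (c * c) by group, hc, mul_one]; exact hpi
    · rw [show c * (b * c) * c = c * b * (c * c) by group, hc, mul_one]; exact hqi
  have hsq : ∀ d ∈ ({a, b, c} : Set G), d * d = 1 := by
    intro d hd
    simp only [Set.mem_insert_iff, Set.mem_singleton_iff] at hd
    rcases hd with hd | hd | hd <;> rw [hd] <;> assumption
  have hnorm : Subgroup.normalizer (N : Set G) = ⊤ := by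
    rw [eq_top_iff, ← hgen, Subgroup.closure_le]
    intro d hd
    have hdd := hsq d hd
    have hdi : d⁻¹ = d := inv_eq_of_mul_eq_one_left hdd
    have key := lower5_norm S d hdd (hconjS d hd)
    rw [SetLike.mem_coe, Subgroup.mem_normalizer_iff]
    intro n
    constructor
    · intro hn
      rw [hdi]; exact key n hn
    · intro hn
      rw [hdi] at hn
      have := key _ hn
      rwa [show d * (d * n * d) * d = (d * d) * n * (d * d) by group, hdd, one_mul, mul_one] at this
  have : N.Normal := Subgroup.normalizer_eq_top_iff.1 hnorm
  have hle : commutator G ≤ N := by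
    have hz : ∀ g : G, (QuotientGroup.mk g : G ⧸ N) ∈ Subgroup.zpowers (QuotientGroup.mk a : G ⧸ N) := by
      intro g
      have hg : g ∈ Subgroup.closure ({a, b, c} : Set G) := by rw [hgen]; trivial
      induction hg using Subgroup.closure_induction with
      | mem x hx =>
        simp only [Set.mem_insert_iff, Set.mem_singleton_iff] at hx
        rcases hx with hx | hx | hx <;> rw [hx]
        · exact Subgroup.mem_zpowers _
        · have : (QuotientGroup.mk b : G ⧸ N) = QuotientGroup.mk a := by
            rw [eq_comm, QuotientGroup.eq, hai]; exact hp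
          rw [this]; exact Subgroup.mem_zpowers _
        · have : (QuotientGroup.mk c : G ⧸ N) = QuotientGroup.mk a := by
            rw [eq_comm, QuotientGroup.eq, hai]
            have := N.mul_mem hp hq
            rwa [show a * b * (b * c) = a * (b * b) * c by group, hb, mul_one] at this
          rw [this]; exact Subgroup.mem_zpowers _
      | one => exact Subgroup.one_mem _
      | mul x y _ _ hx hy => rw [QuotientGroup.mk_mul]; exact Subgroup.mul_mem _ hx hy
      | inv x _ hx => rw [QuotientGroup.mk_inv]; exact Subgroup.inv_mem _ hx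
    rw [commutator_def, Subgroup.commutator_le]
    intro g₁ _ g₂ _
    rw [← QuotientGroup.eq_one_iff, ← QuotientGroup.mk'_apply, map_commutatorElement,
      commutatorElement_eq_one_iff_mul_comm]
    obtain ⟨i, hi⟩ := hz g₁
    obtain ⟨j, hj⟩ := hz g₂
    simp only at hi hj
    rw [QuotientGroup.mk'_apply, QuotientGroup.mk'_apply, ← hi, ← hj, ← _root_.zpow_add, ← _root_.zpow_add,
      add_comm]
  have hcomm : ∀ x ∈ S, ∀ y ∈ S, x * y = y * x := by
    have hpq : (a * b) * (b * c) = (b * c) * (a * b) := by
      rw [show a * b * (b * c) = a * (b * b) * c by group, hb, mul_one,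
        show b * c * (a * b) = (b * c * a) * b by group, h2,
        show a * c * b * b = a * c * (b * b) by group, hb, mul_one]
    intro x hx y hy
    simp only [hS, Set.mem_insert_iff, Set.mem_singleton_iff] at hx hy
    rcases hx with hx | hx <;> rcases hy with hy | hy <;> rw [hx, hy]
    · exact hpq
    · exact hpq.symm
  intro x hx y hy
  have hx' := hle hx
  have hy' := hle hy
  have hic := Subgroup.isMulCommutative_closure hcomm
  have := hic.is_comm.comm ⟨x, hx'⟩ ⟨y, hy'⟩
  exact congrArg Subtype.val this

private theorem contra_gen {G : Type*} [Group G]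
    (hG : ∃ x ∈ commutator G, ∃ y ∈ commutator G, x * y ≠ y * x)
    (a b c : G) (ha : a * a = 1) (hb : b * b = 1)
    (hc : c * c = 1) (habc : (a * b * c) * (a * b * c) = 1)
    (hgen : Subgroup.closure ({a, b, c} : Set G) = ⊤) : False := by
  obtain ⟨x, hx, y, hy, hxy⟩ := hG
  exact hxy (comm_of_three a b c ha hb hc habc hgen x hx y hy)

/-- the lower bound five for a group with noncommutative commutator subgroup -/
theorem lower5_gen {G : Type*} [Group G]
    (hG : ∃ x ∈ commutator G, ∃ y ∈ commutator G, x * y ≠ y * x) {k : ℕ}
    (h : Admissible G k) : 5 ≤ k := by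
  obtain ⟨t, hord, -, hgen, hprod⟩ := h
  by_contra hk
  push Not at hk
  have hsq : ∀ i, t i * t i = 1 := by
    intro i
    have := pow_orderOf_eq_one (t i)
    rwa [hord, pow_two] at this
  have hsub : ∀ a b c : G, (∀ i, t i ∈ Subgroup.closure ({a, b, c} : Set G)) →
      Subgroup.closure ({a, b, c} : Set G) = ⊤ := by
    intro a b c hi
    rw [eq_top_iff, ← hgen, Subgroup.closure_le]
    rintro _ ⟨i, rfl⟩
    exact hi i
  interval_cases k
  · refine contra_gen hG 1 1 1 ?_ ?_ ?_ ?_ (hsub _ _ _ ?_)
    · simp
    · simp
    · simp
    · simp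
    · intro i; exact i.elim0
  · refine contra_gen hG (t 0) 1 1 (hsq 0) ?_ ?_ ?_ (hsub _ _ _ ?_)
    · simp
    · simp
    · simpa using hsq 0
    · intro i
      rw [Subsingleton.elim i 0]
      exact Subgroup.subset_closure (by simp)
  · have hp : t 0 * t 1 = 1 := by simpa [List.ofFn_succ] using hprod
    refine contra_gen hG (t 0) (t 1) 1 (hsq 0) (hsq 1) ?_ ?_ (hsub _ _ _ ?_)
    · simp
    · rw [hp]; simp
    · intro i
      fin_cases i
      · exact Subgroup.subset_closure (by simp)
      · exact Subgroup.subset_closure (by simp)
  · have hp : t 0 * t 1 * t 2 = 1 := by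
      simpa [List.ofFn_succ, mul_assoc] using hprod
    refine contra_gen hG (t 0) (t 1) (t 2) (hsq 0) (hsq 1) (hsq 2) ?_ (hsub _ _ _ ?_)
    · rw [hp]; simp
    · intro i
      fin_cases i
      · exact Subgroup.subset_closure (by simp)
      · exact Subgroup.subset_closure (by simp)
      · exact Subgroup.subset_closure (by simp)
  · have hp : t 0 * t 1 * t 2 * t 3 = 1 := by
      simpa [List.ofFn_succ, mul_assoc] using hprod
    have hp' : t 0 * t 1 * t 2 = t 3 := by
      rw [eq_inv_of_mul_eq_one_left hp]
      exact inv_eq_of_mul_eq_one_left (hsq 3)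
    refine contra_gen hG (t 0) (t 1) (t 2) (hsq 0) (hsq 1) (hsq 2) ?_ (hsub _ _ _ ?_)
    · rw [hp']; exact hsq 3
    · intro i
      fin_cases i
      · exact Subgroup.subset_closure (by simp)
      · exact Subgroup.subset_closure (by simp)
      · exact Subgroup.subset_closure (by simp)
      · show t 3 ∈ _
        rw [← hp']
        exact Subgroup.mul_mem _ (Subgroup.mul_mem _ (Subgroup.subset_closure (by simp))
          (Subgroup.subset_closure (by simp))) (Subgroup.subset_closure (by simp))

end H47Cl
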