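import Mathlib

/-!
# Conjugacy of involutions in the alternating group (module ConjAlt)
-/

namespace H47Cl

open Equiv

private theorem conjAlt_card {X : Type*} [Fintype X] [DecidableEq X] (a : Perm X)
    (ha : a * a = 1) :
    Fintype.card X = (Finset.univ.filter (fun x => a x = x)).card + 2 * a.cycleType.card := by
  have h2 : a ^ 2 = 1 := by rw [pow_two, ha]
  have : Fact (Nat.Prime 2) := ⟨Nat.prime_two⟩
  have h3 := Equiv.Perm.cycleType_of_pow_prime_eq_one h2
  have h4 : a.cycleType.sum = 2 * a.cycleType.card := by
    conv_lhs => rw [h3]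
    simp [mul_comm]
  rw [← h4, Equiv.Perm.sum_cycleType]
  have h5 : a.support = Finset.univ.filter (fun x => ¬ a x = x) := by
    ext x
    simp
  rw [h5, Finset.card_filter_add_card_filter_not]
  rfl

/-- Two involutions `a ≠ 1` and `b` of a finite set with the same number of fixed points are
conjugate by an even permutation.

Proof. The cycle type of an involution `a` is `replicate k 2` with
`2 * k = card X - card (fixed points)` (`Equiv.Perm.cycleType_of_pow_prime_eq_one` or
`Equiv.Perm.cycleType_prime_order` if `a ≠ 1`, and `Equiv.Perm.sum_cycleType`,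
`Equiv.Perm.card_fixedPoints` style lemmas; support = complement of the fixed points).  So the
cycle types of `a` and `b` agree (b is also not `1`, or both have the same number of fixed
points), hence `IsConj a b` (`Equiv.Perm.isConj_iff_cycleType_eq`), say `c a c⁻¹ = b`.  If `c` is
odd, choose `x` with `a x ≠ x`; then `s = swap x (a x)` commutes with `a` and `c * s` is even and
still conjugates `a` to `b`. -/
theorem conj_alt {X : Type*} [Fintype X] [DecidableEq X] (a b : Perm X) (ha : a * a = 1)
    (hb : b * b = 1) (hne : a ≠ 1)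
    (hc : (Finset.univ.filter (fun x => a x = x)).card =
      (Finset.univ.filter (fun x => b x = x)).card) :
    ∃ c ∈ alternatingGroup X, c * a * c⁻¹ = b := by
  have hca := conjAlt_card a ha
  have hcb := conjAlt_card b hb
  have hk : a.cycleType.card = b.cycleType.card := by omega
  have : Fact (Nat.Prime 2) := ⟨Nat.prime_two⟩
  have h3 := Equiv.Perm.cycleType_of_pow_prime_eq_one (σ := a) (p := 2) (by rw [pow_two, ha])
  have h4 := Equiv.Perm.cycleType_of_pow_prime_eq_one (σ := b) (p := 2) (by rw [pow_two, hb])
  have h5 : a.cycleType = b.cycleType := by rw [h3, h4, hk]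
  have h6 := Equiv.Perm.isConj_iff_cycleType_eq.2 h5
  obtain ⟨c, hcc⟩ := isConj_iff.1 h6
  rcases Int.units_eq_one_or (Equiv.Perm.sign c) with hs | hs
  · exact ⟨c, Equiv.Perm.mem_alternatingGroup.2 hs, hcc⟩
  · obtain ⟨x, hx⟩ : ∃ x, a x ≠ x := by
      by_contra hcon
      push Not at hcon
      exact hne (Equiv.ext hcon)
    have haa : ∀ y, a (a y) = y := fun y => by
      have := congrArg (fun f : Perm X => f y) ha
      simpa using this
    have hsw : swap x (a x) * a * (swap x (a x))⁻¹ = a := by
      have h7 : a * swap x (a x) * a⁻¹ = swap (a x) (a (a x)) := Equiv.swap_apply_apply a x (a x) |>.symm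
      rw [haa, swap_comm] at h7
      have h8 : a * swap x (a x) = swap x (a x) * a := by
        rw [mul_inv_eq_iff_eq_mul] at h7
        rw [swap_comm x (a x)]
        exact h7
      rw [← h8, mul_inv_cancel_right]
    refine ⟨c * swap x (a x), ?_, ?_⟩
    · rw [Equiv.Perm.mem_alternatingGroup, Equiv.Perm.sign_mul, hs, Equiv.Perm.sign_swap (Ne.symm hx)]
      rfl
    · calc c * swap x (a x) * a * (c * swap x (a x))⁻¹
          = c * (swap x (a x) * a * (swap x (a x))⁻¹) * c⁻¹ := by
            rw [mul_inv_rev]; simp only [mul_assoc]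
        _ = b := by rw [hsw, hcc]

/-- An involution moving `4 k` points is even.  (Same cycle type computation:
`sign a = (-1) ^ (number of 2-cycles)`, number of 2-cycles `= 2 k`.) -/
theorem mem_alt {X : Type*} [Fintype X] [DecidableEq X] (a : Perm X) (ha : a * a = 1) (k : ℕ)
    (hk : Fintype.card X = (Finset.univ.filter (fun x => a x = x)).card + 4 * k) :
    a ∈ alternatingGroup X := by
  have hca := conjAlt_card a ha
  have : Fact (Nat.Prime 2) := ⟨Nat.prime_two⟩
  have h3 := Equiv.Perm.cycleType_of_pow_prime_eq_one (σ := a) (p := 2) (by rw [pow_two, ha])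
  have h4 : a.cycleType.sum = 2 * a.cycleType.card := by
    conv_lhs => rw [h3]
    simp [mul_comm]
  have h5 : a.cycleType.card = 2 * k := by omega
  rw [Equiv.Perm.mem_alternatingGroup, Equiv.Perm.sign_of_cycleType, h4, h5]
  have h6 : 2 * (2 * k) + 2 * k = 2 * (3 * k) := by ring
  rw [h6, pow_mul]
  simp

end H47Cl
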