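import Mathlib

/-!
# The combinatorial design (structure)
-/

namespace H47Cl

open Equiv

/-- three conjugate even involutions `α`, `β`, `π` generating the alternating group, such that
`α` and `β` commute, `α * β` is also conjugate, `π * α` has order prime to `p`, and `α` and `π`
have nine common transpositions -/
structure Design (p : ℕ) (X : Type) [Fintype X] [DecidableEq X] where
  /-- first involution -/
  α : Perm X
  /-- second involution -/
  β : Perm X
  /-- third involution -/
  π : Perm X
  /-- an exponent for `π * α` -/
  N : ℕ
  α2 : α * α = 1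
  β2 : β * β = 1
  π2 : π * π = 1
  comm : α * β = β * α
  hcop : N.Coprime p
  hN : (π * α) ^ N = 1
  gen : Subgroup.closure {α, β, π} = alternatingGroup X
  cβ : ∃ c ∈ alternatingGroup X, c * α * c⁻¹ = β
  cαβ : ∃ c ∈ alternatingGroup X, c * α * c⁻¹ = α * β
  cπ : ∃ c ∈ alternatingGroup X, c * α * c⁻¹ = π
  /-- nine points -/
  i : Fin 9 → X
  /-- their images under `α` and under `π` -/
  i' : Fin 9 → X
  inj : Function.Injective (Sum.elim i i')
  hα : ∀ k, α (i k) = i' k
  hπ : ∀ k, π (i k) = i' k

end H47Cl
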