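import Mathlib

set_option linter.unusedSectionVars false
set_option linter.unusedSimpArgs false

/-!
# Uniform classical forms

A `Frm` is a (trace valued) `ε`-hermitian form together with a quadratic form (which is zero
unless the type is orthogonal).  It covers symplectic, hermitian and quadratic spaces.
-/

namespace H47Cl

/-- uniform data of a symplectic, hermitian or quadratic space -/
structure Frm (K V : Type*) [Field K] [AddCommGroup V] [Module K V] where
  /-- the involution -/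
  σ : K →+* K
  σσ : ∀ a, σ (σ a) = a
  /-- the sign -/
  ε : K
  ε2 : ε * ε = 1
  σε : σ ε = ε
  /-- `1` in the orthogonal case, otherwise `0` -/
  κ : K
  /-- the sesquilinear form -/
  h : V → V → K
  h_add : ∀ x y z, h (x + y) z = h x z + h y z
  h_smul : ∀ (a : K) x z, h (a • x) z = a * h x z
  h_swap : ∀ x y, h y x = ε * σ (h x y)
  /-- the quadratic form -/
  q : V → K
  q_add : ∀ x y, q (x + y) = q x + q y + κ * h x y
  q_smul : ∀ (a : K) x, q (a • x) = a * σ a * q x
  hκ : (κ = 0 ∧ ∀ x, q x = 0) ∨ (κ = 1 ∧ ε = 1 ∧ ∀ a, σ a = a)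
  tr : ∀ x : V, ∃ s, ε * s + σ s + h x x = 0 ∧ κ * (s + q x) = 0
  nd : ∀ x, (∀ y, h x y = 0) → x = 0
  iso : ∀ x y z : V, ∃ a b c : K, (a ≠ 0 ∨ b ≠ 0 ∨ c ≠ 0) ∧
    h (a • x + b • y + c • z) (a • x + b • y + c • z) = 0 ∧ q (a • x + b • y + c • z) = 0

namespace Frm

variable {K V : Type*} [Field K] [AddCommGroup V] [Module K V] (F : Frm K V)

theorem h_add_right (x y z : V) : F.h x (y + z) = F.h x y + F.h x z := by
  rw [F.h_swap (y + z) x, F.h_add, map_add, mul_add, ← F.h_swap, ← F.h_swap]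

theorem h_smul_right (a : K) (x y : V) : F.h x (a • y) = F.σ a * F.h x y := by
  rw [F.h_swap (a • y) x, F.h_smul, map_mul, F.h_swap y x]
  ring

@[simp] theorem h_zero_left (x : V) : F.h 0 x = 0 := by
  have := F.h_smul 0 0 x
  simpa using this

@[simp] theorem h_zero_right (x : V) : F.h x 0 = 0 := by
  have := F.h_smul_right 0 x 0
  simpa using this

theorem h_neg (x y : V) : F.h (-x) y = -F.h x y := by
  have := F.h_smul (-1) x y
  simpa using this

theorem h_neg_right (x y : V) : F.h x (-y) = -F.h x y := by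
  have := F.h_smul_right (-1) x y
  simpa using this

theorem h_sub (x y z : V) : F.h (x - y) z = F.h x z - F.h y z := by
  rw [sub_eq_add_neg, F.h_add, F.h_neg, sub_eq_add_neg]

theorem h_sub_right (x y z : V) : F.h x (y - z) = F.h x y - F.h x z := by
  rw [sub_eq_add_neg, F.h_add_right, F.h_neg_right, sub_eq_add_neg]

theorem h_sum {ι : Type*} (s : Finset ι) (g : ι → V) (y : V) :
    F.h (∑ i ∈ s, g i) y = ∑ i ∈ s, F.h (g i) y := by
  classical
  induction s using Finset.induction_on with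
  | empty => simp
  | insert a s ha ih => rw [Finset.sum_insert ha, Finset.sum_insert ha, F.h_add, ih]

theorem h_sum_right {ι : Type*} (s : Finset ι) (g : ι → V) (y : V) :
    F.h y (∑ i ∈ s, g i) = ∑ i ∈ s, F.h y (g i) := by
  classical
  induction s using Finset.induction_on with
  | empty => simp
  | insert a s ha ih => rw [Finset.sum_insert ha, Finset.sum_insert ha, F.h_add_right, ih]

theorem h_symm_zero {x y : V} (hxy : F.h x y = 0) : F.h y x = 0 := by
  rw [F.h_swap x y, hxy, map_zero, mul_zero]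

@[simp] theorem q_zero : F.q 0 = 0 := by
  have := F.q_smul 0 0
  simpa using this

theorem q_neg (x : V) : F.q (-x) = F.q x := by
  have := F.q_smul (-1) x
  simpa using this

theorem ε_ne : F.ε ≠ 0 := fun h0 => by
  have := F.ε2
  rw [h0] at this
  simp at this

theorem σ_inj {a b : K} (hab : F.σ a = F.σ b) : a = b := by
  rw [← F.σσ a, hab, F.σσ]

theorem σ_eq_zero {a : K} : F.σ a = 0 ↔ a = 0 := by
  constructor
  · intro h0
    rw [← F.σσ a, h0, map_zero]
  · rintro rfl
    exact map_zero _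

/-- the isometry group -/
def isom : Subgroup (V ≃ₗ[K] V) where
  carrier := {g | (∀ x y, F.h (g x) (g y) = F.h x y) ∧ ∀ x, F.q (g x) = F.q x}
  mul_mem' {a b} ha hb := by
    refine ⟨fun x y => ?_, fun x => ?_⟩
    · rw [LinearEquiv.mul_apply, LinearEquiv.mul_apply, ha.1, hb.1]
    · rw [LinearEquiv.mul_apply, ha.2, hb.2]
  one_mem' := ⟨fun _ _ => rfl, fun _ => rfl⟩
  inv_mem' {a} ha := by
    have hi : ∀ x, a (a⁻¹ x) = x := fun x => a.apply_symm_apply x
    refine ⟨fun x y => ?_, fun x => ?_⟩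
    · rw [← ha.1 (a⁻¹ x) (a⁻¹ y), hi, hi]
    · rw [← ha.2 (a⁻¹ x), hi]

/-- the isometry group as a type -/
abbrev G : Type _ := ↥F.isom

variable {F}

theorem G_h (g : F.G) (x y : V) : F.h (g.1 x) (g.1 y) = F.h x y := g.2.1 x y

theorem G_q (g : F.G) (x : V) : F.q (g.1 x) = F.q x := g.2.2 x

theorem mul_ap (g g' : F.G) (x : V) : (g * g').1 x = g.1 (g'.1 x) := rfl

theorem one_ap (x : V) : (1 : F.G).1 x = x := rfl

theorem inv_ap (g : F.G) (x : V) : g.1 ((g⁻¹).1 x) = x := g.1.apply_symm_apply x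

theorem inv_ap' (g : F.G) (x : V) : (g⁻¹).1 (g.1 x) = x := g.1.symm_apply_apply x

theorem ext_ap {g g' : F.G} (h : ∀ x, g.1 x = g'.1 x) : g = g' :=
  Subtype.ext (LinearEquiv.ext h)

theorem G_h_inv (g : F.G) (x y : V) : F.h ((g⁻¹).1 x) y = F.h x (g.1 y) := by
  rw [← G_h g, inv_ap]

theorem inv_fix {g : F.G} {x : V} (h : g.1 x = x) : (g⁻¹).1 x = x := by
  conv_lhs => rw [← h]
  exact inv_ap' g x

variable (F)

/-- admissible parameters of a Siegel transformation -/
def Adm (u w : V) (s : K) : Prop :=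
  F.h u u = 0 ∧ F.q u = 0 ∧ F.h u w = 0 ∧ F.ε * s + F.σ s + F.h w w = 0 ∧
    F.κ * (s + F.q w) = 0

/-- the function of a Siegel transformation -/
def Efun (u w : V) (s : K) (x : V) : V :=
  x + F.h x u • w - (F.ε * F.h x w) • u + (s * F.h x u) • u

variable {F}

theorem Efun_comp {u w w' : V} {s s' : K} (h1 : F.h u u = 0) (h2 : F.h u w = 0)
    (h2' : F.h u w' = 0) (x : V) : F.Efun u w s (F.Efun u w' s' x) =
      F.Efun u (w + w') (s + s' - F.ε * F.h w' w) x := by
  have h3 := F.h_symm_zero h2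
  have h3' := F.h_symm_zero h2'
  have e1 : F.h (F.Efun u w' s' x) u = F.h x u := by
    simp [Efun, F.h_add, F.h_sub, F.h_smul, h1, h3']
  have e2 : F.h (F.Efun u w' s' x) w = F.h x w + F.h x u * F.h w' w := by
    simp [Efun, F.h_add, F.h_sub, F.h_smul, h2]
  rw [Efun, e1, e2, Efun, Efun, F.h_add_right]
  module

theorem Adm_mul {u w w' : V} {s s' : K} (h : F.Adm u w s) (h' : F.Adm u w' s') :
    F.Adm u (w + w') (s + s' - F.ε * F.h w' w) := by
  obtain ⟨a1, a2, a3, a4, a5⟩ := h
  obtain ⟨b1, b2, b3, b4, b5⟩ := h'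
  refine ⟨a1, a2, by rw [F.h_add_right, a3, b3, add_zero], ?_, ?_⟩
  · rw [map_sub, map_add, map_mul, F.σε, F.h_add, F.h_add_right, F.h_add_right,
      F.h_swap w' w]
    have := F.ε2
    linear_combination a4 + b4 - (F.h w' w) * this
  · rw [F.q_add]
    rcases F.hκ with ⟨k0, q0⟩ | ⟨k1, e1, s1⟩
    · rw [k0, zero_mul]
    · have : F.h w w' = F.h w' w := by rw [F.h_swap w' w, s1, e1, one_mul]
      rw [k1, one_mul] at a5 b5
      rw [k1, e1, this]
      linear_combination a5 + b5

theorem Adm_one {u w : V} {s : K} (h : F.Adm u w s) : F.Adm u 0 0 := by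
  refine ⟨h.1, h.2.1, by simp, by simp, by simp⟩

theorem Adm_inv {u w : V} {s : K} (h : F.Adm u w s) : F.Adm u (-w) (F.ε * F.σ s) := by
  obtain ⟨a1, a2, a3, a4, a5⟩ := h
  refine ⟨a1, a2, by rw [F.h_neg_right, a3, neg_zero], ?_, ?_⟩
  · rw [map_mul, F.σε, F.σσ, F.h_neg, F.h_neg_right, neg_neg]
    have := F.ε2
    linear_combination a4 + F.σ s * this
  · rw [F.q_neg]
    rcases F.hκ with ⟨k0, q0⟩ | ⟨k1, e1, s1⟩
    · rw [k0, zero_mul]
    · rw [e1, s1, one_mul, a5]

theorem Adm_param {u w : V} {s : K} (h : F.Adm u w s) :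
    s + F.ε * F.σ s - F.ε * F.h (-w) w = 0 := by
  rw [F.h_neg]
  have := F.ε2
  linear_combination F.ε * h.2.2.2.1 - s * this

theorem Adm_param' {u w : V} {s : K} (h : F.Adm u w s) :
    F.ε * F.σ s + s - F.ε * F.h w (-w) = 0 := by
  rw [F.h_neg_right]
  have := F.ε2
  linear_combination F.ε * h.2.2.2.1 - s * this

theorem Efun_zero (u x : V) : F.Efun u 0 0 x = x := by
  simp [Efun]

theorem Efun_h {u w : V} {s : K} (h : F.Adm u w s) (x y : V) :
    F.h (F.Efun u w s x) (F.Efun u w s y) = F.h x y := by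
  obtain ⟨a1, a2, a3, a4, a5⟩ := h
  have a3' := F.h_symm_zero a3
  have e2 := F.ε2
  simp only [Efun, F.h_add, F.h_sub, F.h_smul, F.h_add_right, F.h_sub_right, F.h_smul_right,
    a1, a3, a3', map_mul, F.σε, mul_zero, sub_zero, add_zero]
  have e3 : F.σ (F.h y u) * F.ε = F.h u y := by rw [F.h_swap y u]; ring
  have e4 : F.σ (F.h y w) * F.ε = F.h w y := by rw [F.h_swap y w]; ring
  have e5 : F.σ (F.h y u) = F.ε * F.h u y := by rw [← e3]; linear_combination -F.σ (F.h y u) * e2
  have e6 : F.σ (F.h y w) = F.ε * F.h w y := by rw [← e4]; linear_combination -F.σ (F.h y w) * e2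
  rw [e5, e6]
  linear_combination (F.h x u * F.ε * F.h u y) * a4 - (F.h x u * F.h w y + s * F.h x u * F.h u y + F.h x u * F.h w y * 0) * e2

theorem Efun_q {u w : V} {s : K} (h : F.Adm u w s) (x : V) :
    F.q (F.Efun u w s x) = F.q x := by
  rcases F.hκ with ⟨k0, q0⟩ | ⟨k1, e1, s1⟩
  · rw [q0, q0]
  · obtain ⟨a1, a2, a3, a4, a5⟩ := h
    have a3' := F.h_symm_zero a3
    have ee : F.Efun u w s x = x + (F.h x u • w + (s * F.h x u - F.h x w) • u) := by
      rw [Efun, e1]; module
    rw [ee, F.q_add, F.q_add, F.q_smul, F.q_smul, a2]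
    simp only [F.h_add, F.h_smul, F.h_add_right, F.h_smul_right, s1, k1, a3', mul_zero, one_mul,
      add_zero]
    rw [k1, one_mul] at a5
    linear_combination (F.h x u * F.h x u) * a5

/-- the Siegel transformation as a linear equivalence -/
def Eequiv {u w : V} {s : K} (h : F.Adm u w s) : V ≃ₗ[K] V where
  toFun := F.Efun u w s
  invFun := F.Efun u (-w) (F.ε * F.σ s)
  map_add' x y := by simp only [Efun, F.h_add]; module
  map_smul' a x := by simp only [Efun, F.h_smul, RingHom.id_apply]; module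
  left_inv x := by
    rw [Efun_comp h.1 (Adm_inv h).2.2.1 h.2.2.1, Adm_param' h, neg_add_cancel, Efun_zero]
  right_inv x := by
    rw [Efun_comp h.1 h.2.2.1 (Adm_inv h).2.2.1, Adm_param h, add_neg_cancel, Efun_zero]

variable (F)

open Classical in
/-- the Siegel transformation as an isometry (the identity for inadmissible parameters) -/
noncomputable def El (u w : V) (s : K) : F.G :=
  if h : F.Adm u w s then ⟨Eequiv h, Efun_h h, Efun_q h⟩ else 1

variable {F}

theorem El_ap {u w : V} {s : K} (h : F.Adm u w s) (x : V) :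
    (F.El u w s).1 x = x + F.h x u • w - (F.ε * F.h x w) • u + (s * F.h x u) • u := by
  rw [El, dif_pos h]
  rfl

theorem El_one (u : V) : F.El u 0 0 = 1 := by
  by_cases h : F.Adm u 0 0
  · apply ext_ap
    intro x
    rw [El_ap h, one_ap]
    simp
  · rw [El, dif_neg h]

theorem El_zero (w : V) (s : K) : F.El 0 w s = 1 := by
  by_cases h : F.Adm 0 w s
  · apply ext_ap
    intro x
    rw [El_ap h, one_ap]
    simp
  · rw [El, dif_neg h]

theorem El_mul {u w w' : V} {s s' : K} (h : F.Adm u w s) (h' : F.Adm u w' s') :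
    F.El u w s * F.El u w' s' = F.El u (w + w') (s + s' - F.ε * F.h w' w) := by
  apply ext_ap
  intro x
  rw [mul_ap]
  have := Efun_comp h.1 h.2.2.1 h'.2.2.1 (s := s) (s' := s') x
  rw [El_ap h, El_ap h', El_ap (Adm_mul h h')]
  exact this

theorem El_inv {u w : V} {s : K} (h : F.Adm u w s) :
    (F.El u w s)⁻¹ = F.El u (-w) (F.ε * F.σ s) := by
  rw [inv_eq_iff_mul_eq_one, El_mul h (Adm_inv h), Adm_param h, add_neg_cancel, El_one]

theorem Adm_conj (g : F.G) {u w : V} {s : K} :
    F.Adm (g.1 u) (g.1 w) s ↔ F.Adm u w s := by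
  unfold Adm
  rw [G_h, G_h, G_h, G_q, G_q]

theorem El_conj (g : F.G) (u w : V) (s : K) :
    g * F.El u w s * g⁻¹ = F.El (g.1 u) (g.1 w) s := by
  by_cases h : F.Adm u w s
  · apply ext_ap
    intro x
    rw [mul_ap, mul_ap, El_ap h, El_ap ((Adm_conj g).2 h), map_add, map_sub, map_add, map_smul,
      map_smul, map_smul, inv_ap, G_h_inv, G_h_inv]
  · have h' : ¬ F.Adm (g.1 u) (g.1 w) s := fun h' => h ((Adm_conj g).1 h')
    rw [El, dif_neg h, El, dif_neg h', mul_one, mul_inv_cancel]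

theorem El_fix {u w x : V} {s : K} (hu : F.h x u = 0) (hw : F.h x w = 0) :
    (F.El u w s).1 x = x := by
  by_cases h : F.Adm u w s
  · rw [El_ap h, hu, hw]
    simp
  · rw [El, dif_neg h]
    rfl

theorem El_comm_of_fix (g : F.G) {u w : V} {s : K} (hu : g.1 u = u) (hw : g.1 w = w) :
    Commute g (F.El u w s) := by
  have := El_conj g u w s
  rw [hu, hw] at this
  rw [Commute, SemiconjBy]
  exact mul_inv_eq_iff_eq_mul.1 this

theorem El_comm {u w u' w' : V} {s s' : K} (h1 : F.h u u' = 0) (h2 : F.h u w' = 0)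
    (h3 : F.h w u' = 0) (h4 : F.h w w' = 0) : Commute (F.El u w s) (F.El u' w' s') :=
  El_comm_of_fix _ (El_fix (F.h_symm_zero h1) (F.h_symm_zero h3))
    (El_fix (F.h_symm_zero h2) (F.h_symm_zero h4))

/-- swapping two orthogonal singular vectors -/
theorem El_swap {u w : V} (hu : F.h u u = 0) (hqu : F.q u = 0) (hw : F.h w w = 0)
    (hqw : F.q w = 0) (huw : F.h u w = 0) : F.El u w 0 = F.El w (-F.ε • u) 0 := by
  have h1 : F.Adm u w 0 := ⟨hu, hqu, huw, by rw [map_zero, hw]; ring, by rw [hqw]; ring⟩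
  have h2 : F.Adm w (-F.ε • u) 0 := by
    refine ⟨hw, hqw, ?_, ?_, ?_⟩
    · rw [F.h_smul_right, F.h_symm_zero huw, mul_zero]
    · rw [F.h_smul_right, F.h_smul, hu, map_zero]; ring
    · rw [F.q_smul, hqu]; ring
  apply ext_ap
  intro x
  rw [El_ap h1, El_ap h2, F.h_smul_right, map_neg, F.σε, smul_smul]
  have e2 := F.ε2
  have : -(F.ε * (-F.ε * F.h x u)) = F.h x u := by linear_combination (F.h x u) * e2
  rw [sub_eq_add_neg _ ((F.ε * (-F.ε * F.h x u)) • w), ← neg_smul, this]
  module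

theorem Adm_smul {c : K} {u w : V} {s : K} (h : F.Adm u (F.σ c • w) (c * F.σ c * s)) (hc : c ≠ 0) :
    F.Adm (c • u) w s := by
  obtain ⟨a1, a2, a3, a4, a5⟩ := h
  have hc' : F.σ c ≠ 0 := fun h0 => hc (F.σ_eq_zero.1 h0)
  rw [F.h_smul_right, F.σσ] at a3
  have a3' : F.h u w = 0 := by
    rcases mul_eq_zero.1 a3 with h | h
    · exact absurd h hc
    · exact h
  refine ⟨by rw [F.h_smul, F.h_smul_right, a1]; ring, by rw [F.q_smul, a2]; ring,
    by rw [F.h_smul, a3']; ring, ?_, ?_⟩
  · rw [F.h_smul, F.h_smul_right, map_mul, map_mul, F.σσ] at a4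
    have : c * F.σ c * (F.ε * s + F.σ s + F.h w w) = 0 := by linear_combination a4
    rcases mul_eq_zero.1 this with h | h
    · exact absurd h (mul_ne_zero hc hc')
    · exact h
  · rw [F.q_smul, F.σσ] at a5
    have : c * F.σ c * (F.κ * (s + F.q w)) = 0 := by linear_combination a5
    rcases mul_eq_zero.1 this with h | h
    · exact absurd h (mul_ne_zero hc hc')
    · exact h

theorem El_smul {c : K} (hc : c ≠ 0) (u w : V) (s : K) :
    F.El (c • u) w s = F.El u (F.σ c • w) (c * F.σ c * s) := by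
  by_cases h : F.Adm (c • u) w s
  · have h' : F.Adm u (F.σ c • w) (c * F.σ c * s) := by
      obtain ⟨a1, a2, a3, a4, a5⟩ := h
      have hc' : F.σ c ≠ 0 := fun h0 => hc (F.σ_eq_zero.1 h0)
      rw [F.h_smul, F.h_smul_right] at a1
      rw [F.q_smul] at a2
      rw [F.h_smul] at a3
      refine ⟨?_, ?_, ?_, ?_, ?_⟩
      · have := a1
        simp only [mul_eq_zero, hc, hc', false_or] at this
        exact this
      · have := a2
        simp only [mul_eq_zero, hc, hc', false_or] at this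
        exact this
      · have := a3
        simp only [mul_eq_zero, hc, hc', false_or] at this
        rw [F.h_smul_right, this, mul_zero]
      · rw [F.h_smul, F.h_smul_right, map_mul, map_mul, F.σσ]
        linear_combination (c * F.σ c) * a4
      · rw [F.q_smul, F.σσ]
        linear_combination (c * F.σ c) * a5
    apply ext_ap
    intro x
    rw [El_ap h, El_ap h', F.h_smul_right, F.h_smul_right, F.σσ]
    module
  · have h' : ¬ F.Adm u (F.σ c • w) (c * F.σ c * s) := fun h' => h (Adm_smul h' hc)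
    rw [El, dif_neg h, El, dif_neg h']

/-- the rule for the sum of two orthogonal singular vectors -/
theorem El_add_left {u u' w : V} {s : K} (h : F.Adm u w s) (h' : F.Adm u' w s)
    (huu : F.h u u' = 0) : F.El (u + u') w s = F.El u' (s • u) 0 * F.El u' w s * F.El u w s := by
  have hu'u := F.h_symm_zero huu
  have hwu := F.h_symm_zero h.2.2.1
  have hwu' := F.h_symm_zero h'.2.2.1
  have a0 : F.Adm u' (s • u) 0 := by
    refine ⟨h'.1, h'.2.1, by rw [F.h_smul_right, hu'u, mul_zero], ?_, ?_⟩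
    · rw [F.h_smul, F.h_smul_right, h.1, map_zero]; ring
    · rw [F.q_smul, h.2.1]; ring
  have a1 : F.Adm (u + u') w s := by
    refine ⟨?_, ?_, ?_, h.2.2.2.1, h.2.2.2.2⟩
    · simp [F.h_add, F.h_add_right, h.1, h'.1, huu, hu'u]
    · rw [F.q_add, h.2.1, h'.2.1, huu]; ring
    · rw [F.h_add, h.2.2.1, h'.2.2.1, add_zero]
  rw [El_mul a0 h']
  have a2 := Adm_mul a0 h'
  apply ext_ap
  intro x
  rw [mul_ap, El_ap h, El_ap a2, El_ap a1]
  simp only [F.h_add, F.h_sub, F.h_smul, F.h_add_right, F.h_smul_right, h.1, huu, hwu, hwu',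
    h.2.2.1, h'.2.2.1, F.h_symm_zero, map_zero, mul_zero, sub_zero, add_zero, zero_add, zero_mul]
  have a4 := h.2.2.2.1
  have e2 := F.ε2
  have e3 : F.h w w = - (F.ε * s + F.σ s) := by linear_combination a4
  rw [e3]
  have e4 : F.ε * (F.σ s * F.h x u + F.h x w + F.h x u * -(F.ε * s + F.σ s)) =
      F.ε * F.h x w - s * F.h x u := by
    linear_combination (- s * F.h x u) * e2
  rw [e4]
  module

end Frm

end H47Cl
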