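import Mathlib
import Pool.Agent.H.MP_0335f8_cl.Form

set_option linter.unusedSectionVars false
set_option linter.unusedSimpArgs false

/-!
# Hyperbolic frames
-/

namespace H47Cl

open H47Cl.Frm

/-- a frame: hyperbolic planes indexed by `X` and an anisotropic rest spanned by two vectors -/
structure Frame {K V : Type*} [Field K] [AddCommGroup V] [Module K V] (F : Frm K V)
    (X : Type*) [Fintype X] [DecidableEq X] where
  /-- first vectors -/
  e : X → V
  /-- second vectors -/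
  f : X → V
  /-- generators of the anisotropic part -/
  v : Fin 2 → V
  hee : ∀ x y, F.h (e x) (e y) = 0
  hff : ∀ x y, F.h (f x) (f y) = 0
  hef : ∀ x y, F.h (e x) (f y) = if x = y then 1 else 0
  qe : ∀ x, F.q (e x) = 0
  qf : ∀ x, F.q (f x) = 0
  hve : ∀ i x, F.h (v i) (e x) = 0
  hvf : ∀ i x, F.h (v i) (f x) = 0
  span : ∀ w, (∀ x, F.h w (e x) = 0) → (∀ x, F.h w (f x) = 0) →
    ∃ a b : K, w = a • v 0 + b • v 1
  aniso : ∀ w, (∀ x, F.h w (e x) = 0) → (∀ x, F.h w (f x) = 0) → F.h w w = 0 → F.q w = 0 → w = 0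

namespace Frame

variable {K V : Type*} [Field K] [AddCommGroup V] [Module K V] {F : Frm K V}
  {X : Type*} [Fintype X] [DecidableEq X] (B : Frame F X)

theorem hfe (x y : X) : F.h (B.f x) (B.e y) = if x = y then F.ε else 0 := by
  rw [F.h_swap, B.hef]
  by_cases h : x = y
  · subst h; simp
  · rw [if_neg h, if_neg (Ne.symm h)]; simp

theorem hev (i : Fin 2) (x : X) : F.h (B.e x) (B.v i) = 0 := F.h_symm_zero (B.hve i x)

theorem hfv (i : Fin 2) (x : X) : F.h (B.f x) (B.v i) = 0 := F.h_symm_zero (B.hvf i x)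

/-- the projection to the anisotropic part -/
def pr (x : V) : V :=
  x - (∑ y, F.h x (B.f y) • B.e y + ∑ y, (F.ε * F.h x (B.e y)) • B.f y)

theorem pr_e (x : V) (y : X) : F.h (B.pr x) (B.e y) = 0 := by
  rw [pr, F.h_sub, F.h_add, F.h_sum, F.h_sum]
  simp only [F.h_smul, B.hee, B.hfe, mul_zero, Finset.sum_const_zero, zero_add, mul_ite,
    Finset.sum_ite_eq', Finset.mem_univ, if_true]
  have := F.ε2
  linear_combination -(F.h x (B.e y)) * this

theorem pr_f (x : V) (y : X) : F.h (B.pr x) (B.f y) = 0 := by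
  rw [pr, F.h_sub, F.h_add, F.h_sum, F.h_sum]
  simp only [F.h_smul, B.hff, B.hef, mul_zero, Finset.sum_const_zero, add_zero, mul_ite,
    Finset.sum_ite_eq', Finset.mem_univ, if_true, mul_one, sub_self]

theorem decomp (x : V) : x = ∑ y, F.h x (B.f y) • B.e y +
    ∑ y, (F.ε * F.h x (B.e y)) • B.f y + B.pr x := by
  rw [pr]; abel

theorem decomp' (x : V) : ∃ a b : K, x = ∑ y, F.h x (B.f y) • B.e y +
    ∑ y, (F.ε * F.h x (B.e y)) • B.f y + (a • B.v 0 + b • B.v 1) := by
  obtain ⟨a, b, h⟩ := B.span (B.pr x) (B.pr_e x) (B.pr_f x)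
  exact ⟨a, b, by rw [← h]; exact B.decomp x⟩

theorem ext_lin {g g' : V →ₗ[K] V} (he : ∀ x, g (B.e x) = g' (B.e x))
    (hf : ∀ x, g (B.f x) = g' (B.f x)) (hv : ∀ i, g (B.v i) = g' (B.v i)) : g = g' := by
  ext x
  obtain ⟨a, b, h⟩ := B.decomp' x
  rw [h]
  simp only [map_add, map_sum, map_smul, he, hf, hv]

theorem ext_G {g g' : F.G} (he : ∀ x, g.1 (B.e x) = g'.1 (B.e x))
    (hf : ∀ x, g.1 (B.f x) = g'.1 (B.f x)) (hv : ∀ i, g.1 (B.v i) = g'.1 (B.v i)) : g = g' := by
  have := B.ext_lin (g := g.1.toLinearMap) (g' := g'.1.toLinearMap) he hf hv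
  apply ext_ap
  intro x
  exact congrArg (fun k : V →ₗ[K] V => k x) this

/-- two vectors with the same pairings with the frame are equal -/
theorem ext_h {x y : V} (he : ∀ z, F.h x (B.e z) = F.h y (B.e z))
    (hf : ∀ z, F.h x (B.f z) = F.h y (B.f z)) (hv : ∀ i, F.h x (B.v i) = F.h y (B.v i)) :
    x = y := by
  rw [← sub_eq_zero]
  apply F.nd
  intro z
  obtain ⟨a, b, h⟩ := B.decomp' z
  rw [h]
  simp only [F.h_add_right, F.h_sum_right, F.h_smul_right, F.h_sub, he, hf, hv, sub_self,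
    mul_zero, Finset.sum_const_zero, add_zero]

/-- the function of a permutation of the planes -/
def Pfun (g : Equiv.Perm X) (x : V) : V :=
  ∑ y, F.h x (B.f y) • B.e (g y) + ∑ y, (F.ε * F.h x (B.e y)) • B.f (g y) + B.pr x

theorem pr_add (x y : V) : B.pr (x + y) = B.pr x + B.pr y := by
  simp only [pr, F.h_add, add_smul, mul_add, Finset.sum_add_distrib]
  abel

theorem pr_smul (a : K) (x : V) : B.pr (a • x) = a • B.pr x := by
  simp only [pr, F.h_smul, smul_sub, smul_add, Finset.smul_sum, smul_smul, mul_left_comm]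

theorem Pfun_add (g : Equiv.Perm X) (x y : V) :
    B.Pfun g (x + y) = B.Pfun g x + B.Pfun g y := by
  simp only [Pfun, F.h_add, add_smul, mul_add, Finset.sum_add_distrib, pr_add]
  abel

theorem Pfun_smul (g : Equiv.Perm X) (a : K) (x : V) :
    B.Pfun g (a • x) = a • B.Pfun g x := by
  simp only [Pfun, F.h_smul, smul_add, Finset.smul_sum, smul_smul, mul_left_comm, pr_smul]

theorem Pfun_hf (g : Equiv.Perm X) (x : V) (y : X) :
    F.h (B.Pfun g x) (B.f y) = F.h x (B.f (g⁻¹ y)) := by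
  rw [Pfun, F.h_add, F.h_add, F.h_sum, F.h_sum]
  simp only [F.h_smul, B.hff, B.hef, B.pr_f, mul_zero, Finset.sum_const_zero, add_zero, mul_ite,
    mul_one]
  rw [Finset.sum_eq_single (g⁻¹ y)]
  · simp
  · intro b _ hb
    rw [if_neg]
    rintro rfl
    simp at hb
  · simp

theorem Pfun_he (g : Equiv.Perm X) (x : V) (y : X) :
    F.h (B.Pfun g x) (B.e y) = F.h x (B.e (g⁻¹ y)) := by
  rw [Pfun, F.h_add, F.h_add, F.h_sum, F.h_sum]
  simp only [F.h_smul, B.hfe, B.hee, B.pr_e, mul_zero, Finset.sum_const_zero, add_zero, mul_ite,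
    zero_add]
  rw [Finset.sum_eq_single (g⁻¹ y)]
  · have := F.ε2
    rw [if_pos (by simp)]
    linear_combination (F.h x (B.e (g⁻¹ y))) * this
  · intro b _ hb
    rw [if_neg]
    rintro rfl
    simp at hb
  · simp

theorem pr_Pfun (g : Equiv.Perm X) (x : V) : B.pr (B.Pfun g x) = B.pr x := by
  have h1 : ∑ y, F.h (B.Pfun g x) (B.f y) • B.e y = ∑ y, F.h x (B.f y) • B.e (g y) := by
    rw [← Equiv.sum_comp g]
    simp [Pfun_hf]
  have h2 : ∑ y, (F.ε * F.h (B.Pfun g x) (B.e y)) • B.f y =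
      ∑ y, (F.ε * F.h x (B.e y)) • B.f (g y) := by
    rw [← Equiv.sum_comp g]
    simp [Pfun_he]
  conv_lhs => rw [pr, h1, h2, Pfun]
  abel

theorem Pfun_mul (g g' : Equiv.Perm X) (x : V) : B.Pfun (g * g') x = B.Pfun g (B.Pfun g' x) := by
  conv_rhs => rw [Pfun, pr_Pfun]
  rw [Pfun]
  congr 1
  congr 1
  · rw [← Equiv.sum_comp g' (fun y => F.h (B.Pfun g' x) (B.f y) • B.e (g y))]
    simp [Pfun_hf]
  · rw [← Equiv.sum_comp g' (fun y => (F.ε * F.h (B.Pfun g' x) (B.e y)) • B.f (g y))]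
    simp [Pfun_he]

theorem Pfun_one (x : V) : B.Pfun 1 x = x := by
  rw [Pfun]
  exact (B.decomp x).symm

theorem pr_h (x y : V) : F.h x (B.pr y) = F.h (B.pr x) (B.pr y) := by
  conv_lhs => rw [B.decomp x, F.h_add, F.h_add, F.h_sum, F.h_sum]
  simp only [F.h_smul, F.h_symm_zero (B.pr_e y _), F.h_symm_zero (B.pr_f y _), mul_zero,
    Finset.sum_const_zero, zero_add]

/-- the form in coordinates -/
theorem h_coord (x y : V) : F.h x y = ∑ z, F.h x (B.f z) * (F.ε * F.σ (F.h y (B.e z))) +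
    ∑ z, F.h x (B.e z) * F.σ (F.h y (B.f z)) + F.h (B.pr x) (B.pr y) := by
  conv_lhs => rw [B.decomp y, F.h_add_right, F.h_add_right, F.h_sum_right, F.h_sum_right]
  simp only [F.h_smul_right, map_mul, F.σε]
  rw [pr_h, add_comm (∑ y_1, F.σ (F.h y (B.f y_1)) * F.h x (B.e y_1))]
  congr 1
  congr 1
  · apply Finset.sum_congr rfl
    intros; ring
  · apply Finset.sum_congr rfl
    intros; ring

theorem q_sum {ι : Type*} (s : Finset ι) (c : ι → K) (g : ι → V) (hq : ∀ i, F.q (g i) = 0)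
    (hg : ∀ i j, F.h (g i) (g j) = 0) : F.q (∑ i ∈ s, c i • g i) = 0 := by
  classical
  induction s using Finset.induction_on with
  | empty => simp
  | insert a s ha ih =>
    rw [Finset.sum_insert ha, F.q_add, ih, F.q_smul, hq, F.h_sum_right]
    simp [F.h_smul, F.h_smul_right, hg]

theorem q_coord (x : V) : F.q x = F.κ * (∑ z, F.h x (B.f z) * (F.ε * F.σ (F.h x (B.e z)))) +
    F.q (B.pr x) := by
  conv_lhs => rw [B.decomp x, F.q_add, F.q_add, q_sum _ _ _ B.qe B.hee, q_sum _ _ _ B.qf B.hff]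
  have h1 : F.h (∑ y, F.h x (B.f y) • B.e y) (∑ y, (F.ε * F.h x (B.e y)) • B.f y) =
      ∑ z, F.h x (B.f z) * (F.ε * F.σ (F.h x (B.e z))) := by
    rw [F.h_sum]
    apply Finset.sum_congr rfl
    intro z _
    rw [F.h_smul, F.h_sum_right]
    simp only [F.h_smul_right, B.hef, mul_ite, mul_one, mul_zero, Finset.sum_ite_eq,
      Finset.mem_univ, if_true, map_mul, F.σε]
  have h2 : F.h (∑ y, F.h x (B.f y) • B.e y + ∑ y, (F.ε * F.h x (B.e y)) • B.f y) (B.pr x) = 0 := by
    rw [F.h_add, F.h_sum, F.h_sum]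
    simp only [F.h_smul, F.h_symm_zero (B.pr_e x _), F.h_symm_zero (B.pr_f x _), mul_zero,
      Finset.sum_const_zero, zero_add]
  rw [h1, h2]
  ring

theorem Pfun_h (g : Equiv.Perm X) (x y : V) : F.h (B.Pfun g x) (B.Pfun g y) = F.h x y := by
  rw [B.h_coord (B.Pfun g x), B.h_coord x y, pr_Pfun, pr_Pfun]
  simp only [Pfun_hf, Pfun_he]
  rw [Equiv.sum_comp g⁻¹ (fun z => F.h x (B.f z) * (F.ε * F.σ (F.h y (B.e z)))),
    Equiv.sum_comp g⁻¹ (fun z => F.h x (B.e z) * F.σ (F.h y (B.f z)))]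

theorem Pfun_q (g : Equiv.Perm X) (x : V) : F.q (B.Pfun g x) = F.q x := by
  rw [B.q_coord (B.Pfun g x), B.q_coord x, pr_Pfun]
  simp only [Pfun_hf, Pfun_he]
  rw [Equiv.sum_comp g⁻¹ (fun z => F.h x (B.f z) * (F.ε * F.σ (F.h x (B.e z))))]

/-- the permutation action on the hyperbolic planes -/
def P : Equiv.Perm X →* F.G where
  toFun g := ⟨{ toFun := B.Pfun g
                invFun := B.Pfun g⁻¹
                map_add' := B.Pfun_add g
                map_smul' := B.Pfun_smul g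
                left_inv := fun x => by rw [← Pfun_mul, inv_mul_cancel, Pfun_one]
                right_inv := fun x => by rw [← Pfun_mul, mul_inv_cancel, Pfun_one] },
              B.Pfun_h g, B.Pfun_q g⟩
  map_one' := ext_ap fun x => B.Pfun_one x
  map_mul' g g' := ext_ap fun x => B.Pfun_mul g g' x

theorem P_ap (g : Equiv.Perm X) (x : V) : (B.P g).1 x = B.Pfun g x := rfl

theorem pr_of_mem {w : V} (he : ∀ x, F.h w (B.e x) = 0) (hf : ∀ x, F.h w (B.f x) = 0) :
    B.pr w = w := by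
  simp [pr, he, hf]

theorem P_e (g : Equiv.Perm X) (x : X) : (B.P g).1 (B.e x) = B.e (g x) := by
  rw [P_ap, Pfun, pr]
  simp [B.hee, B.hef]

theorem P_f (g : Equiv.Perm X) (x : X) : (B.P g).1 (B.f x) = B.f (g x) := by
  rw [P_ap, Pfun, pr]
  simp [B.hff, B.hfe, F.ε2]

theorem P_w (g : Equiv.Perm X) {w : V} (he : ∀ x, F.h w (B.e x) = 0)
    (hf : ∀ x, F.h w (B.f x) = 0) : (B.P g).1 w = w := by
  rw [P_ap, Pfun, B.pr_of_mem he hf]
  simp [he, hf]

theorem P_v (g : Equiv.Perm X) (i : Fin 2) : (B.P g).1 (B.v i) = B.v i :=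
  B.P_w g (B.hve i) (B.hvf i)

theorem e_ne (x : X) : B.e x ≠ 0 := by
  intro h
  have := B.hef x x
  rw [h, if_pos rfl, F.h_zero_left] at this
  exact zero_ne_one this

theorem e_inj : Function.Injective B.e := by
  intro x y h
  have := B.hef x y
  rw [h, B.hef y y, if_pos rfl] at this
  by_contra hne
  rw [if_neg hne] at this
  exact one_ne_zero this

theorem P_inj : Function.Injective B.P := by
  intro g g' h
  ext x
  apply B.e_inj
  rw [← B.P_e, h, B.P_e]

/-- a nonzero singular vector pairs nontrivially with the frame -/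
theorem exists_coord {u : V} (hu : F.h u u = 0) (hq : F.q u = 0) (h0 : u ≠ 0) :
    ∃ x, F.h u (B.f x) ≠ 0 ∨ F.h u (B.e x) ≠ 0 := by
  by_contra hc
  push Not at hc
  exact h0 (B.aniso u (fun x => (hc x).2) (fun x => (hc x).1) hu hq)

end Frame

end H47Cl
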