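import Mathlib

/-!
# Unipotent elements of level three (module Unip)
-/

namespace H47Cl

/-- the automorphisms of `V` acting trivially on `T`, `T' / T` and `V / T'` -/
def unip {K V : Type*} [Field K] [AddCommGroup V] [Module K V] (T T' : Submodule K V)
    (_ : T ≤ T') : Subgroup (V ≃ₗ[K] V) where
  carrier := {g | (∀ x, g x - x ∈ T') ∧ (∀ x ∈ T', g x - x ∈ T) ∧ ∀ x ∈ T, g x = x}
  mul_mem' := by
    rename_i hTT
    rintro g h ⟨hg1, hg2, hg3⟩ ⟨hh1, hh2, hh3⟩
    refine ⟨fun x => ?_, fun x hx => ?_, fun x hx => ?_⟩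
    · have h1 : (g * h) x - x = (g (h x) - h x) + (h x - x) := by
        rw [LinearEquiv.mul_apply]; abel
      rw [h1]
      exact T'.add_mem (hg1 _) (hh1 _)
    · have h1 : (g * h) x - x = (g (h x) - h x) + (h x - x) := by
        rw [LinearEquiv.mul_apply]; abel
      rw [h1]
      have h2 : h x ∈ T' := by
        have h3 : h x = (h x - x) + x := by abel
        rw [h3]
        exact T'.add_mem (hh1 x) hx
      exact T.add_mem (hg2 _ h2) (hh2 _ hx)
    · rw [LinearEquiv.mul_apply, hh3 x hx, hg3 x hx]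
  one_mem' := by
    refine ⟨fun x => ?_, fun x _ => ?_, fun x _ => rfl⟩
    · rw [LinearEquiv.coe_one, id_eq, sub_self]
      exact T'.zero_mem
    · rw [LinearEquiv.coe_one, id_eq, sub_self]
      exact T.zero_mem
  inv_mem' := by
    rename_i hTT
    rintro g ⟨hg1, hg2, hg3⟩
    have hgg : ∀ x, g (g⁻¹ x) = x := fun x => g.apply_symm_apply x
    have hgg' : ∀ x, g⁻¹ (g x) = x := fun x => g.symm_apply_apply x
    have h0 : ∀ x, g⁻¹ x - x = -(g (g⁻¹ x) - g⁻¹ x) := by
      intro x
      rw [hgg]; abel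
    have h1 : ∀ x, g⁻¹ x - x ∈ T' := by
      intro x
      rw [h0]
      exact T'.neg_mem (hg1 _)
    refine ⟨h1, fun x hx => ?_, fun x hx => ?_⟩
    · rw [h0]
      apply T.neg_mem (hg2 _ _)
      have h3 : g⁻¹ x = (g⁻¹ x - x) + x := by abel
      rw [h3]
      exact T'.add_mem (h1 x) hx
    · have h4 := hgg' x
      rw [hg3 x hx] at h4
      exact h4

/-- Elements of `unip` have order dividing `p ^ 2`.

Proof.  Let `M = g - 1` in `Module.End K V`; then `M ^ 3 = 0` (`M V ⊆ T'`, `M T' ⊆ T`,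
`M T = 0`), so `M ^ (p ^ 2) = 0` as `p ^ 2 ≥ 4`, and in characteristic `p`
`(1 + M) ^ (p ^ 2) = 1 + M ^ (p ^ 2) = 1` (`add_pow_char_pow_of_commute` or
`Commute.add_pow_char_pow`-like lemma; `Module.End K V` has characteristic `p` if `V` is
nontrivial; if `V` is trivial everything is `1`; or use the binomial theorem for commuting
elements). -/
theorem unip_pow {K V : Type*} [Field K] [AddCommGroup V] [Module K V] (p : ℕ) [Fact p.Prime]
    [CharP K p] (T T' : Submodule K V) (hT : T ≤ T') (g : V ≃ₗ[K] V) (hg : g ∈ unip T T' hT) :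
    g ^ (p ^ 2) = 1 := by
  rcases subsingleton_or_nontrivial V with hV | hV
  · apply LinearEquiv.ext
    intro x
    exact Subsingleton.elim _ _
  obtain ⟨hg1, hg2, hg3⟩ := hg
  have hchar : CharP (Module.End K V) p := charP_of_injective_algebraMap'
    K p
  let M : Module.End K V := (g : V →ₗ[K] V) - 1
  have hM : ∀ x, M x = g x - x := fun x => rfl
  have hM3 : M ^ 3 = 0 := by
    apply LinearMap.ext
    intro x
    have : (M ^ 3) x = M (M (M x)) := rfl
    rw [this, LinearMap.zero_apply, hM (M (M x)), hg3, sub_self]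
    rw [hM (M x)]
    apply hg2
    rw [hM]
    exact hg1 x
  have hp2 : 3 ≤ p ^ 2 := by
    have := (Fact.out : p.Prime).two_le
    nlinarith
  have hMp : M ^ (p ^ 2) = 0 := by
    obtain ⟨k, hk⟩ := Nat.exists_eq_add_of_le hp2
    rw [hk, pow_add, hM3, zero_mul]
  have hgM : (g : V →ₗ[K] V) = M + 1 := (sub_add_cancel _ _).symm
  have hpow : ∀ n : ℕ, ∀ x, (g ^ n) x = ((g : V →ₗ[K] V) ^ n : Module.End K V) x := by
    intro n
    induction n with
    | zero => intro x; rfl
    | succ n ih =>
      intro x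
      rw [pow_succ, pow_succ, LinearEquiv.mul_apply, Module.End.mul_apply, ih]
      rfl
  apply LinearEquiv.ext
  intro x
  rw [hpow, hgM, add_pow_char_pow_of_commute (p := p) (n := 2) (Commute.one_right M), hMp]
  simp

end H47Cl
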