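import Mathlib
import Pool.Agent.H.MP_0335f8_cl.Frame
import Pool.Agent.H.MP_0335f8_cl.Unip

set_option linter.unusedSectionVars false

/-!
# The seed element (module Seeds)
-/

namespace H47Cl

open H47Cl.Frm

section
variable {K V : Type*} [Field K] [AddCommGroup V] [Module K V] {F : Frm K V}
  {X : Type*} [Fintype X] [DecidableEq X] (B : Frame F X)

theorem El_mem_unip (T T' : Submodule K V) (hT : T ≤ T') {u w : V} {s : K} (hu : u ∈ T)
    (hw : w ∈ T') (h1 : ∀ t ∈ T', F.h t u = 0) (h2 : ∀ t ∈ T, F.h t w = 0) :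
    (F.El u w s).1 ∈ unip T T' hT := by
  by_cases h : F.Adm u w s
  · refine ⟨fun x => ?_, fun x hx => ?_, fun x hx => ?_⟩
    · rw [El_ap h]
      have : x + F.h x u • w - (F.ε * F.h x w) • u + (s * F.h x u) • u - x =
        F.h x u • w + ((s * F.h x u) - (F.ε * F.h x w)) • u := by module
      rw [this]
      exact T'.add_mem (T'.smul_mem _ hw) (T'.smul_mem _ (hT hu))
    · rw [El_ap h, h1 x hx]
      have : x + (0 : K) • w - (F.ε * F.h x w) • u + (s * 0) • u - x =
        (- (F.ε * F.h x w)) • u := by module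
      rw [this]
      exact T.smul_mem _ hu
    · rw [El_ap h, h1 x (hT hx), h2 x hx]
      simp
  · rw [El, dif_neg h]
    exact Subgroup.one_mem _

/-- a totally singular subspace spanned by frame vectors -/
def Tsub (I J : Set X) : Submodule K V := Submodule.span K (B.e '' I ∪ B.f '' J)

/-- the same with the anisotropic part -/
def Tsub' (I J : Set X) : Submodule K V := Submodule.span K (B.e '' I ∪ B.f '' J ∪ Set.range B.v)

theorem Tsub_le (I J : Set X) : Tsub B I J ≤ Tsub' B I J :=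
  Submodule.span_mono Set.subset_union_left

theorem Tsub'_e {I J : Set X} (hIJ : Disjoint I J) {t : V} (ht : t ∈ Tsub' B I J) {x : X}
    (hx : x ∈ I) : F.h t (B.e x) = 0 := by
  unfold Tsub' at ht
  induction ht using Submodule.span_induction with
  | mem t ht =>
    rcases ht with (⟨y, hy, rfl⟩ | ⟨y, hy, rfl⟩) | ⟨k, rfl⟩
    · exact B.hee _ _
    · rw [B.hfe, if_neg]
      rintro rfl
      exact Set.disjoint_left.1 hIJ hx hy
    · exact B.hve _ _
  | zero => simp
  | add a b _ _ ha hb => rw [F.h_add, ha, hb, add_zero]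
  | smul c a _ ha => rw [F.h_smul, ha, mul_zero]

theorem Tsub'_f {I J : Set X} (hIJ : Disjoint I J) {t : V} (ht : t ∈ Tsub' B I J) {x : X}
    (hx : x ∈ J) : F.h t (B.f x) = 0 := by
  unfold Tsub' at ht
  induction ht using Submodule.span_induction with
  | mem t ht =>
    rcases ht with (⟨y, hy, rfl⟩ | ⟨y, hy, rfl⟩) | ⟨k, rfl⟩
    · rw [B.hef, if_neg]
      rintro rfl
      exact Set.disjoint_left.1 hIJ hy hx
    · exact B.hff _ _
    · exact B.hvf _ _
  | zero => simp
  | add a b _ _ ha hb => rw [F.h_add, ha, hb, add_zero]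
  | smul c a _ ha => rw [F.h_smul, ha, mul_zero]

theorem Tsub_v {I J : Set X} {t : V} (ht : t ∈ Tsub B I J) (k : Fin 2) :
    F.h t (B.v k) = 0 := by
  unfold Tsub at ht
  induction ht using Submodule.span_induction with
  | mem t ht =>
    rcases ht with ⟨y, hy, rfl⟩ | ⟨y, hy, rfl⟩
    · exact B.hev _ _
    · exact B.hfv _ _
  | zero => simp
  | add a b _ _ ha hb => rw [F.h_add, ha, hb, add_zero]
  | smul c a _ ha => rw [F.h_smul, ha, mul_zero]

theorem e_mem_Tsub {I J : Set X} {x : X} (hx : x ∈ I) : B.e x ∈ Tsub B I J :=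
  Submodule.subset_span (Or.inl ⟨x, hx, rfl⟩)

theorem f_mem_Tsub {I J : Set X} {x : X} (hx : x ∈ J) : B.f x ∈ Tsub B I J :=
  Submodule.subset_span (Or.inr ⟨x, hx, rfl⟩)

theorem v_mem_Tsub' {I J : Set X} (k : Fin 2) : B.v k ∈ Tsub' B I J :=
  Submodule.subset_span (Or.inr ⟨k, rfl⟩)

end

/-- the parameters of the seed element -/
structure Seed {K V : Type*} [Field K] [AddCommGroup V] [Module K V] {F : Frm K V}
    {X : Type*} [Fintype X] [DecidableEq X] (B : Frame F X) where
  /-- a generator of the multiplicative group -/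
  l : K
  hl : l ≠ 0
  gen : ∀ a : K, a ≠ 0 → ∃ n : ℕ, a = l ^ n
  /-- long root parameter -/
  s0 : K
  /-- parameter for the first anisotropic vector -/
  s1 : K
  /-- parameter for the second anisotropic vector -/
  s2 : K
  a0 : ∀ x, F.Adm (B.e x) 0 s0
  a1 : ∀ x, F.Adm (B.e x) (B.v 0) s1
  a2 : ∀ x, F.Adm (B.e x) (B.v 1) s2
  pure : ∀ s, F.ε * s + F.σ s = 0 → F.κ * s = 0 →
    (∃ c, s = F.σ c - F.ε * c) ∨ (∃ ν, s = ν * F.σ ν * s0)

namespace Seed

variable {K V : Type*} [Field K] [AddCommGroup V] [Module K V] {F : Frm K V}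
  {X : Type*} [Fintype X] [DecidableEq X] {B : Frame F X} (D : Seed B)

/-- the factor of type `e, f` -/
noncomputable def A (p q : X) : F.G := F.El (B.e p) (D.l • B.f q) 0

/-- the factor of type `e, e` -/
noncomputable def Be (p q : X) : F.G := F.El (B.e p) (D.l • B.e q) 0

/-- the factor of type `f, f` -/
noncomputable def Bf (p q : X) : F.G := F.El (B.f p) (D.l • B.f q) 0

/-- the long root factor -/
noncomputable def S (p : X) : F.G := F.El (B.e p) 0 D.s0

/-- the factor for the first anisotropic vector -/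
noncomputable def W1 (p : X) : F.G := F.El (B.e p) (B.v 0) D.s1

/-- the factor for the second anisotropic vector -/
noncomputable def W2 (p : X) : F.G := F.El (B.e p) (B.v 1) D.s2

/-- the product of the six factors -/
noncomputable def g (i : Fin 9 → X) : F.G :=
  D.A (i 0) (i 1) * D.Be (i 2) (i 3) * D.Bf (i 4) (i 5) * D.S (i 6) * D.W1 (i 7) * D.W2 (i 8)

/-- the seed element -/
noncomputable def C (i i' : Fin 9 → X) : F.G := D.g i * (D.g i')⁻¹

/-- Permutations act on the indices.  (Use `El_conj`, `P_e`, `P_f`, `P_v`, and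
`(a * b)` conjugated is the product of the conjugates.) -/
theorem g_conj (τ : Equiv.Perm X) (i : Fin 9 → X) :
    B.P τ * D.g i * (B.P τ)⁻¹ = D.g (fun k => τ (i k)) := by
  have key : ∀ a b c d e f x : F.G, x * (a * b * c * d * e * f) * x⁻¹ =
      (x * a * x⁻¹) * (x * b * x⁻¹) * (x * c * x⁻¹) * (x * d * x⁻¹) * (x * e * x⁻¹) *
        (x * f * x⁻¹) := by
    intros; group
  unfold g
  rw [key]
  unfold A Be Bf S W1 W2
  simp only [El_conj, map_smul, B.P_e, B.P_f, B.P_v, map_zero]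

theorem C_conj (τ : Equiv.Perm X) (i i' : Fin 9 → X) :
    B.P τ * D.C i i' * (B.P τ)⁻¹ = D.C (fun k => τ (i k)) (fun k => τ (i' k)) := by
  unfold C
  rw [← D.g_conj τ i, ← D.g_conj τ i']
  group

/-- a permutation fixing the indices commutes (from `g_conj`) -/
theorem g_comm (τ : Equiv.Perm X) (i : Fin 9 → X) (hτ : ∀ k, τ (i k) = i k) :
    Commute (D.g i) (B.P τ) := by
  have h := D.g_conj τ i
  simp only [hτ] at h
  have h2 : B.P τ * D.g i = D.g i * B.P τ := by
    rw [← mul_inv_eq_iff_eq_mul]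
    exact h
  exact h2.symm

/-- The seed element has order dividing `p ^ 2`.

Proof.  Use `unip_pow` with `T` the span of the vectors
`e (i 0), f (i 1), e (i 2), e (i 3), f (i 4), f (i 5), e (i 6), e (i 7), e (i 8)` and of the same
vectors for `i'`, and `T'` the span of `T` and `v 0`, `v 1`; `T` is totally singular and
orthogonal to `T'` (all indices are distinct by `hi`).  Each factor `El u w s` has `u ∈ T`,
`w ∈ T'`, with `h t u = h t w = 0` for `t ∈ T` and `h t u = 0` for `t ∈ T'`, so it lies in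
`unip T T'` by `El_ap`; for the last condition on `t ∈ T'`:
`El u w s t - t = - ε h(t, w) u ∈ T`.  A good general lemma: `El u w s ∈ unip` if
`u ∈ T`, `w ∈ T'`, `∀ t ∈ T', h t u = 0`, `∀ t ∈ T, h t w = 0`. -/
theorem C_pow (p : ℕ) [Fact p.Prime] [CharP K p] (i i' : Fin 9 → X)
    (hi : Function.Injective (Sum.elim i i')) : (D.C i i') ^ (p ^ 2) = 1 := by
  set Se : Set (Fin 9) := {0, 2, 3, 6, 7, 8} with hSe
  set Sf : Set (Fin 9) := {1, 4, 5} with hSf
  have hSS : ∀ a ∈ Se, ∀ b ∈ Sf, a ≠ b := by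
    intro a ha b hb
    simp only [hSe, hSf, Set.mem_insert_iff, Set.mem_singleton_iff] at ha hb
    rcases ha with rfl | rfl | rfl | rfl | rfl | rfl <;> rcases hb with rfl | rfl | rfl <;> decide
  set I : Set X := i '' Se ∪ i' '' Se with hI
  set J : Set X := i '' Sf ∪ i' '' Sf with hJ
  have hIJ : Disjoint I J := by
    rw [Set.disjoint_left]
    rintro x (⟨a, ha, rfl⟩ | ⟨a, ha, rfl⟩) (⟨b, hb, hab⟩ | ⟨b, hb, hab⟩)
    · have := @hi (Sum.inl b) (Sum.inl a) hab
      exact hSS a ha b hb (Sum.inl.inj this).symm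
    · have := @hi (Sum.inr b) (Sum.inl a) hab
      exact Sum.inr_ne_inl this
    · have := @hi (Sum.inl b) (Sum.inr a) hab
      exact Sum.inl_ne_inr this
    · have := @hi (Sum.inr b) (Sum.inr a) hab
      exact hSS a ha b hb (Sum.inr.inj this).symm
  have key : ∀ j : Fin 9 → X, (∀ a ∈ Se, j a ∈ I) → (∀ a ∈ Sf, j a ∈ J) →
      (D.g j).1 ∈ unip (Tsub B I J) (Tsub' B I J) (Tsub_le B I J) := by
    intro j he hf
    have hl := Tsub_le B I J
    have e0 := he 0 (by simp [hSe])
    have e2 := he 2 (by simp [hSe])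
    have e3 := he 3 (by simp [hSe])
    have e6 := he 6 (by simp [hSe])
    have e7 := he 7 (by simp [hSe])
    have e8 := he 8 (by simp [hSe])
    have f1 := hf 1 (by simp [hSf])
    have f4 := hf 4 (by simp [hSf])
    have f5 := hf 5 (by simp [hSf])
    have a1 : (D.A (j 0) (j 1)).1 ∈ unip (Tsub B I J) (Tsub' B I J) hl :=
      El_mem_unip _ _ _ (e_mem_Tsub B e0) (hl (Submodule.smul_mem _ _ (f_mem_Tsub B f1)))
        (fun t ht => Tsub'_e B hIJ ht e0)
        (fun t ht => by rw [F.h_smul_right, Tsub'_f B hIJ (hl ht) f1, mul_zero])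
    have a2 : (D.Be (j 2) (j 3)).1 ∈ unip (Tsub B I J) (Tsub' B I J) hl :=
      El_mem_unip _ _ _ (e_mem_Tsub B e2) (hl (Submodule.smul_mem _ _ (e_mem_Tsub B e3)))
        (fun t ht => Tsub'_e B hIJ ht e2)
        (fun t ht => by rw [F.h_smul_right, Tsub'_e B hIJ (hl ht) e3, mul_zero])
    have a3 : (D.Bf (j 4) (j 5)).1 ∈ unip (Tsub B I J) (Tsub' B I J) hl :=
      El_mem_unip _ _ _ (f_mem_Tsub B f4) (hl (Submodule.smul_mem _ _ (f_mem_Tsub B f5)))
        (fun t ht => Tsub'_f B hIJ ht f4)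
        (fun t ht => by rw [F.h_smul_right, Tsub'_f B hIJ (hl ht) f5, mul_zero])
    have a4 : (D.S (j 6)).1 ∈ unip (Tsub B I J) (Tsub' B I J) hl :=
      El_mem_unip _ _ _ (e_mem_Tsub B e6) (Submodule.zero_mem _)
        (fun t ht => Tsub'_e B hIJ ht e6) (fun t ht => F.h_zero_right t)
    have a5 : (D.W1 (j 7)).1 ∈ unip (Tsub B I J) (Tsub' B I J) hl :=
      El_mem_unip _ _ _ (e_mem_Tsub B e7) (v_mem_Tsub' B 0)
        (fun t ht => Tsub'_e B hIJ ht e7) (fun t ht => Tsub_v B ht 0)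
    have a6 : (D.W2 (j 8)).1 ∈ unip (Tsub B I J) (Tsub' B I J) hl :=
      El_mem_unip _ _ _ (e_mem_Tsub B e8) (v_mem_Tsub' B 1)
        (fun t ht => Tsub'_e B hIJ ht e8) (fun t ht => Tsub_v B ht 1)
    exact Subgroup.mul_mem _ (Subgroup.mul_mem _ (Subgroup.mul_mem _ (Subgroup.mul_mem _
      (Subgroup.mul_mem _ a1 a2) a3) a4) a5) a6
  have h1 := key i (fun a ha => Or.inl ⟨a, ha, rfl⟩) (fun a ha => Or.inl ⟨a, ha, rfl⟩)
  have h2 := key i' (fun a ha => Or.inr ⟨a, ha, rfl⟩) (fun a ha => Or.inr ⟨a, ha, rfl⟩)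
  have h3 : (D.C i i').1 ∈ unip (Tsub B I J) (Tsub' B I J) (Tsub_le B I J) :=
    Subgroup.mul_mem _ h1 (Subgroup.inv_mem _ h2)
  have h4 := unip_pow p _ _ _ _ h3
  exact Subtype.ext h4

end Seed

end H47Cl
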