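import Mathlib

/-!
# Even permutations with prescribed values (module Trans)

Proof: `alternatingGroup.isMultiplyPretransitive X` says that the alternating group is
`(card X - 2)`-transitive on embeddings; `MulAction.isMultiplyPretransitive_of_le` gives
`n`-transitivity for `n + 2 ≤ card X`.  Apply it to the embeddings of `Fin n` given by `x`, `y`.
-/

namespace H47Cl

theorem exists_alt_map {X : Type*} [Fintype X] [DecidableEq X] {n : ℕ}
    (hn : n + 2 ≤ Fintype.card X) (x y : Fin n → X) (hx : Function.Injective x)
    (hy : Function.Injective y) : ∃ τ ∈ alternatingGroup X, ∀ i, τ (x i) = y i := by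
  have h1 := alternatingGroup.isMultiplyPretransitive X
  have hc : Nat.card X = Fintype.card X := Nat.card_eq_fintype_card
  have h2 : MulAction.IsMultiplyPretransitive (alternatingGroup X) X n :=
    MulAction.isMultiplyPretransitive_of_le (n := Nat.card X - 2) (by omega) (by omega)
  obtain ⟨g, hg⟩ := (MulAction.isMultiplyPretransitive_iff.1 h2) ⟨x, hx⟩ ⟨y, hy⟩
  refine ⟨g.1, g.2, fun i => ?_⟩
  exact DFunLike.congr_fun hg i

/-- choosing `n` new points outside a given finite set -/
theorem exists_fresh {X : Type*} [Fintype X] [DecidableEq X] (n : ℕ) (S : Finset X)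
    (hn : n + S.card ≤ Fintype.card X) :
    ∃ x : Fin n → X, Function.Injective x ∧ ∀ i, x i ∉ S := by
  have h1 : n ≤ Sᶜ.card := by
    rw [Finset.card_compl]
    omega
  obtain ⟨T, hT, hTn⟩ := Finset.exists_subset_card_eq h1
  refine ⟨fun i => (T.equivFinOfCardEq hTn).symm i, fun i j hij => ?_, fun i => ?_⟩
  · exact (T.equivFinOfCardEq hTn).symm.injective (Subtype.ext hij)
  · exact Finset.mem_compl.1 (hT ((T.equivFinOfCardEq hTn).symm i).2)

end H47Cl
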