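import Mathlib
import Pool.Agent.H.MP_0335f8_cl.Seeds
import Pool.Agent.H.MP_0335f8_cl.Trans

set_option linter.unusedSectionVars false

/-!
# Isolating the factors of the seed element (module Isolate)
-/

namespace H47Cl

open H47Cl.Frm

/-- the root elements which generate everything -/
structure Roots {K V : Type*} [Field K] [AddCommGroup V] [Module K V] {F : Frm K V}
    {X : Type*} [Fintype X] [DecidableEq X] (B : Frame F X) (H : Subgroup F.G) : Prop where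
  ef : ∀ p q, p ≠ q → ∀ μ : K, F.El (B.e p) (μ • B.f q) 0 ∈ H
  ee : ∀ p q, p ≠ q → ∀ μ : K, F.El (B.e p) (μ • B.e q) 0 ∈ H
  ff : ∀ p q, p ≠ q → ∀ μ : K, F.El (B.f p) (μ • B.f q) 0 ∈ H
  ep : ∀ p (s : K), F.Adm (B.e p) 0 s → F.El (B.e p) 0 s ∈ H
  ew : ∀ p (i : Fin 2) (a : K), ∃ s, F.Adm (B.e p) (a • B.v i) s ∧ F.El (B.e p) (a • B.v i) s ∈ H

variable {K V : Type*} [Field K] [AddCommGroup V] [Module K V] {F : Frm K V}
  {X : Type*} [Fintype X] [DecidableEq X] {B : Frame F X} (D : Seed B)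

section basic

theorem adm_ef {p q : X} (hpq : p ≠ q) (μ : K) : F.Adm (B.e p) (μ • B.f q) 0 := by
  refine ⟨B.hee _ _, B.qe _, ?_, ?_, ?_⟩
  · rw [F.h_smul_right, B.hef, if_neg hpq, mul_zero]
  · rw [F.h_smul, F.h_smul_right, B.hff, map_zero]; ring
  · rw [F.q_smul, B.qf]; ring

theorem adm_ee (p q : X) (μ : K) : F.Adm (B.e p) (μ • B.e q) 0 := by
  refine ⟨B.hee _ _, B.qe _, ?_, ?_, ?_⟩
  · rw [F.h_smul_right, B.hee, mul_zero]
  · rw [F.h_smul, F.h_smul_right, B.hee, map_zero]; ring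
  · rw [F.q_smul, B.qe]; ring

theorem adm_ff (p q : X) (μ : K) : F.Adm (B.f p) (μ • B.f q) 0 := by
  refine ⟨B.hff _ _, B.qf _, ?_, ?_, ?_⟩
  · rw [F.h_smul_right, B.hff, mul_zero]
  · rw [F.h_smul, F.h_smul_right, B.hff, map_zero]; ring
  · rw [F.q_smul, B.qf]; ring

theorem adm_smul {u w : V} {s : K} (h : F.Adm u w s) (hw : ∀ c : K, F.h (c • u) w = 0) (ν : K) :
    F.Adm (ν • u) w s := by
  refine ⟨?_, ?_, hw ν, h.2.2.2.1, h.2.2.2.2⟩
  · rw [F.h_smul, F.h_smul_right, h.1]; ring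
  · rw [F.q_smul, h.2.1]; ring

theorem ee_smul {H : Subgroup F.G} {t a : X} {l : K} (hl : l ≠ 0)
    (h : ∀ ν : K, F.El (ν • B.e t) (l • B.e a) 0 ∈ H) (μ : K) :
    F.El (B.e t) (μ • B.e a) 0 ∈ H := by
  by_cases hμ : μ = 0
  · rw [hμ, zero_smul, El_one]; exact H.one_mem
  · have h1 := h (F.σ (μ * l⁻¹))
    have h2 : F.σ (μ * l⁻¹) ≠ 0 := fun h0 => by
      rw [F.σ_eq_zero] at h0
      exact (mul_ne_zero hμ (inv_ne_zero hl)) h0
    rw [El_smul h2, F.σσ, smul_smul, mul_zero, mul_assoc, inv_mul_cancel₀ hl, mul_one] at h1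
    exact h1

theorem ff_smul {H : Subgroup F.G} {t a : X} {l : K} (hl : l ≠ 0)
    (h : ∀ ν : K, F.El (ν • B.f t) (l • B.f a) 0 ∈ H) (μ : K) :
    F.El (B.f t) (μ • B.f a) 0 ∈ H := by
  by_cases hμ : μ = 0
  · rw [hμ, zero_smul, El_one]; exact H.one_mem
  · have h1 := h (F.σ (μ * l⁻¹))
    have h2 : F.σ (μ * l⁻¹) ≠ 0 := fun h0 => by
      rw [F.σ_eq_zero] at h0
      exact (mul_ne_zero hμ (inv_ne_zero hl)) h0
    rw [El_smul h2, F.σσ, smul_smul, mul_zero, mul_assoc, inv_mul_cancel₀ hl, mul_one] at h1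
    exact h1

/-- the element used for stripping -/
theorem x_e {t a : X} (hta : t ≠ a) (ν : K) :
    (F.El (B.e t) ((-F.ε * F.σ ν) • B.f a) 0).1 (B.e a) = B.e a + ν • B.e t := by
  rw [El_ap (adm_ef hta _), B.hee, F.h_smul_right, B.hef, if_pos rfl, map_mul, map_neg, F.σε,
    F.σσ]
  have : F.ε * (-F.ε * ν * 1) = -ν := by linear_combination (-ν) * F.ε2
  rw [this]
  module

theorem x_f {t a : X} (hta : a ≠ t) (ν : K) :
    (F.El (B.e a) ((F.ε * ν) • B.f t) 0).1 (B.f a) = B.f a + ν • B.f t := by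
  rw [El_ap (adm_ef hta _), B.hfe, if_pos rfl, F.h_smul_right, B.hff]
  have : F.ε • (F.ε * ν) • B.f t = ν • B.f t := by
    rw [smul_smul, ← mul_assoc, F.ε2, one_mul]
  rw [this]
  module

/-- stripping with the vectors `e` -/
theorem strip_e {H : Subgroup F.G}
    (hef : ∀ p q, p ≠ q → ∀ μ : K, F.El (B.e p) (μ • B.f q) 0 ∈ H) {a a' t : X} (haa : a' ≠ a)
    (hta : t ≠ a) {w : V} {s : K} (h1 : F.Adm (B.e a) w s) (h2 : F.Adm (B.e t) w s)
    (hwa : F.h w (B.f a) = 0)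
    (hZ : F.El (B.e a) w s * (F.El (B.e a') w s)⁻¹ ∈ H) (ν : K) :
    F.El (ν • B.e t) (s • B.e a) 0 * F.El (ν • B.e t) w s ∈ H := by
  set x := F.El (B.e t) ((-F.ε * F.σ ν) • B.f a) 0 with hx
  have hxH : x ∈ H := hef t a hta _
  have x1 : x.1 (B.e a) = B.e a + ν • B.e t := x_e hta ν
  have x2 : x.1 w = w := by
    apply El_fix
    · exact F.h_symm_zero h2.2.2.1
    · rw [F.h_smul_right, hwa, mul_zero]
  have x3 : x.1 (B.e a') = B.e a' := by
    apply El_fix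
    · exact B.hee _ _
    · rw [F.h_smul_right, B.hef, if_neg haa, mul_zero]
  have e1 : x * F.El (B.e a) w s * x⁻¹ = F.El (ν • B.e t) (s • B.e a) 0 *
      F.El (ν • B.e t) w s * F.El (B.e a) w s := by
    rw [El_conj, x1, x2]
    apply El_add_left h1
    · exact adm_smul h2 (fun c => by rw [F.h_smul, h2.2.2.1, mul_zero]) ν
    · rw [F.h_smul_right, B.hee, mul_zero]
  have e2 : x * F.El (B.e a') w s * x⁻¹ = F.El (B.e a') w s := by
    rw [El_conj, x3, x2]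
  have e3 : F.El (ν • B.e t) (s • B.e a) 0 * F.El (ν • B.e t) w s =
      x * (F.El (B.e a) w s * (F.El (B.e a') w s)⁻¹) * x⁻¹ *
        (F.El (B.e a) w s * (F.El (B.e a') w s)⁻¹)⁻¹ := by
    have : x * (F.El (B.e a) w s * (F.El (B.e a') w s)⁻¹) * x⁻¹ =
        (x * F.El (B.e a) w s * x⁻¹) * (x * F.El (B.e a') w s * x⁻¹)⁻¹ := by group
    rw [this, e1, e2]
    group
  rw [e3]
  exact H.mul_mem (H.mul_mem (H.mul_mem hxH hZ) (H.inv_mem hxH)) (H.inv_mem hZ)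

/-- stripping with the vectors `f` -/
theorem strip_f {H : Subgroup F.G}
    (hef : ∀ p q, p ≠ q → ∀ μ : K, F.El (B.e p) (μ • B.f q) 0 ∈ H) {a a' t b b' : X}
    (haa : a' ≠ a) (hta : a ≠ t) (hba : b ≠ a) (hb'a : b' ≠ a) {l : K}
    (hZ : F.El (B.f a) (l • B.f b) 0 * (F.El (B.f a') (l • B.f b') 0)⁻¹ ∈ H) (ν : K) :
    F.El (ν • B.f t) (l • B.f b) 0 ∈ H := by
  set x := F.El (B.e a) ((F.ε * ν) • B.f t) 0 with hx
  have hxH : x ∈ H := hef a t hta _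
  have x1 : x.1 (B.f a) = B.f a + ν • B.f t := x_f hta ν
  have x2 : ∀ y, y ≠ a → x.1 (B.f y) = B.f y := by
    intro y hy
    apply El_fix
    · rw [B.hfe, if_neg hy]
    · rw [F.h_smul_right, B.hff, mul_zero]
  have e1 : x * F.El (B.f a) (l • B.f b) 0 * x⁻¹ = F.El (ν • B.f t) (l • B.f b) 0 *
      F.El (B.f a) (l • B.f b) 0 := by
    rw [El_conj, x1, map_smul, x2 b hba, El_add_left (adm_ff a b l)
      (adm_smul (adm_ff t b l) (fun c => by rw [F.h_smul, F.h_smul_right, B.hff]; ring) ν)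
      (by rw [F.h_smul_right, B.hff, mul_zero]), zero_smul, El_one, one_mul]
  have e2 : x * F.El (B.f a') (l • B.f b') 0 * x⁻¹ = F.El (B.f a') (l • B.f b') 0 := by
    rw [El_conj, map_smul, x2 a' haa, x2 b' hb'a]
  have e3 : F.El (ν • B.f t) (l • B.f b) 0 =
      x * (F.El (B.f a) (l • B.f b) 0 * (F.El (B.f a') (l • B.f b') 0)⁻¹) * x⁻¹ *
        (F.El (B.f a) (l • B.f b) 0 * (F.El (B.f a') (l • B.f b') 0)⁻¹)⁻¹ := by
    have : x * (F.El (B.f a) (l • B.f b) 0 * (F.El (B.f a') (l • B.f b') 0)⁻¹) * x⁻¹ =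
        (x * F.El (B.f a) (l • B.f b) 0 * x⁻¹) *
          (x * F.El (B.f a') (l • B.f b') 0 * x⁻¹)⁻¹ := by group
    rw [this, e1, e2]
    group
  rw [e3]
  exact H.mul_mem (H.mul_mem (H.mul_mem hxH hZ) (H.inv_mem hxH)) (H.inv_mem hZ)

end basic

section ratio

variable {D} {H : Subgroup F.G}
  (hX : 30 ≤ Fintype.card X)
  (hC : ∀ i i' : Fin 9 → X, Function.Injective (Sum.elim i i') → D.C i i' ∈ H)

include hX hC in
theorem ratio (i j : Fin 9 → X) (hi : Function.Injective i) (hj : Function.Injective j) :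
    D.g i * (D.g j)⁻¹ ∈ H := by
  obtain ⟨x, hx, hxS⟩ := exists_fresh (X := X) 9 (Finset.univ.image i ∪ Finset.univ.image j) (by
    have h1 : (Finset.univ.image i ∪ Finset.univ.image j).card ≤ 9 + 9 := by
      refine (Finset.card_union_le _ _).trans (Nat.add_le_add ?_ ?_)
      · exact Finset.card_image_le.trans (by simp)
      · exact Finset.card_image_le.trans (by simp)
    omega)
  have h1 : Function.Injective (Sum.elim i x) := by
    refine hi.sumElim hx ?_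
    intro a b hab
    exact hxS b (Finset.mem_union_left _ (by rw [← hab]; simp))
  have h2 : Function.Injective (Sum.elim j x) := by
    refine hj.sumElim hx ?_
    intro a b hab
    exact hxS b (Finset.mem_union_right _ (by rw [← hab]; simp))
  have h3 := H.mul_mem (hC i x h1) (H.inv_mem (hC j x h2))
  have : D.C i x * (D.C j x)⁻¹ = D.g i * (D.g j)⁻¹ := by
    unfold Seed.C; group
  rwa [this] at h3

theorem inj9 {x : Fin 7 → X} (hx : Function.Injective x) {p q : X} (hpq : p ≠ q)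
    (hp : ∀ k, x k ≠ p) (hq : ∀ k, x k ≠ q) (σ : Fin 9 ≃ Fin 9) :
    Function.Injective ((![p, q, x 0, x 1, x 2, x 3, x 4, x 5, x 6] : Fin 9 → X) ∘ σ) := by
  refine Function.Injective.comp ?_ σ.injective
  have e : (![p, q, x 0, x 1, x 2, x 3, x 4, x 5, x 6] : Fin 9 → X) =
      Fin.cons p (Fin.cons q x) := by
    ext k; fin_cases k <;> rfl
  rw [e, Fin.cons_injective_iff, Fin.cons_injective_iff]
  refine ⟨?_, ?_, hx⟩
  · rintro ⟨k, hk⟩
    induction k using Fin.cases with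
    | zero => exact hpq hk.symm
    | succ k => exact hp k hk
  · rintro ⟨k, hk⟩
    exact hq k hk

include hX hC in
theorem ratioA {p q p' q' : X} (h1 : p ≠ q) (h2 : p' ≠ q') :
    D.A p q * (D.A p' q')⁻¹ ∈ H := by
  obtain ⟨x, hx, hxS⟩ := exists_fresh (X := X) 7 ({p, q, p', q'} : Finset X) (by
    have := Finset.card_le_four (a := p) (b := q) (c := p') (d := q')
    omega)
  simp only [Finset.mem_insert, Finset.mem_singleton, not_or] at hxS
  have h3 := ratio hX hC _ _ (inj9 hx h1 (fun k => (hxS k).1) (fun k => (hxS k).2.1) (Equiv.refl _))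
    (inj9 hx h2 (fun k => (hxS k).2.2.1) (fun k => (hxS k).2.2.2) (Equiv.refl _))
  have e1 : D.g ((![p, q, x 0, x 1, x 2, x 3, x 4, x 5, x 6] : Fin 9 → X) ∘ (Equiv.refl _)) =
    D.A p q * D.Be (x 0) (x 1) * D.Bf (x 2) (x 3) * D.S (x 4) * D.W1 (x 5) * D.W2 (x 6) := rfl
  have e2 : D.g ((![p', q', x 0, x 1, x 2, x 3, x 4, x 5, x 6] : Fin 9 → X) ∘ (Equiv.refl _)) =
    D.A p' q' * D.Be (x 0) (x 1) * D.Bf (x 2) (x 3) * D.S (x 4) * D.W1 (x 5) * D.W2 (x 6) := rfl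
  rw [e1, e2] at h3
  have e3 : D.A p q * (D.A p' q')⁻¹ = D.A p q * D.Be (x 0) (x 1) * D.Bf (x 2) (x 3) *
    D.S (x 4) * D.W1 (x 5) * D.W2 (x 6) * (D.A p' q' * D.Be (x 0) (x 1) * D.Bf (x 2) (x 3) *
    D.S (x 4) * D.W1 (x 5) * D.W2 (x 6))⁻¹ := by group
  rw [e3]
  exact h3

include hX hC in
theorem ratioBe (hA : ∀ p q, p ≠ q → D.A p q ∈ H) {p q p' q' : X} (h1 : p ≠ q) (h2 : p' ≠ q') :
    D.Be p q * (D.Be p' q')⁻¹ ∈ H := by
  obtain ⟨x, hx, hxS⟩ := exists_fresh (X := X) 7 ({p, q, p', q'} : Finset X) (by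
    have := Finset.card_le_four (a := p) (b := q) (c := p') (d := q')
    omega)
  simp only [Finset.mem_insert, Finset.mem_singleton, not_or] at hxS
  set σ : Fin 9 ≃ Fin 9 := Equiv.swap 0 2 * Equiv.swap 1 3 with hσ
  have h3 := ratio hX hC _ _ (inj9 hx h1 (fun k => (hxS k).1) (fun k => (hxS k).2.1) σ)
    (inj9 hx h2 (fun k => (hxS k).2.2.1) (fun k => (hxS k).2.2.2) σ)
  have e1 : D.g ((![p, q, x 0, x 1, x 2, x 3, x 4, x 5, x 6] : Fin 9 → X) ∘ σ) =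
    D.A (x 0) (x 1) * D.Be p q * D.Bf (x 2) (x 3) * D.S (x 4) * D.W1 (x 5) * D.W2 (x 6) := rfl
  have e2 : D.g ((![p', q', x 0, x 1, x 2, x 3, x 4, x 5, x 6] : Fin 9 → X) ∘ σ) =
    D.A (x 0) (x 1) * D.Be p' q' * D.Bf (x 2) (x 3) * D.S (x 4) * D.W1 (x 5) * D.W2 (x 6) := rfl
  rw [e1, e2] at h3
  have hp := hA (x 0) (x 1) (fun h => by simpa using hx h)
  have e3 : D.Be p q * (D.Be p' q')⁻¹ = (D.A (x 0) (x 1))⁻¹ *
    (D.A (x 0) (x 1) * D.Be p q * D.Bf (x 2) (x 3) *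
    D.S (x 4) * D.W1 (x 5) * D.W2 (x 6) * (D.A (x 0) (x 1) * D.Be p' q' * D.Bf (x 2) (x 3) *
    D.S (x 4) * D.W1 (x 5) * D.W2 (x 6))⁻¹) * D.A (x 0) (x 1) := by group
  rw [e3]
  exact H.mul_mem (H.mul_mem (H.inv_mem hp) h3) hp

include hX hC in
theorem ratioBf (hA : ∀ p q, p ≠ q → D.A p q ∈ H) (hB : ∀ p q, p ≠ q → D.Be p q ∈ H)
    {p q p' q' : X} (h1 : p ≠ q) (h2 : p' ≠ q') : D.Bf p q * (D.Bf p' q')⁻¹ ∈ H := by
  obtain ⟨x, hx, hxS⟩ := exists_fresh (X := X) 7 ({p, q, p', q'} : Finset X) (by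
    have := Finset.card_le_four (a := p) (b := q) (c := p') (d := q')
    omega)
  simp only [Finset.mem_insert, Finset.mem_singleton, not_or] at hxS
  set σ : Fin 9 ≃ Fin 9 := Equiv.swap 0 4 * Equiv.swap 1 5 with hσ
  have h3 := ratio hX hC _ _ (inj9 hx h1 (fun k => (hxS k).1) (fun k => (hxS k).2.1) σ)
    (inj9 hx h2 (fun k => (hxS k).2.2.1) (fun k => (hxS k).2.2.2) σ)
  have e1 : D.g ((![p, q, x 0, x 1, x 2, x 3, x 4, x 5, x 6] : Fin 9 → X) ∘ σ) =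
    D.A (x 2) (x 3) * D.Be (x 0) (x 1) * D.Bf p q * D.S (x 4) * D.W1 (x 5) * D.W2 (x 6) := rfl
  have e2 : D.g ((![p', q', x 0, x 1, x 2, x 3, x 4, x 5, x 6] : Fin 9 → X) ∘ σ) =
    D.A (x 2) (x 3) * D.Be (x 0) (x 1) * D.Bf p' q' * D.S (x 4) * D.W1 (x 5) * D.W2 (x 6) := rfl
  rw [e1, e2] at h3
  have hp := H.mul_mem (hA (x 2) (x 3) (fun h => by simpa using hx h))
    (hB (x 0) (x 1) (fun h => by simpa using hx h))
  have e3 : D.Bf p q * (D.Bf p' q')⁻¹ = (D.A (x 2) (x 3) * D.Be (x 0) (x 1))⁻¹ *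
    (D.A (x 2) (x 3) * D.Be (x 0) (x 1) * D.Bf p q *
    D.S (x 4) * D.W1 (x 5) * D.W2 (x 6) * (D.A (x 2) (x 3) * D.Be (x 0) (x 1) * D.Bf p' q' *
    D.S (x 4) * D.W1 (x 5) * D.W2 (x 6))⁻¹) * (D.A (x 2) (x 3) * D.Be (x 0) (x 1)) := by group
  rw [e3]
  exact H.mul_mem (H.mul_mem (H.inv_mem hp) h3) hp

include hX hC in
theorem ratioS (hA : ∀ p q, p ≠ q → D.A p q ∈ H) (hB : ∀ p q, p ≠ q → D.Be p q ∈ H)
    (hB' : ∀ p q, p ≠ q → D.Bf p q ∈ H) (p p' : X) : D.S p * (D.S p')⁻¹ ∈ H := by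
  obtain ⟨y, hy, hyS⟩ := exists_fresh (X := X) 8 ({p, p'} : Finset X) (by
    have := Finset.card_le_two (a := p) (b := p')
    omega)
  simp only [Finset.mem_insert, Finset.mem_singleton, not_or] at hyS
  set x : Fin 7 → X := fun k => y k.castSucc with hxd
  have hx : Function.Injective x := fun a b hab => Fin.castSucc_injective _ (hy hab)
  set q := y 7 with hq
  have hxq : ∀ k, x k ≠ q := by
    intro k hk
    have h1 := hy hk
    have h2 := congrArg Fin.val h1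
    simp at h2
    omega
  set σ : Fin 9 ≃ Fin 9 := Equiv.swap 0 6 with hσ
  have h3 := ratio hX hC _ _ (inj9 hx (p := p) (q := q) (Ne.symm (hyS 7).1) (fun k => (hyS _).1)
    hxq σ) (inj9 hx (p := p') (q := q) (Ne.symm (hyS 7).2) (fun k => (hyS _).2) hxq σ)
  have e1 : D.g ((![p, q, x 0, x 1, x 2, x 3, x 4, x 5, x 6] : Fin 9 → X) ∘ σ) =
    D.A (x 4) q * D.Be (x 0) (x 1) * D.Bf (x 2) (x 3) * D.S p * D.W1 (x 5) * D.W2 (x 6) := rfl
  have e2 : D.g ((![p', q, x 0, x 1, x 2, x 3, x 4, x 5, x 6] : Fin 9 → X) ∘ σ) =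
    D.A (x 4) q * D.Be (x 0) (x 1) * D.Bf (x 2) (x 3) * D.S p' * D.W1 (x 5) * D.W2 (x 6) := rfl
  rw [e1, e2] at h3
  have hp := H.mul_mem (H.mul_mem (hA (x 4) q (hxq 4))
    (hB (x 0) (x 1) (fun h => by simpa using hx h)))
    (hB' (x 2) (x 3) (fun h => by simpa using hx h))
  have e3 : D.S p * (D.S p')⁻¹ = (D.A (x 4) q * D.Be (x 0) (x 1) * D.Bf (x 2) (x 3))⁻¹ *
    (D.A (x 4) q * D.Be (x 0) (x 1) * D.Bf (x 2) (x 3) * D.S p * D.W1 (x 5) * D.W2 (x 6) *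
     (D.A (x 4) q * D.Be (x 0) (x 1) * D.Bf (x 2) (x 3) * D.S p' * D.W1 (x 5) * D.W2 (x 6))⁻¹) *
     (D.A (x 4) q * D.Be (x 0) (x 1) * D.Bf (x 2) (x 3)) := by group
  rw [e3]
  exact H.mul_mem (H.mul_mem (H.inv_mem hp) h3) hp

include hX hC in
theorem ratioW1 (hA : ∀ p q, p ≠ q → D.A p q ∈ H) (hB : ∀ p q, p ≠ q → D.Be p q ∈ H)
    (hB' : ∀ p q, p ≠ q → D.Bf p q ∈ H) (hS : ∀ p, D.S p ∈ H) (p p' : X) :
    D.W1 p * (D.W1 p')⁻¹ ∈ H := by
  obtain ⟨y, hy, hyS⟩ := exists_fresh (X := X) 8 ({p, p'} : Finset X) (by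
    have := Finset.card_le_two (a := p) (b := p')
    omega)
  simp only [Finset.mem_insert, Finset.mem_singleton, not_or] at hyS
  set x : Fin 7 → X := fun k => y k.castSucc with hxd
  have hx : Function.Injective x := fun a b hab => Fin.castSucc_injective _ (hy hab)
  set q := y 7 with hq
  have hxq : ∀ k, x k ≠ q := by
    intro k hk
    have h1 := hy hk
    have h2 := congrArg Fin.val h1
    simp at h2
    omega
  set σ : Fin 9 ≃ Fin 9 := Equiv.swap 0 7 with hσ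
  have h3 := ratio hX hC _ _ (inj9 hx (p := p) (q := q) (Ne.symm (hyS 7).1) (fun k => (hyS _).1)
    hxq σ) (inj9 hx (p := p') (q := q) (Ne.symm (hyS 7).2) (fun k => (hyS _).2) hxq σ)
  have e1 : D.g ((![p, q, x 0, x 1, x 2, x 3, x 4, x 5, x 6] : Fin 9 → X) ∘ σ) =
    D.A (x 5) q * D.Be (x 0) (x 1) * D.Bf (x 2) (x 3) * D.S (x 4) * D.W1 p * D.W2 (x 6) := rfl
  have e2 : D.g ((![p', q, x 0, x 1, x 2, x 3, x 4, x 5, x 6] : Fin 9 → X) ∘ σ) =
    D.A (x 5) q * D.Be (x 0) (x 1) * D.Bf (x 2) (x 3) * D.S (x 4) * D.W1 p' * D.W2 (x 6) := rfl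
  rw [e1, e2] at h3
  have hp := H.mul_mem (H.mul_mem (H.mul_mem (hA (x 5) q (hxq 5))
    (hB (x 0) (x 1) (fun h => by simpa using hx h)))
    (hB' (x 2) (x 3) (fun h => by simpa using hx h))) (hS (x 4))
  have e3 : D.W1 p * (D.W1 p')⁻¹ =
    (D.A (x 5) q * D.Be (x 0) (x 1) * D.Bf (x 2) (x 3) * D.S (x 4))⁻¹ *
    (D.A (x 5) q * D.Be (x 0) (x 1) * D.Bf (x 2) (x 3) * D.S (x 4) * D.W1 p * D.W2 (x 6) *
     (D.A (x 5) q * D.Be (x 0) (x 1) * D.Bf (x 2) (x 3) * D.S (x 4) * D.W1 p' * D.W2 (x 6))⁻¹) *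
     (D.A (x 5) q * D.Be (x 0) (x 1) * D.Bf (x 2) (x 3) * D.S (x 4)) := by group
  rw [e3]
  exact H.mul_mem (H.mul_mem (H.inv_mem hp) h3) hp

include hX hC in
theorem ratioW2 (hA : ∀ p q, p ≠ q → D.A p q ∈ H) (hB : ∀ p q, p ≠ q → D.Be p q ∈ H)
    (hB' : ∀ p q, p ≠ q → D.Bf p q ∈ H) (hS : ∀ p, D.S p ∈ H) (hW : ∀ p, D.W1 p ∈ H)
    (p p' : X) : D.W2 p * (D.W2 p')⁻¹ ∈ H := by
  obtain ⟨y, hy, hyS⟩ := exists_fresh (X := X) 8 ({p, p'} : Finset X) (by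
    have := Finset.card_le_two (a := p) (b := p')
    omega)
  simp only [Finset.mem_insert, Finset.mem_singleton, not_or] at hyS
  set x : Fin 7 → X := fun k => y k.castSucc with hxd
  have hx : Function.Injective x := fun a b hab => Fin.castSucc_injective _ (hy hab)
  set q := y 7 with hq
  have hxq : ∀ k, x k ≠ q := by
    intro k hk
    have h1 := hy hk
    have h2 := congrArg Fin.val h1
    simp at h2
    omega
  set σ : Fin 9 ≃ Fin 9 := Equiv.swap 0 8 with hσ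
  have h3 := ratio hX hC _ _ (inj9 hx (p := p) (q := q) (Ne.symm (hyS 7).1) (fun k => (hyS _).1)
    hxq σ) (inj9 hx (p := p') (q := q) (Ne.symm (hyS 7).2) (fun k => (hyS _).2) hxq σ)
  have e1 : D.g ((![p, q, x 0, x 1, x 2, x 3, x 4, x 5, x 6] : Fin 9 → X) ∘ σ) =
    D.A (x 6) q * D.Be (x 0) (x 1) * D.Bf (x 2) (x 3) * D.S (x 4) * D.W1 (x 5) * D.W2 p := rfl
  have e2 : D.g ((![p', q, x 0, x 1, x 2, x 3, x 4, x 5, x 6] : Fin 9 → X) ∘ σ) =
    D.A (x 6) q * D.Be (x 0) (x 1) * D.Bf (x 2) (x 3) * D.S (x 4) * D.W1 (x 5) * D.W2 p' := rfl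
  rw [e1, e2] at h3
  have hp := H.mul_mem (H.mul_mem (H.mul_mem (H.mul_mem (hA (x 6) q (hxq 6))
    (hB (x 0) (x 1) (fun h => by simpa using hx h)))
    (hB' (x 2) (x 3) (fun h => by simpa using hx h))) (hS (x 4))) (hW (x 5))
  have e3 : D.W2 p * (D.W2 p')⁻¹ =
    (D.A (x 6) q * D.Be (x 0) (x 1) * D.Bf (x 2) (x 3) * D.S (x 4) * D.W1 (x 5))⁻¹ *
    (D.A (x 6) q * D.Be (x 0) (x 1) * D.Bf (x 2) (x 3) * D.S (x 4) * D.W1 (x 5) * D.W2 p *
     (D.A (x 6) q * D.Be (x 0) (x 1) * D.Bf (x 2) (x 3) * D.S (x 4) * D.W1 (x 5) * D.W2 p')⁻¹) *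
     (D.A (x 6) q * D.Be (x 0) (x 1) * D.Bf (x 2) (x 3) * D.S (x 4) * D.W1 (x 5)) := by group
  rw [e3]
  exact H.mul_mem (H.mul_mem (H.inv_mem hp) h3) hp

end ratio

section ef

theorem comm_ef {p q t : X} (hpq : p ≠ q) (hqt : q ≠ t) (hpt : p ≠ t) (a b : K) :
    F.El (B.e p) (a • B.f q) 0 * F.El (B.e q) (b • B.f t) 0 * (F.El (B.e p) (a • B.f q) 0)⁻¹ *
      (F.El (B.e q) (b • B.f t) 0)⁻¹ = F.El (B.e p) ((-F.ε * a * b) • B.f t) 0 := by
  have h1 : (F.El (B.e p) (a • B.f q) 0).1 (B.e q) = B.e q + (-F.ε * F.σ a) • B.e p := by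
    rw [El_ap (adm_ef hpq _), B.hee, F.h_smul_right, B.hef, if_pos rfl]
    module
  have h2 : (F.El (B.e p) (a • B.f q) 0).1 (b • B.f t) = b • B.f t := by
    apply El_fix
    · rw [F.h_smul, B.hfe, if_neg hpt.symm, mul_zero]
    · rw [F.h_smul, F.h_smul_right, B.hff]; ring
  rw [El_conj, h1, h2, El_add_left (adm_ef hqt b)
    (adm_smul (adm_ef hpt b) (fun c => by
      rw [F.h_smul, F.h_smul_right, B.hef, if_neg hpt]; ring) _)
    (by rw [F.h_smul_right, B.hee, mul_zero]), zero_smul, El_one, one_mul,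
    mul_inv_cancel_right]
  by_cases ha : a = 0
  · rw [ha, map_zero, mul_zero, zero_smul, El_zero, zero_mul, zero_smul, El_one]
  · have h3 : -F.ε * F.σ a ≠ 0 :=
      mul_ne_zero (neg_ne_zero.2 F.ε_ne) (fun h => ha (F.σ_eq_zero.1 h))
    rw [El_smul h3, map_mul, map_neg, F.σε, F.σσ, mul_zero, smul_smul]

theorem A_comm {p q p' q' : X} (h1 : p ≠ q') (h2 : p' ≠ q) (a b : K) :
    Commute (F.El (B.e p) (a • B.f q) 0) (F.El (B.e p') (b • B.f q') 0) := by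
  apply El_comm
  · exact B.hee _ _
  · rw [F.h_smul_right, B.hef, if_neg h1, mul_zero]
  · rw [F.h_smul, B.hfe, if_neg h2.symm, mul_zero]
  · rw [F.h_smul, F.h_smul_right, B.hff]; ring

theorem comm_drop {G : Type*} [Group G] (a b z : G) (h1 : Commute a z) (h2 : Commute b z) :
    (a * z⁻¹) * (b * z⁻¹) * (a * z⁻¹)⁻¹ * (b * z⁻¹)⁻¹ = a * b * a⁻¹ * b⁻¹ := by
  have e1 : a * z⁻¹ = z⁻¹ * a := h1.inv_right.eq
  have e2 : b * z⁻¹ = z⁻¹ * b := h2.inv_right.eq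
  have e3 : (a * z⁻¹)⁻¹ = z * a⁻¹ := by group
  have e4 : (b * z⁻¹)⁻¹ = z * b⁻¹ := by group
  have e5 : a⁻¹ * z = z * a⁻¹ := (h1.inv_left).eq
  rw [e3, e4, e2]
  calc a * z⁻¹ * (z⁻¹ * b) * (z * a⁻¹) * (z * b⁻¹) =
      a * z⁻¹ * (z⁻¹ * b) * (z * (a⁻¹ * z)) * b⁻¹ := by group
    _ = a * z⁻¹ * (z⁻¹ * b * z) * (z * a⁻¹) * b⁻¹ := by rw [e5]; group
    _ = a * z⁻¹ * (b * z⁻¹ * z) * (z * a⁻¹) * b⁻¹ := by rw [e2]
    _ = a * (z⁻¹ * b) * z * a⁻¹ * b⁻¹ := by group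
    _ = a * (b * z⁻¹) * z * a⁻¹ * b⁻¹ := by rw [e2]
    _ = a * b * a⁻¹ * b⁻¹ := by group

theorem comm_drop' {G : Type*} [Group G] (a b z : G) (_ : Commute a z) (h2 : Commute b z) :
    (a * z⁻¹) * b * (a * z⁻¹)⁻¹ * b⁻¹ = a * b * a⁻¹ * b⁻¹ := by
  have e2 : z⁻¹ * b = b * z⁻¹ := h2.inv_right.eq.symm
  calc (a * z⁻¹) * b * (a * z⁻¹)⁻¹ * b⁻¹ = a * (z⁻¹ * b) * z * a⁻¹ * b⁻¹ := by group
    _ = a * (b * z⁻¹) * z * a⁻¹ * b⁻¹ := by rw [e2]
    _ = a * b * a⁻¹ * b⁻¹ := by group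

theorem eps_cases (F : Frm K V) : F.ε = 1 ∨ F.ε = -1 := by
  have := F.ε2
  have h : (F.ε - 1) * (F.ε + 1) = 0 := by linear_combination this
  rcases mul_eq_zero.1 h with h | h
  · left; linear_combination h
  · right; linear_combination h

variable {D} {H : Subgroup F.G}

theorem ef_all (hX : 30 ≤ Fintype.card X)
    (hr : ∀ p q p' q', p ≠ q → p' ≠ q' → D.A p q * (D.A p' q')⁻¹ ∈ H) :
    ∀ p q, p ≠ q → ∀ μ : K, F.El (B.e p) (μ • B.f q) 0 ∈ H := by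
  have hneg : ∀ c : K, (∀ p q, p ≠ q → F.El (B.e p) (c • B.f q) 0 ∈ H) →
      ∀ p q, p ≠ q → F.El (B.e p) ((-c) • B.f q) 0 ∈ H := by
    intro c hc p q hpq
    have := H.inv_mem (hc p q hpq)
    rw [El_inv (adm_ef hpq c), map_zero, mul_zero, ← neg_smul] at this
    exact this
  have heps : ∀ c : K, (∀ p q, p ≠ q → F.El (B.e p) ((-F.ε * c) • B.f q) 0 ∈ H) →
      ∀ p q, p ≠ q → F.El (B.e p) (c • B.f q) 0 ∈ H := by
    intro c hc
    rcases eps_cases F with h | h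
    · rw [h] at hc
      have := hneg _ hc
      simpa using this
    · rw [h] at hc
      simpa using hc
  have fresh : ∀ p t : X, p ≠ t → ∃ q p' q' : X, p ≠ q ∧ q ≠ t ∧ p' ≠ q' ∧ p ≠ q' ∧ p' ≠ q ∧
      q ≠ q' ∧ p' ≠ t := by
    intro p t _
    obtain ⟨x, hx, hxS⟩ := exists_fresh (X := X) 3 ({p, t} : Finset X) (by
      have := Finset.card_le_two (a := p) (b := t)
      omega)
    simp only [Finset.mem_insert, Finset.mem_singleton, not_or] at hxS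
    refine ⟨x 0, x 1, x 2, Ne.symm (hxS 0).1, (hxS 0).2, hx.ne (by decide), Ne.symm (hxS 2).1,
      hx.ne (by decide), hx.ne (by decide), (hxS 1).2⟩
  have h2 : ∀ p q, p ≠ q → F.El (B.e p) ((D.l * D.l) • B.f q) 0 ∈ H := by
    apply heps
    intro p t hpt
    obtain ⟨q, p', q', c1, c2, c3, c4, c5, c6, c7⟩ := fresh p t hpt
    have m1 := hr p q p' q' c1 c3
    have m2 := hr q t p' q' c2 c3
    unfold Seed.A at m1 m2
    have m3 := H.mul_mem (H.mul_mem (H.mul_mem m1 m2) (H.inv_mem m1)) (H.inv_mem m2)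
    rw [comm_drop _ _ _ (A_comm c4 c5 _ _) (A_comm c6 c7 _ _)] at m3
    rw [comm_ef c1 c2 hpt, mul_assoc] at m3
    exact m3
  have h3 : ∀ μ : K, (∀ p q, p ≠ q → F.El (B.e p) (μ • B.f q) 0 ∈ H) →
      ∀ p q, p ≠ q → F.El (B.e p) ((D.l * μ) • B.f q) 0 ∈ H := by
    intro μ hμ
    apply heps
    intro p t hpt
    obtain ⟨q, p', q', c1, c2, c3, c4, c5, c6, c7⟩ := fresh p t hpt
    have m1 := hr p q p' q' c1 c3
    have m2 := hμ q t c2
    unfold Seed.A at m1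
    have m3 := H.mul_mem (H.mul_mem (H.mul_mem m1 m2) (H.inv_mem m1)) (H.inv_mem m2)
    rw [comm_drop' _ _ _ (A_comm c4 c5 _ _) (A_comm c6 c7 _ _)] at m3
    rw [comm_ef c1 c2 hpt, mul_assoc] at m3
    exact m3
  have h4 : ∀ n : ℕ, ∀ p q, p ≠ q → F.El (B.e p) ((D.l ^ n * (D.l * D.l)) • B.f q) 0 ∈ H := by
    intro n
    induction n with
    | zero => simpa using h2
    | succ n ih =>
      have := h3 _ ih
      rw [← mul_assoc, ← pow_succ'] at this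
      exact this
  intro p q hpq μ
  by_cases hμ : μ = 0
  · rw [hμ, zero_smul, El_one]; exact H.one_mem
  · obtain ⟨n, hn⟩ := D.gen (μ * (D.l * D.l)⁻¹)
      (mul_ne_zero hμ (inv_ne_zero (mul_ne_zero D.hl D.hl)))
    have h5 := h4 n p q hpq
    rw [← hn, mul_assoc, inv_mul_cancel₀ (mul_ne_zero D.hl D.hl), mul_one] at h5
    exact h5

end ef

theorem roots_of_seed (hX : 30 ≤ Fintype.card X) (H : Subgroup F.G)
    (hC : ∀ i i' : Fin 9 → X, Function.Injective (Sum.elim i i') → D.C i i' ∈ H) :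
    Roots B H := by
  have hef := ef_all (D := D) hX (fun p q p' q' h h' => ratioA (D := D) hX hC h h')
  have hA : ∀ p q, p ≠ q → D.A p q ∈ H := fun p q h => hef p q h D.l
  have fresh : ∀ p t : X, ∃ y z : X, y ≠ p ∧ y ≠ t ∧ z ≠ p ∧ z ≠ t ∧ y ≠ z := by
    intro p t
    obtain ⟨x, hx, hxS⟩ := exists_fresh (X := X) 2 ({p, t} : Finset X) (by
      have := Finset.card_le_two (a := p) (b := t)
      omega)
    simp only [Finset.mem_insert, Finset.mem_singleton, not_or] at hxS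
    exact ⟨x 0, x 1, (hxS 0).1, (hxS 0).2, (hxS 1).1, (hxS 1).2, hx.ne (by decide)⟩
  -- ee
  have hee : ∀ p q, p ≠ q → ∀ μ : K, F.El (B.e p) (μ • B.e q) 0 ∈ H := by
    intro t b htb
    apply ee_smul D.hl
    intro ν
    obtain ⟨a, a', c1, c2, c3, c4, c5⟩ := fresh t b
    have hZ := ratioBe (D := D) hX hC hA (p := a) (q := b) (p' := a') (q' := b) c2 c4
    have := strip_e hef (a := a) (a' := a') (t := t) (Ne.symm c5) (Ne.symm c1) (adm_ee a b D.l)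
      (adm_ee t b D.l) (by rw [F.h_smul, B.hef, if_neg (Ne.symm c2), mul_zero]) hZ ν
    rw [zero_smul, El_one, one_mul] at this
    exact this
  have hBe : ∀ p q, p ≠ q → D.Be p q ∈ H := fun p q h => hee p q h D.l
  -- ff
  have hff : ∀ p q, p ≠ q → ∀ μ : K, F.El (B.f p) (μ • B.f q) 0 ∈ H := by
    intro t b htb
    apply ff_smul D.hl
    intro ν
    obtain ⟨a, a', c1, c2, c3, c4, c5⟩ := fresh t b
    have hZ := ratioBf (D := D) hX hC hA hBe (p := a) (q := b) (p' := a') (q' := b) c2 c4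
    exact strip_f hef (a := a) (a' := a') (t := t) (b := b) (b' := b) (Ne.symm c5) c1
      (Ne.symm c2) (Ne.symm c2) hZ ν
  have hBf : ∀ p q, p ≠ q → D.Bf p q ∈ H := fun p q h => hff p q h D.l
  -- the vectors ν e t, s e a
  have hee' : ∀ t a, t ≠ a → ∀ ν s : K, F.El (ν • B.e t) (s • B.e a) 0 ∈ H := by
    intro t a hta ν s
    by_cases hν : ν = 0
    · rw [hν, zero_smul, El_zero]; exact H.one_mem
    · rw [El_smul hν, smul_smul, mul_zero]
      exact hee t a hta _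
  -- S
  have hSν : ∀ t, ∀ ν : K, F.El (ν • B.e t) 0 D.s0 ∈ H := by
    intro t ν
    obtain ⟨a, a', c1, c2, c3, c4, c5⟩ := fresh t t
    have hZ := ratioS (D := D) hX hC hA hBe hBf a a'
    have := strip_e hef (a := a) (a' := a') (t := t) (Ne.symm c5) (Ne.symm c1) (D.a0 a) (D.a0 t)
      (by simp) hZ ν
    exact (Subgroup.mul_mem_cancel_left H (hee' t a (Ne.symm c1) ν D.s0)).1 this
  have hS : ∀ p, D.S p ∈ H := by
    intro p
    have := hSν p 1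
    rwa [one_smul] at this
  -- W1
  have hW1ν : ∀ t, ∀ ν : K, F.El (ν • B.e t) (B.v 0) D.s1 ∈ H := by
    intro t ν
    obtain ⟨a, a', c1, c2, c3, c4, c5⟩ := fresh t t
    have hZ := ratioW1 (D := D) hX hC hA hBe hBf hS a a'
    have := strip_e hef (a := a) (a' := a') (t := t) (Ne.symm c5) (Ne.symm c1) (D.a1 a) (D.a1 t)
      (B.hvf 0 a) hZ ν
    exact (Subgroup.mul_mem_cancel_left H (hee' t a (Ne.symm c1) ν D.s1)).1 this
  have hW1 : ∀ p, D.W1 p ∈ H := by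
    intro p
    have := hW1ν p 1
    rwa [one_smul] at this
  -- W2
  have hW2ν : ∀ t, ∀ ν : K, F.El (ν • B.e t) (B.v 1) D.s2 ∈ H := by
    intro t ν
    obtain ⟨a, a', c1, c2, c3, c4, c5⟩ := fresh t t
    have hZ := ratioW2 (D := D) hX hC hA hBe hBf hS hW1 a a'
    have := strip_e hef (a := a) (a' := a') (t := t) (Ne.symm c5) (Ne.symm c1) (D.a2 a) (D.a2 t)
      (B.hvf 1 a) hZ ν
    exact (Subgroup.mul_mem_cancel_left H (hee' t a (Ne.symm c1) ν D.s2)).1 this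
  have hew : ∀ p (i : Fin 2) (s : K), F.Adm (B.e p) (B.v i) s →
      (∀ ν : K, F.El (ν • B.e p) (B.v i) s ∈ H) → ∀ a : K,
      ∃ s', F.Adm (B.e p) (a • B.v i) s' ∧ F.El (B.e p) (a • B.v i) s' ∈ H := by
    intro p i s hadm hν a
    by_cases ha : a = 0
    · refine ⟨0, ?_, ?_⟩
      · rw [ha, zero_smul]; exact Adm_one hadm
      · rw [ha, zero_smul, El_one]; exact H.one_mem
    · have h1 : F.σ a ≠ 0 := fun h => ha (F.σ_eq_zero.1 h)
      have h2 := hν (F.σ a)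
      rw [El_smul h1, F.σσ] at h2
      refine ⟨_, ?_, h2⟩
      obtain ⟨a1, a2, a3, a4, a5⟩ := hadm
      refine ⟨a1, a2, by rw [F.h_smul_right, a3, mul_zero], ?_, ?_⟩
      · rw [F.h_smul, F.h_smul_right, map_mul, map_mul, F.σσ]
        linear_combination (a * F.σ a) * a4
      · rw [F.q_smul]
        linear_combination (a * F.σ a) * a5
  refine ⟨hef, hee, hff, ?_, ?_⟩
  · intro p s hs
    have hs1 : F.ε * s + F.σ s = 0 := by
      have := hs.2.2.2.1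
      rwa [F.h_zero_left, add_zero] at this
    have hs2 : F.κ * s = 0 := by
      have := hs.2.2.2.2
      rwa [F.q_zero, add_zero] at this
    rcases D.pure s hs1 hs2 with ⟨c, hc⟩ | ⟨ν, hν⟩
    · obtain ⟨q, -, c1, -, -, -, -⟩ := fresh p p
      have a1 := adm_ef (B := B) (Ne.symm c1) (1 : K)
      have a2 := adm_ee (B := B) p q c
      have m1 := H.mul_mem (hef p q (Ne.symm c1) 1) (hee p q (Ne.symm c1) c)
      have m2 := H.mul_mem (hee p q (Ne.symm c1) c) (hef p q (Ne.symm c1) 1)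
      have e1 := El_mul a1 a2
      have e2 := El_mul a2 a1
      have b2 := Adm_mul a2 a1
      rw [add_comm (c • B.e q)] at e2 b2
      have e3 := El_mul b2 hs
      have e4 : (0 : K) + 0 - F.ε * F.h ((1 : K) • B.f q) (c • B.e q) + s - F.ε * F.h 0
          ((1 : K) • B.f q + c • B.e q) = 0 + 0 - F.ε * F.h (c • B.e q) ((1 : K) • B.f q) := by
        rw [F.h_zero_left, one_smul, F.h_smul_right, F.h_smul, B.hfe, if_pos rfl,
          B.hef, if_pos rfl, hc]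
        linear_combination (-F.σ c) * F.ε2
      rw [e1] at m1
      rw [e2] at m2
      rw [e4, add_zero ((1 : K) • B.f q + c • B.e q)] at e3
      have e5 : F.El (B.e p) 0 s = (F.El (B.e p) ((1 : K) • B.f q + c • B.e q)
          (0 + 0 - F.ε * F.h ((1 : K) • B.f q) (c • B.e q)))⁻¹ *
          F.El (B.e p) ((1 : K) • B.f q + c • B.e q)
          (0 + 0 - F.ε * F.h (c • B.e q) ((1 : K) • B.f q)) := by
        rw [← e3]; group
      rw [e5]
      exact H.mul_mem (H.inv_mem m2) m1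
    · by_cases hν0 : ν = 0
      · rw [hν, hν0, zero_mul, zero_mul, El_one]; exact H.one_mem
      · have := hSν p ν
        rw [El_smul hν0, smul_zero, ← hν] at this
        exact this
  · intro p i a
    fin_cases i
    · exact hew p 0 D.s1 (D.a1 p) (hW1ν p) a
    · exact hew p 1 D.s2 (D.a2 p) (hW2ν p) a

end H47Cl
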