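import Mathlib
import Pool.Agent.H.MP_0335f8_cl.Form

/-!
# The parameters of the long root elements (module Pure)
-/

namespace H47Cl

/-- Existence of the seed parameter `s0`.

Proof.  If `κ = 1` take `s0 = 0` and `c = 0` (then `κ * s = 0` gives `s = 0`).  Let `κ = 0`.
If there is `a` with `t = a + σ a ≠ 0`, take `s0 = 0`: then `σ t = t`; for `s` with
`ε s + σ s = 0` put `a' = -ε a / t` (so `a' + σ a' = -ε`) and `c = a' s`; as
`σ s = -ε s`, `σ c - ε c = -ε s (σ a' + a') = ε ε s = s`.
Otherwise `a + σ a = 0` for all `a`; with `a = 1` the characteristic is two, so `σ a = a` for all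
`a`, `ε ^ 2 = 1` gives `ε = 1`; take `s0 = 1`; every `s` is a square `ν ^ 2 = ν * σ ν * s0`
(`frobenius` is surjective on a finite field of characteristic two; e.g.
`FiniteField.isSquare_of_char_two`). -/
theorem exists_s0 {K V : Type*} [Field K] [Finite K] [AddCommGroup V] [Module K V]
    (F : Frm K V) : ∃ s0 : K, F.ε * s0 + F.σ s0 = 0 ∧ F.κ * s0 = 0 ∧
      ∀ s, F.ε * s + F.σ s = 0 → F.κ * s = 0 →
        (∃ c, s = F.σ c - F.ε * c) ∨ (∃ ν, s = ν * F.σ ν * s0) := by
  rcases F.hκ with ⟨hκ, -⟩ | ⟨hκ, -, -⟩
  · by_cases hex : ∃ a, a + F.σ a ≠ 0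
    · obtain ⟨a, ha⟩ := hex
      refine ⟨0, by simp, by simp, fun s hs _ => Or.inl ?_⟩
      have hσs : F.σ s = -(F.ε * s) := eq_neg_of_add_eq_zero_right hs
      have ht : F.σ (a + F.σ a) = a + F.σ a := by
        rw [map_add, F.σσ, add_comm]
      refine ⟨-F.ε * a / (a + F.σ a) * s, ?_⟩
      rw [map_mul, map_div₀, map_mul, map_neg, F.σε, ht, hσs]
      have h2 := F.ε2
      field_simp
      linear_combination (-(a + F.σ a) * s) * h2
    · have hall : ∀ a, a + F.σ a = 0 := by
        intro a
        by_contra hne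
        exact hex ⟨a, hne⟩
      have h11 : (1 : K) + 1 = 0 := by
        have := hall 1
        rwa [map_one] at this
      have h2 : (2 : K) = 0 := by
        rw [← h11]
        norm_num
      have hσ : ∀ a, F.σ a = a := by
        intro a
        have := hall a
        linear_combination this - a * h2
      have hε : F.ε = 1 := by
        have h := F.ε2
        have h3 : (F.ε - 1) * (F.ε - 1) = 0 := by
          linear_combination h + (1 - F.ε) * h2
        exact sub_eq_zero.1 (mul_self_eq_zero.1 h3)
      refine ⟨1, ?_, by rw [hκ, zero_mul], fun s _ _ => Or.inr ?_⟩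
      · rw [hε, map_one, one_mul]
        exact h11
      · have hch : ringChar K = 2 := by
          have hdvd : ringChar K ∣ 2 := (ringChar.spec K 2).1 (by exact_mod_cast h2)
          rcases (Nat.dvd_prime Nat.prime_two).1 hdvd with h1 | h1
          · exact absurd h1 (CharP.ringChar_ne_one)
          · exact h1
        obtain ⟨ν, hν⟩ := FiniteField.isSquare_of_char_two hch s
        exact ⟨ν, by rw [hσ, mul_one]; exact hν⟩
  · refine ⟨0, by simp, by simp, fun s _ hs => Or.inl ⟨0, ?_⟩⟩
    rw [hκ, one_mul] at hs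
    rw [hs]
    simp

end H47Cl
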