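import Mathlib

/-!
# The group theoretic engine (module Engine)
-/

namespace H47Cl

open Equiv

/-- The engine.

Proof.  Write `d = P (π * α)` and `γ = g * P π * g⁻¹`, so `C = γ * P π` (as `P π` is an
involution) and `γ * P α = C * P π * P π * P α * ...`; precisely `γ * P α = C * d` because
`C * P π * P α = g * P π * g⁻¹ * P π * P π * P α = γ * P α`.
`C` commutes with `d`: `g` commutes with `d` by hypothesis, and
`C = g * (P π * g⁻¹ * P π)`, where `P π * g⁻¹ * P π` commutes with
`P π * d * P π = P (α * π) = d⁻¹`, hence with `d`.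
So `(γ * P α) ^ N = C ^ N * d ^ N = C ^ N`, which lies in the left hand side `L`.
`C ^ (p ^ k) = 1` and `N` is coprime to `p`, so `C` is a power of `C ^ N`: `C ∈ L`
(e.g. `Nat.Coprime` of `N` and `orderOf C`, `exists_pow_eq_self_of_coprime`).
So `d = C⁻¹ * (γ * P α) ∈ L`, `P π = d * P α ∈ L` and `L` contains `P α, P β, P π`, hence
`P '' alternatingGroup X` (map of the closure), and `C`.
Conversely `γ = C * P π` lies in the right hand side, as do `P α`, `P β`
(elements of `closure {α, β, π} = alternatingGroup X`). -/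
theorem engine {G : Type*} [Group G] {X : Type*} [Fintype X] [DecidableEq X] (P : Perm X →* G)
    (α β π : Perm X) (hα : α * α = 1) (hπ : π * π = 1)
    (hgen : Subgroup.closure {α, β, π} = alternatingGroup X) (N p k : ℕ)
    (hN : (π * α) ^ N = 1) (hcop : N.Coprime p) (g C : G) (hg : Commute g (P (π * α)))
    (hC : C = g * P π * g⁻¹ * P π) (hCp : C ^ (p ^ k) = 1) :
    Subgroup.closure {P α, P β, g * P π * g⁻¹} =
      Subgroup.closure (P '' (alternatingGroup X : Set (Perm X)) ∪ {C}) := by
  have hPπ : P π * P π = 1 := by rw [← map_mul, hπ, map_one]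
  have hPα : P α * P α = 1 := by rw [← map_mul, hα, map_one]
  -- the element d
  set d : G := P (π * α) with hd
  have hdN : d ^ N = 1 := by rw [hd, ← map_pow, hN, map_one]
  have hdinv : P π * d * P π = d⁻¹ := by
    rw [eq_inv_iff_mul_eq_one, hd, map_mul]
    calc P π * (P π * P α) * P π * (P π * P α)
        = (P π * P π) * P α * (P π * P π) * P α := by group
      _ = 1 := by rw [hPπ, one_mul, mul_one, hPα]
  have hPπinv : (P π)⁻¹ = P π := inv_eq_of_mul_eq_one_left hPπ
  -- C commutes with d
  have h2 : Commute (P π * g⁻¹ * P π) d := by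
    have h3 : Commute g⁻¹ d⁻¹ := (hg.inv_left).inv_right
    have h4 : P π * g⁻¹ * P π * d = d * (P π * g⁻¹ * P π) := by
      have h5 : d = P π * d⁻¹ * P π := by
        rw [← hdinv]
        calc d = (P π * P π) * d * (P π * P π) := by rw [hPπ, one_mul, mul_one]
          _ = P π * (P π * d * P π) * P π := by group
      calc P π * g⁻¹ * P π * d = P π * g⁻¹ * P π * (P π * d⁻¹ * P π) := by rw [← h5]
        _ = P π * g⁻¹ * (P π * P π) * d⁻¹ * P π := by group
        _ = P π * (g⁻¹ * d⁻¹) * P π := by rw [hPπ]; group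
        _ = P π * (d⁻¹ * g⁻¹) * P π := by rw [h3.eq]
        _ = P π * d⁻¹ * (P π * P π) * g⁻¹ * P π := by rw [hPπ]; group
        _ = (P π * d⁻¹ * P π) * (P π * g⁻¹ * P π) := by group
        _ = d * (P π * g⁻¹ * P π) := by rw [← h5]
    exact h4
  have hCd : Commute C d := by
    have h6 : C = g * (P π * g⁻¹ * P π) := by rw [hC]; group
    rw [h6]
    exact Commute.mul_left hg h2
  have hγα : g * P π * g⁻¹ * P α = C * d := by
    rw [hC, hd, map_mul]
    calc g * P π * g⁻¹ * P α = g * P π * g⁻¹ * 1 * P α := by rw [mul_one]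
      _ = g * P π * g⁻¹ * (P π * P π) * P α := by rw [hPπ]
      _ = g * P π * g⁻¹ * P π * (P π * P α) := by group
  have hγ : g * P π * g⁻¹ = C * P π := by
    rw [hC]
    calc g * P π * g⁻¹ = g * P π * g⁻¹ * 1 := by rw [mul_one]
      _ = g * P π * g⁻¹ * (P π * P π) := by rw [hPπ]
      _ = g * P π * g⁻¹ * P π * P π := by group
  set L : Subgroup G := Subgroup.closure {P α, P β, g * P π * g⁻¹} with hL
  set R : Subgroup G := Subgroup.closure (P '' (alternatingGroup X : Set (Perm X)) ∪ {C}) with hR
  have hαL : P α ∈ L := Subgroup.subset_closure (by simp)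
  have hβL : P β ∈ L := Subgroup.subset_closure (by simp)
  have hγL : g * P π * g⁻¹ ∈ L := Subgroup.subset_closure (by simp)
  have hCN : C ^ N ∈ L := by
    have h7 : (g * P π * g⁻¹ * P α) ^ N = C ^ N := by
      rw [hγα, hCd.mul_pow, hdN, mul_one]
    rw [← h7]
    exact L.pow_mem (L.mul_mem hγL hαL) N
  have hcop2 : N.Coprime (orderOf C) := by
    have h8 : orderOf C ∣ p ^ k := orderOf_dvd_of_pow_eq_one hCp
    exact Nat.Coprime.coprime_dvd_right h8 (hcop.pow_right k)
  have hCL : C ∈ L := by
    obtain ⟨m, hm⟩ := exists_pow_eq_self_of_coprime hcop2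
    rw [← hm]
    exact L.pow_mem hCN m
  have hdL : d ∈ L := by
    have h9 : d = C⁻¹ * (g * P π * g⁻¹ * P α) := by rw [hγα]; group
    rw [h9]
    exact L.mul_mem (L.inv_mem hCL) (L.mul_mem hγL hαL)
  have hπL : P π ∈ L := by
    have h10 : P π = d * P α := by
      rw [hd, map_mul, mul_assoc, hPα, mul_one]
    rw [h10]
    exact L.mul_mem hdL hαL
  have hαR : P α ∈ R := by
    apply Subgroup.subset_closure
    refine Or.inl ⟨α, ?_, rfl⟩
    rw [SetLike.mem_coe, ← hgen]
    exact Subgroup.subset_closure (by simp)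
  have hβR : P β ∈ R := by
    apply Subgroup.subset_closure
    refine Or.inl ⟨β, ?_, rfl⟩
    rw [SetLike.mem_coe, ← hgen]
    exact Subgroup.subset_closure (by simp)
  have hπR : P π ∈ R := by
    apply Subgroup.subset_closure
    refine Or.inl ⟨π, ?_, rfl⟩
    rw [SetLike.mem_coe, ← hgen]
    exact Subgroup.subset_closure (by simp)
  have hCR : C ∈ R := Subgroup.subset_closure (Or.inr rfl)
  apply le_antisymm
  · rw [hL, Subgroup.closure_le]
    intro x hx
    rcases hx with rfl | rfl | hx
    · exact hαR
    · exact hβR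
    · have hx' : x = g * P π * g⁻¹ := hx
      rw [hx', hγ]
      exact R.mul_mem hCR hπR
  · rw [hR, Subgroup.closure_le]
    intro x hx
    rcases hx with ⟨y, hy, rfl⟩ | hx
    · have h11 : y ∈ Subgroup.comap P L := by
        have h12 : alternatingGroup X ≤ Subgroup.comap P L := by
          rw [← hgen, Subgroup.closure_le]
          intro z hz
          rcases hz with rfl | rfl | hz
          · exact hαL
          · exact hβL
          · have hz' : z = π := hz
            rw [hz']
            exact hπL
        exact h12 hy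
      exact h11
    · have hx' : x = C := hx
      rw [hx']
      exact hCL

end H47Cl
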