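import Mathlib
import Pool.Agent.H.MP_0335f8_al.Defs
import Pool.Agent.H.MP_0335f8_cl.Low
import Pool.Agent.H.MP_0335f8_cl.Design
import Pool.Agent.H.MP_0335f8_cl.Engine

set_option linter.unusedSectionVars false

/-!
# From the engine to admissible tuples (module Final)
-/

namespace H47Cl

open Equiv H47Inv
open scoped commutatorElement

/-- transfer of one tuple along an isomorphism -/
theorem admissible_transfer {G G' : Type*} [Group G] [Group G'] (e : G ≃* G') {k : ℕ}
    (h : Admissible G k) : Admissible G' k := by
  obtain ⟨t, h1, h2, h3, h4⟩ := h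
  refine ⟨fun i => e (t i), ?_, ?_, ?_, ?_⟩
  · intro i
    rw [e.orderOf_eq, h1]
  · intro i j
    exact e.toMonoidHom.map_isConj (h2 i j)
  · have hr : Set.range (fun i => e (t i)) = e.toMonoidHom '' Set.range t := by
      rw [← Set.range_comp]; rfl
    rw [hr, ← MonoidHom.map_closure, h3]
    exact Subgroup.map_top_of_surjective _ e.surjective
  · have hl : List.ofFn (fun i => e (t i)) = (List.ofFn t).map e := by
      rw [List.map_ofFn]; rfl
    rw [hl, ← map_list_prod, h4, map_one]

/-- transfer along an isomorphism -/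
theorem isLeast_transfer {G G' : Type*} [Group G] [Group G'] (f : G ≃* G') (n : ℕ)
    (h : IsLeast {k : ℕ | Admissible G k} n) : IsLeast {k : ℕ | Admissible G' k} n :=
  ⟨admissible_transfer f h.1, fun _ hk => h.2 (admissible_transfer f.symm hk)⟩

/-- an admissible tuple of a group gives one of the quotient by the centre -/
theorem admissible_center {G : Type*} [Group G] {k : ℕ} (t : Fin k → G)
    (hsq : ∀ i, t i * t i = 1) (hconj : ∀ i j, IsConj (t i) (t j))
    (hgen : Subgroup.closure (Set.range t) = ⊤) (hprod : (List.ofFn t).prod = 1)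
    (hnc : ∃ x : G, x ∉ Subgroup.center G) :
    Admissible (G ⧸ Subgroup.center G) k := by
  set Z := Subgroup.center G with hZ
  set π : G →* G ⧸ Z := QuotientGroup.mk' Z with hπ
  have hncen : ∀ i, t i ∉ Z := by
    intro i hi
    have hle : Subgroup.closure (Set.range t) ≤ Z := by
      rw [Subgroup.closure_le]
      rintro _ ⟨j, rfl⟩
      obtain ⟨c, hc⟩ := isConj_iff.1 (hconj i j)
      rw [Subgroup.mem_center_iff.1 hi c, mul_assoc, mul_inv_cancel, mul_one] at hc
      rw [← hc]
      exact hi
    rw [hgen] at hle
    obtain ⟨x, hx⟩ := hnc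
    exact hx (hle (Subgroup.mem_top _))
  refine ⟨fun i => π (t i), ?_, ?_, ?_, ?_⟩
  · intro i
    apply orderOf_eq_prime
    · rw [pow_two, ← map_mul, hsq, map_one]
    · intro h1
      exact hncen i ((QuotientGroup.eq_one_iff (t i)).1 h1)
  · intro i j
    exact π.map_isConj (hconj i j)
  · have hr : Set.range (fun i => π (t i)) = π '' Set.range t := by
      rw [← Set.range_comp]; rfl
    rw [hr, ← MonoidHom.map_closure, hgen]
    exact Subgroup.map_top_of_surjective π (QuotientGroup.mk'_surjective Z)
  · have hl : List.ofFn (fun i => π (t i)) = (List.ofFn t).map π := by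
      rw [List.map_ofFn]; rfl
    rw [hl, ← map_list_prod, hprod, map_one]

/-- The final step.

Proof.  Let `H` be the closure of `P '' Alt ∪ {C}`.  `H ≤ commutator G`: for `n ≥ 5` the
alternating group is perfect (`commutator_alternatingGroup_eq_self`), so `P '' Alt` is in the
commutator subgroup, and `C = g (P π) g⁻¹ (P π)⁻¹`.  With `hgen`, `H = commutator G`.  By
`engine`, with `γ = g * P π * g⁻¹`, the closure of `{P α, P β, γ}` is `commutator G`.  The tuple
is `(α, β, αβ, γ, γ)` (images in `commutator G` modulo its centre): product `1`; they generate;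
they are conjugate in `commutator G` as `P c ∈ commutator G` for even `c` and `g ∈ commutator G`.
The group `commutator G` modulo its centre contains a nonabelian perfect image of the
alternating group, which gives the lower bound. -/
theorem final {G : Type*} [Group G] {X : Type} [Fintype X] [DecidableEq X]
    (hX : 5 ≤ Fintype.card X) (P : Perm X →* G) (hP : Function.Injective P) (p k : ℕ)
    (D : Design p X) (g C : G) (hg : Commute g (P (D.π * D.α)))
    (hC : C = g * P D.π * g⁻¹ * P D.π) (hCp : C ^ (p ^ k) = 1) (hgD : g ∈ commutator G)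
    (hgen : ∀ H : Subgroup G, (∀ τ ∈ alternatingGroup X, P τ ∈ H) → C ∈ H → commutator G ≤ H) :
    IsLeast {k : ℕ | Admissible (↥(commutator G) ⧸ Subgroup.center ↥(commutator G)) k} 5 := by
  have hX' : 5 ≤ Nat.card X := by rwa [Nat.card_eq_fintype_card]
  have hAlt : ∀ τ ∈ alternatingGroup X, P τ ∈ commutator G := by
    intro τ hτ
    rw [← commutator_alternatingGroup_eq_self (α := X) hX'] at hτ
    have h1 : P τ ∈ (⁅alternatingGroup X, alternatingGroup X⁆).map P := ⟨τ, hτ, rfl⟩
    rw [Subgroup.map_commutator] at h1
    exact Subgroup.commutator_mono le_top le_top h1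
  have hα : D.α ∈ alternatingGroup X := by
    rw [← D.gen]; exact Subgroup.subset_closure (by simp)
  have hβ : D.β ∈ alternatingGroup X := by
    rw [← D.gen]; exact Subgroup.subset_closure (by simp)
  have hπ : D.π ∈ alternatingGroup X := by
    rw [← D.gen]; exact Subgroup.subset_closure (by simp)
  have hPπ : P D.π * P D.π = 1 := by rw [← map_mul, D.π2, map_one]
  have hPα : P D.α * P D.α = 1 := by rw [← map_mul, D.α2, map_one]
  have hPβ : P D.β * P D.β = 1 := by rw [← map_mul, D.β2, map_one]
  set Z := Subgroup.center ↥(commutator G) with hZ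
  -- the lift of the alternating group
  let φ : ↥(alternatingGroup X) →* ↥(commutator G) :=
    (P.comp (alternatingGroup X).subtype).codRestrict (commutator G) (fun τ => hAlt τ.1 τ.2)
  have hφ : Function.Injective φ := by
    intro a b hab
    exact Subtype.ext (hP (congrArg Subtype.val hab))
  have hnt : Nontrivial ↥(alternatingGroup X) :=
    alternatingGroup.nontrivial_of_three_le_card (by rw [Nat.card_eq_fintype_card]; omega)
  have hperf := commutator_alternatingGroup_eq_top (α := X) hX'
  have hnoncomm : ¬ ∀ a b : ↥(alternatingGroup X), a * b = b * a := by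
    intro h
    have h1 : commutator ↥(alternatingGroup X) = ⊥ := by
      rw [eq_bot_iff, commutator_def, Subgroup.commutator_le]
      intro a _ b _
      rw [Subgroup.mem_bot, commutatorElement_eq_one_iff_mul_comm]
      exact h a b
    rw [hperf] at h1
    exact top_ne_bot h1
  have hnotcen : ¬ ∀ a : ↥(alternatingGroup X), φ a ∈ Z := by
    intro h
    apply hnoncomm
    intro a b
    apply hφ
    rw [map_mul, map_mul]
    exact ((Subgroup.mem_center_iff.1 (h a)) (φ b)).symm
  set γ := g * P D.π * g⁻¹ with hγ
  have hγD : γ ∈ commutator G :=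
    Subgroup.mul_mem _ (Subgroup.mul_mem _ hgD (hAlt _ hπ)) (Subgroup.inv_mem _ hgD)
  have hγγ : γ * γ = 1 := by
    rw [hγ, show g * P D.π * g⁻¹ * (g * P D.π * g⁻¹) = g * (P D.π * P D.π) * g⁻¹ by group, hPπ]
    group
  have hCD : C ∈ commutator G := by
    rw [hC]; exact Subgroup.mul_mem _ hγD (hAlt _ hπ)
  have hgenH := engine P D.α D.β D.π D.α2 D.π2 D.gen D.N p k D.hN D.hcop g C hg hC hCp
  have hH : Subgroup.closure (P '' (alternatingGroup X : Set (Perm X)) ∪ {C}) = commutator G := by
    apply le_antisymm
    · rw [Subgroup.closure_le]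
      rintro x (⟨τ, hτ, rfl⟩ | hx)
      · exact hAlt τ hτ
      · rw [Set.mem_singleton_iff] at hx
        rw [hx]; exact hCD
    · apply hgen
      · intro τ hτ
        exact Subgroup.subset_closure (Or.inl ⟨τ, hτ, rfl⟩)
      · exact Subgroup.subset_closure (Or.inr rfl)
  rw [hH] at hgenH
  constructor
  · -- upper bound
    set a : ↥(commutator G) := ⟨P D.α, hAlt _ hα⟩ with ha
    set b : ↥(commutator G) := ⟨P D.β, hAlt _ hβ⟩ with hb
    set c : ↥(commutator G) := ⟨γ, hγD⟩ with hc
    have haa : a * a = 1 := Subtype.ext hPα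
    have hbb : b * b = 1 := Subtype.ext hPβ
    have hcc : c * c = 1 := Subtype.ext hγγ
    have hab : a * b = b * a := Subtype.ext (by
      show P D.α * P D.β = P D.β * P D.α
      rw [← map_mul, D.comm, map_mul])
    have habab : (a * b) * (a * b) = 1 := by
      rw [show (a * b) * (a * b) = a * (b * a) * b by group, ← hab,
        show a * (a * b) * b = (a * a) * (b * b) by group, haa, hbb, one_mul]
    have cab : IsConj a b := by
      obtain ⟨d, hd, hd'⟩ := D.cβ
      refine isConj_iff.2 ⟨⟨P d, hAlt _ hd⟩, Subtype.ext ?_⟩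
      show P d * P D.α * (P d)⁻¹ = P D.β
      rw [← map_mul, ← map_inv, ← map_mul, hd']
    have cab' : IsConj a (a * b) := by
      obtain ⟨d, hd, hd'⟩ := D.cαβ
      refine isConj_iff.2 ⟨⟨P d, hAlt _ hd⟩, Subtype.ext ?_⟩
      show P d * P D.α * (P d)⁻¹ = P D.α * P D.β
      rw [← map_mul, ← map_inv, ← map_mul, hd', map_mul]
    have cac : IsConj a c := by
      obtain ⟨d, hd, hd'⟩ := D.cπ
      refine isConj_iff.2 ⟨⟨g * P d, Subgroup.mul_mem _ hgD (hAlt _ hd)⟩, Subtype.ext ?_⟩
      show (g * P d) * P D.α * (g * P d)⁻¹ = g * P D.π * g⁻¹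
      rw [← hd', map_mul, map_mul, map_inv]
      group
    have key : ∀ i : Fin 5, IsConj a ((![a, b, a * b, c, c] : Fin 5 → ↥(commutator G)) i) := by
      intro i
      fin_cases i
      · exact IsConj.refl a
      · exact cab
      · exact cab'
      · exact cac
      · exact cac
    refine admissible_center (![a, b, a * b, c, c] : Fin 5 → ↥(commutator G)) ?_ ?_ ?_ ?_ ?_
    · intro i
      fin_cases i
      · exact haa
      · exact hbb
      · exact habab
      · exact hcc
      · exact hcc
    · intro i j
      exact (key i).symm.trans (key j)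
    · have h1 : Subgroup.closure ({a, b, c} : Set ↥(commutator G)) = ⊤ := by
        apply Subgroup.map_injective (commutator G).subtype_injective
        rw [MonoidHom.map_closure, ← MonoidHom.range_eq_map, Subgroup.range_subtype]
        refine Eq.trans ?_ hgenH
        congr 1
        ext x
        simp only [Set.mem_image, Set.mem_insert_iff, Set.mem_singleton_iff]
        constructor
        · rintro ⟨y, (rfl | rfl | rfl), rfl⟩
          · exact Or.inl rfl
          · exact Or.inr (Or.inl rfl)
          · exact Or.inr (Or.inr rfl)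
        · rintro (rfl | rfl | rfl)
          · exact ⟨a, Or.inl rfl, rfl⟩
          · exact ⟨b, Or.inr (Or.inl rfl), rfl⟩
          · exact ⟨c, Or.inr (Or.inr rfl), rfl⟩
      rw [eq_top_iff, ← h1]
      apply Subgroup.closure_mono
      rintro x (rfl | rfl | rfl)
      · exact ⟨0, rfl⟩
      · exact ⟨1, rfl⟩
      · exact ⟨3, rfl⟩
    · have : (List.ofFn (![a, b, a * b, c, c] : Fin 5 → ↥(commutator G))).prod =
          (a * b) * (a * b) * (c * c) := by
        simp [List.ofFn_succ, mul_assoc]
      rw [this, habab, hcc, one_mul]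
    · by_contra hcon
      push Not at hcon
      exact hnotcen (fun τ => hcon _)
  · -- lower bound
    intro n hn
    refine lower5_gen ?_ hn
    by_contra hcon
    push Not at hcon
    apply hnotcen
    let ψ : ↥(alternatingGroup X) →* ↥(commutator G) ⧸ Z := (QuotientGroup.mk' Z).comp φ
    have h1 : ∀ τ, ψ τ ∈ commutator (↥(commutator G) ⧸ Z) := by
      intro τ
      have h2 : ψ τ ∈ Subgroup.map ψ ⁅(⊤ : Subgroup ↥(alternatingGroup X)), ⊤⁆ :=
        ⟨τ, by rw [← commutator_def, hperf]; exact Subgroup.mem_top _, rfl⟩
      rw [Subgroup.map_commutator] at h2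
      exact Subgroup.commutator_mono le_top le_top h2
    have h2 : commutator ↥(alternatingGroup X) ≤ ψ.ker := by
      rw [commutator_def, Subgroup.commutator_le]
      intro a _ b _
      rw [MonoidHom.mem_ker, map_commutatorElement, commutatorElement_eq_one_iff_mul_comm]
      exact hcon _ (h1 a) _ (h1 b)
    intro τ
    have h3 : τ ∈ ψ.ker := h2 (by rw [hperf]; exact Subgroup.mem_top _)
    exact (QuotientGroup.eq_one_iff (φ τ)).1 h3

end H47Cl
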