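import Mathlib
import Pool.Agent.H.MP_0335f8_al.Defs
import Pool.Agent.H.MP_0335f8_al.Transfer
import Pool.Agent.H.MP_0335f8_cl.Design
import Pool.Agent.H.MP_0335f8_cl.Final
import Pool.Agent.H.MP_0335f8_cl.Trans

set_option linter.unusedSectionVars false

/-!
# The linear groups (module Lin)
-/

namespace H47Cl

open Equiv H47Inv

section LinAux

open Matrix
open scoped commutatorElement

variable {K : Type*} [Field K] {X : Type} [Fintype X] [DecidableEq X]

/-- the elementary matrix `1 + μ E_xy` in the general linear group -/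
def linT {x y : X} (h : x ≠ y) (μ : K) : GL X K :=
  SpecialLinearGroup.toGL (SpecialLinearGroup.transvection h μ)

lemma linT_val {x y : X} (h : x ≠ y) (μ : K) :
    ((linT h μ : GL X K) : Matrix X X K) = 1 + single x y μ := rfl

lemma linT_add {x y : X} (h : x ≠ y) (μ ν : K) :
    (linT h (μ + ν) : GL X K) = linT h μ * linT h ν := by
  unfold linT
  rw [SpecialLinearGroup.transvection_add, map_mul]

lemma linT_zero {x y : X} (h : x ≠ y) : (linT h (0 : K) : GL X K) = 1 := by
  unfold linT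
  rw [SpecialLinearGroup.transvection_coeff_zero, map_one]

lemma linT_neg {x y : X} (h : x ≠ y) (μ : K) :
    (linT h (-μ) : GL X K) = (linT h μ)⁻¹ := by
  unfold linT
  rw [← SpecialLinearGroup.transvection_inv, map_inv]

lemma linT_pow {x y : X} (h : x ≠ y) (μ : K) (n : ℕ) :
    (linT h μ : GL X K) ^ n = linT h (n * μ) := by
  induction n with
  | zero => simp [linT_zero]
  | succ n ih => rw [pow_succ, ih, ← linT_add]; congr 1; push_cast; ring

/-- permutation matrices -/
noncomputable def linP : Perm X →* GL X K :=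
  (Matrix.permMatrixHom (n := X) (R := K)).toHomUnits

lemma linP_val (τ : Perm X) :
    ((linP (K := K) τ : GL X K) : Matrix X X K) = (τ⁻¹ : Perm X).permMatrix K := rfl

lemma linP_conj (τ : Perm X) {x y : X} (h : x ≠ y) (h' : τ x ≠ τ y) (μ : K) :
    linP (K := K) τ * linT h μ * (linP (K := K) τ)⁻¹ = linT h' μ := by
  rw [mul_inv_eq_iff_eq_mul]
  apply Units.ext
  rw [Units.val_mul, Units.val_mul, linT_val, linT_val, linP_val, mul_add, add_mul, mul_one,
    one_mul]
  congr 1
  rw [Equiv.Perm.permMatrix, PEquiv.toMatrix_toPEquiv_mul, PEquiv.mul_toMatrix_toPEquiv]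
  ext a b
  simp only [submatrix_apply, id, single_apply]
  have h1 : (x = (τ⁻¹ : Perm X) a) ↔ (τ x = a) := by
    rw [Equiv.Perm.eq_inv_iff_eq]
  have h2 : (τ y = (τ⁻¹ : Perm X).symm b) ↔ (y = b) := by
    change τ y = τ b ↔ y = b
    exact τ.injective.eq_iff
  simp only [h1, h2]

lemma linP_injective : Function.Injective (linP (K := K) (X := X)) := by
  intro σ τ h
  have h1 : ((linP (K := K) σ : GL X K) : Matrix X X K) = linP (K := K) τ := by rw [h]
  rw [linP_val, linP_val] at h1
  have h2 := PEquiv.toMatrix_injective h1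
  have h3 : (σ⁻¹ : Perm X) = τ⁻¹ := by
    ext a
    have h4 := congrArg (fun f => f a) h2
    simpa [Equiv.toPEquiv_apply] using h4
  exact inv_injective h3

lemma linT_comm {x y z w : X} (h : x ≠ y) (h' : z ≠ w) (h1 : y ≠ z) (h2 : w ≠ x) (μ ν : K) :
    Commute (linT h μ : GL X K) (linT h' ν) := by
  apply Units.ext
  rw [Units.val_mul, Units.val_mul, linT_val, linT_val]
  simp only [mul_add, add_mul, single_mul_single_of_ne _ _ _ _ h1,
    single_mul_single_of_ne _ _ _ _ h2, mul_one, one_mul, add_zero]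
  abel

/-- the commutator relation -/
lemma linT_commutator {x y z : X} (hxz : x ≠ z) (hzy : z ≠ y) (hxy : x ≠ y) (a b : K) :
    ⁅(linT hxz a : GL X K), linT hzy b⁆ = linT hxy (a * b) := by
  rw [commutatorElement_def, mul_inv_eq_iff_eq_mul, mul_inv_eq_iff_eq_mul]
  apply Units.ext
  rw [Units.val_mul, Units.val_mul, Units.val_mul, linT_val, linT_val, linT_val]
  simp only [mul_add, add_mul, single_mul_single_same, mul_one, one_mul,
    single_mul_single_of_ne _ _ _ _ hxy.symm, single_mul_single_of_ne _ _ _ _ hzy.symm, add_zero]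
  abel

lemma comm_mul_comm {G : Type*} [Group G] {a b c : G} (h1 : Commute c a) (h2 : Commute c b) :
    ⁅a * c, b * c⁆ = ⁅a, b⁆ := by
  have e1 : (a * c) * (b * c) = (a * b) * (c * c) := by
    rw [mul_assoc, ← mul_assoc c b c, h2.eq]; simp only [mul_assoc]
  have e2 : (b * c) * (a * c) = (b * a) * (c * c) := by
    rw [mul_assoc, ← mul_assoc c a c, h1.eq]; simp only [mul_assoc]
  have e3 : ∀ x y : G, ⁅x, y⁆ = (x * y) * (y * x)⁻¹ := by
    intro x y; rw [commutatorElement_def]; group
  rw [e3, e3, e1, e2]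
  group

lemma comm_mul_left {G : Type*} [Group G] {a b c : G} (h2 : Commute c b) :
    ⁅a * c, b⁆ = ⁅a, b⁆ := by
  have e1 : (a * c) * b = (a * b) * c := by
    rw [mul_assoc, h2.eq, mul_assoc]
  have e2 : b * (a * c) = (b * a) * c := by rw [mul_assoc]
  have e3 : ∀ x y : G, ⁅x, y⁆ = (x * y) * (y * x)⁻¹ := by
    intro x y; rw [commutatorElement_def]; group
  rw [e3, e3, e1, e2]
  group

lemma comm_mem {G : Type*} [Group G] {H : Subgroup G} {a b : G} (ha : a ∈ H) (hb : b ∈ H) :
    ⁅a, b⁆ ∈ H := by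
  rw [commutatorElement_def]
  exact H.mul_mem (H.mul_mem (H.mul_mem ha hb) (H.inv_mem ha)) (H.inv_mem hb)

/-- the quotient of two disjoint elementary matrices -/
def linD (l : K) (y : Fin 4 → X) (hy : Function.Injective y) : GL X K :=
  linT (hy.ne (by decide : (0 : Fin 4) ≠ 1)) l *
    (linT (hy.ne (by decide : (2 : Fin 4) ≠ 3)) l)⁻¹

lemma linD_conj (l : K) (y : Fin 4 → X) (hy : Function.Injective y) (τ : Perm X)
    (z : Fin 4 → X) (hz : Function.Injective z) (h : ∀ i, τ (y i) = z i) :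
    linP (K := K) τ * linD l y hy * (linP (K := K) τ)⁻¹ = linD l z hz := by
  have hz' : z = fun i => τ (y i) := by funext i; rw [h]
  subst hz'
  unfold linD
  rw [← linP_conj τ (hy.ne (by decide : (0 : Fin 4) ≠ 1)),
    ← linP_conj τ (hy.ne (by decide : (2 : Fin 4) ≠ 3))]
  group

lemma linD_mem (hX : 20 ≤ Fintype.card X) (H : Subgroup (GL X K))
    (hP : ∀ τ ∈ alternatingGroup X, linP (K := K) τ ∈ H) (l : K)
    (y : Fin 4 → X) (hy : Function.Injective y) (h : linD l y hy ∈ H)
    (z : Fin 4 → X) (hz : Function.Injective z) : linD l z hz ∈ H := by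
  obtain ⟨τ, hτ, h1⟩ := exists_alt_map (n := 4) (by omega) y z hy hz
  rw [← linD_conj l y hy τ z hz h1]
  exact H.mul_mem (H.mul_mem (hP τ hτ) h) (H.inv_mem (hP τ hτ))

/-- with three fresh points -/
lemma lin_fresh (hX : 20 ≤ Fintype.card X) {p t : X} (_h : p ≠ t) :
    ∃ q r s : X, Function.Injective ![p, q, r, s] ∧ Function.Injective ![q, t, r, s] := by
  obtain ⟨x, hx, hx'⟩ := exists_fresh (X := X) 3 {p, t} (by
    have : ({p, t} : Finset X).card ≤ 2 := Finset.card_le_two
    omega)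
  have h01 : x 0 ≠ x 1 := hx.ne (by decide)
  have h02 : x 0 ≠ x 2 := hx.ne (by decide)
  have h12 : x 1 ≠ x 2 := hx.ne (by decide)
  have k0 := hx' 0
  have k1 := hx' 1
  have k2 := hx' 2
  simp only [Finset.mem_insert, Finset.mem_singleton, not_or] at k0 k1 k2
  refine ⟨x 0, x 1, x 2, ?_, ?_⟩
  · intro a b hab
    fin_cases a <;> fin_cases b <;>
      simp_all [Matrix.cons_val_two, Matrix.cons_val_three, eq_comm]
  · intro a b hab
    fin_cases a <;> fin_cases b <;>
      simp_all [Matrix.cons_val_two, Matrix.cons_val_three, eq_comm]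

lemma lin_sq (hX : 20 ≤ Fintype.card X) (H : Subgroup (GL X K)) (l : K)
    (hD : ∀ (z : Fin 4 → X) (hz : Function.Injective z), linD l z hz ∈ H)
    {p t : X} (h : p ≠ t) : linT h (l * l) ∈ H := by
  obtain ⟨q, r, s, h1, h2⟩ := lin_fresh hX h
  have n01 : p ≠ q := h1.ne (by decide : (0 : Fin 4) ≠ 1)
  have n02 : p ≠ r := h1.ne (by decide : (0 : Fin 4) ≠ 2)
  have n03 : p ≠ s := h1.ne (by decide : (0 : Fin 4) ≠ 3)
  have n12 : q ≠ r := h1.ne (by decide : (1 : Fin 4) ≠ 2)
  have n13 : q ≠ s := h1.ne (by decide : (1 : Fin 4) ≠ 3)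
  have n23 : r ≠ s := h1.ne (by decide : (2 : Fin 4) ≠ 3)
  have m01 : q ≠ t := h2.ne (by decide : (0 : Fin 4) ≠ 1)
  have m12 : t ≠ r := h2.ne (by decide : (1 : Fin 4) ≠ 2)
  have m13 : t ≠ s := h2.ne (by decide : (1 : Fin 4) ≠ 3)
  have key := comm_mem (hD _ h1) (hD _ h2)
  have e1 : linD l ![p, q, r, s] h1 = linT n01 l * (linT n23 l)⁻¹ := rfl
  have e2 : linD l ![q, t, r, s] h2 = linT m01 l * (linT n23 l)⁻¹ := rfl
  rw [e1, e2, comm_mul_comm, linT_commutator n01 m01 h] at key
  · exact key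
  · exact (linT_comm n23 n01 n03.symm n12 l l).inv_left
  · exact (linT_comm n23 m01 n13.symm m12 l l).inv_left

lemma lin_step (hX : 20 ≤ Fintype.card X) (H : Subgroup (GL X K)) (l : K)
    (hD : ∀ (z : Fin 4 → X) (hz : Function.Injective z), linD l z hz ∈ H) (μ : K)
    (hμ : ∀ (p t : X) (h : p ≠ t), linT h μ ∈ H)
    {p t : X} (h : p ≠ t) : linT h (l * μ) ∈ H := by
  obtain ⟨q, r, s, h1, h2⟩ := lin_fresh hX h
  have n01 : p ≠ q := h1.ne (by decide : (0 : Fin 4) ≠ 1)
  have n12 : q ≠ r := h1.ne (by decide : (1 : Fin 4) ≠ 2)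
  have n13 : q ≠ s := h1.ne (by decide : (1 : Fin 4) ≠ 3)
  have n23 : r ≠ s := h1.ne (by decide : (2 : Fin 4) ≠ 3)
  have m01 : q ≠ t := h2.ne (by decide : (0 : Fin 4) ≠ 1)
  have m12 : t ≠ r := h2.ne (by decide : (1 : Fin 4) ≠ 2)
  have key := comm_mem (hD _ h1) (hμ _ _ m01)
  have e1 : linD l ![p, q, r, s] h1 = linT n01 l * (linT n23 l)⁻¹ := rfl
  rw [e1, comm_mul_left, linT_commutator n01 m01 h] at key
  · exact key
  · exact (linT_comm n23 m01 n13.symm m12 l μ).inv_left

lemma lin_all (hX : 20 ≤ Fintype.card X) (H : Subgroup (GL X K)) (l : K)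
    (hl0 : l ≠ 0) (hl : ∀ x : K, x ≠ 0 → ∃ n : ℕ, x = l ^ n)
    (hD : ∀ (z : Fin 4 → X) (hz : Function.Injective z), linD l z hz ∈ H) (μ : K)
    (p t : X) (h : p ≠ t) : linT h μ ∈ H := by
  have h1 : ∀ m : ℕ, ∀ (p t : X) (h : p ≠ t), linT h (l ^ (m + 2)) ∈ H := by
    intro m
    induction m with
    | zero =>
      intro p t h
      have := lin_sq hX H l hD h
      rwa [show l ^ (0 + 2) = l * l by ring]
    | succ m ih =>
      intro p t h
      have := lin_step hX H l hD _ ih h
      rwa [show l ^ (m + 1 + 2) = l * l ^ (m + 2) by ring]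
  by_cases h0 : μ = 0
  · subst h0
    rw [linT_zero]
    exact H.one_mem
  · obtain ⟨m, hm⟩ := hl (μ / l ^ 2) (div_ne_zero h0 (pow_ne_zero _ hl0))
    have h2 : μ = l ^ (m + 2) := by
      rw [pow_add, ← hm]
      field_simp
    rw [h2]
    exact h1 m p t h

lemma lin_gen (hX : 20 ≤ Fintype.card X) (H : Subgroup (GL X K)) (l : K)
    (hl0 : l ≠ 0) (hl : ∀ x : K, x ≠ 0 → ∃ n : ℕ, x = l ^ n)
    (hD : ∀ (z : Fin 4 → X) (hz : Function.Injective z), linD l z hz ∈ H) :
    commutator (GL X K) ≤ H := by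
  have : Nontrivial X := by
    rw [← Fintype.one_lt_card_iff_nontrivial]; omega
  have h1 : H.comap SpecialLinearGroup.toGL = ⊤ :=
    top_of_transvections _ (fun i j hij c => lin_all hX H l hl0 hl hD c i j hij)
  intro g hg
  have h2 : Matrix.GeneralLinearGroup.det g = 1 :=
    Abelianization.commutator_subset_ker (Matrix.GeneralLinearGroup.det (n := X) (R := K)) hg
  have h3 : (g : Matrix X X K).det = 1 := by
    have := congrArg Units.val h2
    simpa using this
  have h4 : (⟨(g : Matrix X X K), h3⟩ : SpecialLinearGroup X K) ∈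
      H.comap SpecialLinearGroup.toGL := by rw [h1]; trivial
  have h5 : SpecialLinearGroup.toGL (⟨(g : Matrix X X K), h3⟩ : SpecialLinearGroup X K) = g :=
    Units.ext rfl
  have h6 : SpecialLinearGroup.toGL (⟨(g : Matrix X X K), h3⟩ : SpecialLinearGroup X K) ∈ H := h4
  rw [h5] at h6
  exact h6

end LinAux

/-- The linear case, in the group `GL X K` of invertible matrices over a finite field of
characteristic `p`.

Proof.  Apply `final` with `P τ` the permutation matrix (`(P τ) e_x = e_(τ x)`),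
`T x y μ = 1 + μ E_xy` (`x ≠ y`), `g = T (i 0) (i 1) l`, where `l` generates `Kˣ` (`i = D.i`),
`C = g * (T (i' 0) (i' 1) l)⁻¹` (`P π g (P π)⁻¹ = T (π (i 0)) (π (i 1)) l` and `π (i k) = i' k`),
`k = 1`: `C` is `1 + l E - l E'`, `C ^ p = 1 + p (l E - l E') = 1` (the two factors commute and
have order `p`).  `g` commutes with `P (π * α)` as `π * α` fixes `i 0`, `i 1`.
`g` is a commutator of two transvections `⁅T x z 1, T z y l⁆`.
`hgen`: let `H` contain `P τ` for `τ` even and `C`.  By `exists_alt_map` and conjugation, `H`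
contains `T p q l * (T p' q' l)⁻¹` for all distinct `p, q, p', q'`.  For distinct
`p, q, t, p', q'`, `⁅T p q l (T p' q' l)⁻¹, T q t l (T p' q' l)⁻¹⁆ = T p t (l ^ 2) ∈ H`; if
`T q t μ ∈ H` for all `q ≠ t` then `⁅T p q l (T p' q' l)⁻¹, T q t μ⁆ = T p t (l μ) ∈ H`; so
`I = {μ | ∀ p ≠ q, T p q μ ∈ H}` is an additive group closed under multiplication by `l` and
contains `l ^ 2`: `I = K`.  So `H` contains the group `R` generated by all transvections, which
is normal in `GL` (`1 + μ E_xy` conjugated ... or: `R` contains `SL`, see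
`Matrix.SpecialLinearGroup.diagonal_transvection_induction'` and `top_of_transvections` in
`Pool/Agent/H/MP_0335f8_al/Transfer.lean`: every matrix of determinant one is in `R`).
A commutator in `GL` has determinant one, so it is in `R ≤ H`. -/
theorem linear_matrix {K : Type*} [Field K] [Finite K] {X : Type} [Fintype X] [DecidableEq X]
    (hX : 20 ≤ Fintype.card X) (p : ℕ) [Fact p.Prime] [CharP K p] (D : Design p X) :
    IsLeast {k : ℕ | Admissible (↥(commutator (GL X K)) ⧸
      Subgroup.center ↥(commutator (GL X K))) k} 5 := by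
  obtain ⟨u, hu⟩ := IsCyclic.exists_generator (α := Kˣ)
  have hl : ∀ x : K, x ≠ 0 → ∃ n : ℕ, x = (u : K) ^ n := by
    intro x hx
    have h1 := hu (Units.mk0 x hx)
    rw [← mem_powers_iff_mem_zpowers] at h1
    obtain ⟨n, hn⟩ := h1
    refine ⟨n, ?_⟩
    have h2 := congrArg Units.val hn
    simpa using h2.symm
  set l : K := (u : K) with hldef
  have hl0 : l ≠ 0 := u.ne_zero
  have hi : Function.Injective D.i := fun a b hab => by
    have := D.inj (a₁ := Sum.inl a) (a₂ := Sum.inl b) hab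
    exact Sum.inl_injective this
  have hi' : Function.Injective D.i' := fun a b hab => by
    have := D.inj (a₁ := Sum.inr a) (a₂ := Sum.inr b) hab
    exact Sum.inr_injective this
  have hii : ∀ a b, D.i a ≠ D.i' b := fun a b hab => by
    have := D.inj (a₁ := Sum.inl a) (a₂ := Sum.inr b) hab
    exact Sum.inl_ne_inr this
  have n01 : D.i 0 ≠ D.i 1 := hi.ne (by decide)
  have n02 : D.i 0 ≠ D.i 2 := hi.ne (by decide)
  have n12 : D.i 1 ≠ D.i 2 := hi.ne (by decide)
  have m01 : D.i' 0 ≠ D.i' 1 := hi'.ne (by decide)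
  have hy : Function.Injective ![D.i 0, D.i 1, D.i' 0, D.i' 1] := by
    have k1 := hii 0 0
    have k2 := hii 0 1
    have k3 := hii 1 0
    have k4 := hii 1 1
    intro a b hab
    fin_cases a <;> fin_cases b <;> simp_all [eq_comm]
  have hπi' : ∀ k, D.π (D.i' k) = D.i k := by
    intro k
    rw [← D.hπ k]
    have := congrArg (fun f => f (D.i k)) D.π2
    simpa using this
  have hPπ : (linP (K := K) D.π)⁻¹ = linP (K := K) D.π := by
    rw [inv_eq_iff_mul_eq_one, ← map_mul, D.π2, map_one]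
  have hD1 : linD l ![D.i 0, D.i 1, D.i' 0, D.i' 1] hy = linT n01 l * (linT m01 l)⁻¹ := rfl
  have hconj : linP (K := K) D.π * linT n01 l * (linP (K := K) D.π)⁻¹ = linT m01 l := by
    have h' : D.π (D.i 0) ≠ D.π (D.i 1) := D.π.injective.ne n01
    rw [linP_conj D.π n01 h']
    simp only [D.hπ]
  refine final (by omega) (linP (K := K)) linP_injective p 1 D (linT n01 l)
    (linD l ![D.i 0, D.i 1, D.i' 0, D.i' 1] hy) ?_ ?_ ?_ ?_ ?_
  · have h' : (D.π * D.α) (D.i 0) ≠ (D.π * D.α) (D.i 1) := (D.π * D.α).injective.ne n01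
    have h1 := linP_conj (K := K) (D.π * D.α) n01 h' l
    simp only [Equiv.Perm.mul_apply, D.hα, hπi'] at h1
    rw [mul_inv_eq_iff_eq_mul] at h1
    exact h1.symm
  · rw [hD1, ← hconj]
    simp only [_root_.mul_inv_rev, hPπ, mul_assoc]
  · have hc : Commute (linT n01 l : GL X K) (linT m01 l)⁻¹ :=
      (linT_comm n01 m01 (hii 1 0) (hii 0 1).symm l l).inv_right
    rw [hD1, pow_one, hc.mul_pow, inv_pow, linT_pow, linT_pow, CharP.cast_eq_zero, zero_mul,
      linT_zero, linT_zero, inv_one, mul_one]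
  · have h1 := linT_commutator (K := K) n02 n12.symm n01 1 l
    rw [one_mul] at h1
    rw [← h1]
    exact Subgroup.commutator_mem_commutator (Subgroup.mem_top _) (Subgroup.mem_top _)
  · intro H hH hCH
    exact lin_gen hX H l hl0 hl (fun z hz => linD_mem hX H hH l _ hy hCH z hz)

end H47Cl
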