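import Mathlib

set_option linter.unusedSectionVars false
set_option linter.unusedSimpArgs false

/-!
# The functions of the design
-/

namespace H47Cl.D

/-- the special indices -/
def Spec (ρ η k : ℤ) : Prop := 4 ≤ k ∧ 1 ≤ (k - 2) % 4 ∧ (k - 2) % 4 ≤ η ∧ (k - 2) / 4 ≤ ρ

instance (ρ η k : ℤ) : Decidable (Spec ρ η k) := by unfold Spec; infer_instance

/-- the first involution -/
def al (p : ℤ × ℤ) : ℤ × ℤ := (p.1, -p.2)

/-- the third involution -/
def pif (K u η : ℤ) (p : ℤ × ℤ) : ℤ × ℤ :=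
  if p.1 = 1 then (1, -p.2)
  else if p.1 = 0 then (if p.2 = -(K + u + 1) then p else (0, 1 - p.2))
  else (if p.2 = -η then p else (p.1, 1 - p.2))

/-- the second involution on points with nonnegative second coordinate -/
def bpos (K u ρ η : ℤ) (p : ℤ × ℤ) : ℤ × ℤ :=
  if p.1 = 0 then
    if p.2 = 0 then (2, 0)
    else if p.2 = K + u + 1 then p
    else if p.2 ≤ K - u then
      (if Spec ρ η p.2 then (2 + (p.2 - 2) / 4, (p.2 - 2) % 4) else (1, p.2))
    else if p.2 ≤ K then (0, p.2 + u)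
    else (0, p.2 - u)
  else if p.1 = 1 then (0, p.2)
  else if p.2 = 0 then (if p.1 = 2 then (0, 0) else p)
  else if p.1 = 2 ∧ p.2 = 1 then (2, -1)
  else (0, 4 * (p.1 - 2) + p.2 + 2)

/-- the second involution -/
def be (K u ρ η : ℤ) (p : ℤ × ℤ) : ℤ × ℤ :=
  if p.2 < 0 then al (bpos K u ρ η (al p)) else bpos K u ρ η p

/-- the point set -/
def S (K u ρ η : ℤ) (p : ℤ × ℤ) : Prop :=
  (p.1 = 0 ∧ -(K + u + 1) ≤ p.2 ∧ p.2 ≤ K + u + 1) ∨
  (p.1 = 1 ∧ ((1 ≤ p.2 ∧ p.2 ≤ K - u ∧ ¬ Spec ρ η p.2) ∨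
    (1 ≤ -p.2 ∧ -p.2 ≤ K - u ∧ ¬ Spec ρ η (-p.2)))) ∨
  (2 ≤ p.1 ∧ p.1 ≤ 2 + ρ ∧ -η ≤ p.2 ∧ p.2 ≤ η)

instance (K u ρ η : ℤ) (p : ℤ × ℤ) : Decidable (S K u ρ η p) := by unfold S; infer_instance

/-- the parameter range -/
structure Par (K u ρ η : ℤ) : Prop where
  hK : 20 ≤ K
  hu : 0 ≤ u
  hu' : u ≤ 2
  hρ : 0 ≤ ρ
  hρ' : ρ ≤ 3
  hη : 1 ≤ η
  hη' : η ≤ 2

variable {K u ρ η : ℤ}

theorem S_al {p : ℤ × ℤ} (hp : S K u ρ η p) : S K u ρ η (al p) := by
  obtain ⟨t, z⟩ := p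
  simp only [S, al, Spec, neg_neg] at hp ⊢
  omega

theorem al_al (p : ℤ × ℤ) : al (al p) = p := by
  obtain ⟨t, z⟩ := p
  simp [al]

theorem S_pif (h : Par K u ρ η) {p : ℤ × ℤ} (hp : S K u ρ η p) : S K u ρ η (pif K u η p) := by
  obtain ⟨hK, hu, hu', hρ, hρ', hη, hη'⟩ := h
  obtain ⟨t, z⟩ := p
  simp only [S, Spec] at hp
  dsimp only [pif]
  split_ifs <;> simp only [S, Spec, neg_neg, true_and] <;> omega

theorem pif_pif (h : Par K u ρ η) {p : ℤ × ℤ} (hp : S K u ρ η p) :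
    pif K u η (pif K u η p) = p := by
  obtain ⟨hK, hu, hu', hρ, hρ', hη, hη'⟩ := h
  obtain ⟨t, z⟩ := p
  simp only [S, Spec] at hp
  by_cases h1 : t = 1
  · subst h1; simp [pif]
  · by_cases h0 : t = 0
    · subst h0
      by_cases hz : z = -(K + u + 1)
      · simp [pif, hz]
      · have : ¬ (1 - z = -(K + u + 1)) := by omega
        simp only [pif, hz, this, if_false, if_true, zero_ne_one]
        ext <;> simp
    · by_cases hz : z = -η
      · simp [pif, hz, h0, h1]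
      · have : ¬ (1 - z = -η) := by omega
        simp only [pif, hz, this, h0, h1, if_false, if_true]
        ext <;> simp

theorem S_bpos (h : Par K u ρ η) {p : ℤ × ℤ} (hp : S K u ρ η p) (hz : 0 ≤ p.2) :
    S K u ρ η (bpos K u ρ η p) := by
  obtain ⟨hK, hu, hu', hρ, hρ', hη, hη'⟩ := h
  obtain ⟨t, z⟩ := p
  simp only [S, Spec] at hp hz
  dsimp only [bpos]
  split_ifs <;> simp only [S, Spec, neg_neg, true_and] at * <;> omega

theorem S_be (h : Par K u ρ η) {p : ℤ × ℤ} (hp : S K u ρ η p) : S K u ρ η (be K u ρ η p) := by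
  rw [be]
  split_ifs with hz
  · exact S_al (S_bpos h (S_al hp) (by simp only [al]; omega))
  · exact S_bpos h hp (by omega)

theorem bpos_zero (h : Par K u ρ η) (t : ℤ) (hp : S K u ρ η (t, 0)) :
    al (bpos K u ρ η (t, 0)) = bpos K u ρ η (t, 0) := by
  obtain ⟨hK, hu, hu', hρ, hρ', hη, hη'⟩ := h
  simp only [S, Spec] at hp
  simp only [bpos, al]
  split_ifs <;> first | omega | simp

theorem be_al (h : Par K u ρ η) {p : ℤ × ℤ} (hp : S K u ρ η p) :
    be K u ρ η (al p) = al (be K u ρ η p) := by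
  obtain ⟨t, z⟩ := p
  rcases lt_trichotomy z 0 with hz | hz | hz
  · have h1 : ¬ ((al (t, z)).2 < 0) := by simp only [al]; omega
    rw [be, if_neg h1, be, if_pos (show (t, z).2 < 0 from hz), al_al]
  · subst hz
    have h1 : al (t, (0 : ℤ)) = (t, 0) := by simp [al]
    rw [h1, be, if_neg (by simp), bpos_zero h t hp]
  · have h1 : ((al (t, z)).2 < 0) := by simp only [al]; omega
    rw [be, if_pos h1, be, if_neg (by simpa using hz.le), al_al]

theorem bpos_a : bpos K u ρ η (0, 0) = (2, 0) := by simp [bpos]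

theorem bpos_b : bpos K u ρ η (0, K + u + 1) = (0, K + u + 1) ∨ K + u + 1 = 0 := by
  by_cases h : K + u + 1 = 0
  · exact Or.inr h
  · left; simp [bpos, h]

theorem bpos_c {z : ℤ} (h : Par K u ρ η) (h1 : 0 < z) (h2 : z ≤ K - u) (h3 : Spec ρ η z) :
    bpos K u ρ η (0, z) = (2 + (z - 2) / 4, (z - 2) % 4) := by
  obtain ⟨hK, hu, hu', hρ, hρ', hη, hη'⟩ := h
  have e1 : z ≠ 0 := by omega
  have e2 : z ≠ K + u + 1 := by omega
  simp [bpos, e1, e2, h2, h3]

theorem bpos_d {z : ℤ} (h : Par K u ρ η) (h1 : 0 < z) (h2 : z ≤ K - u) (h3 : ¬ Spec ρ η z) :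
    bpos K u ρ η (0, z) = (1, z) := by
  obtain ⟨hK, hu, hu', hρ, hρ', hη, hη'⟩ := h
  have e1 : z ≠ 0 := by omega
  have e2 : z ≠ K + u + 1 := by omega
  simp [bpos, e1, e2, h2, h3]

theorem bpos_e {z : ℤ} (h : Par K u ρ η) (h1 : K - u < z) (h2 : z ≤ K) :
    bpos K u ρ η (0, z) = (0, z + u) := by
  obtain ⟨hK, hu, hu', hρ, hρ', hη, hη'⟩ := h
  have e1 : z ≠ 0 := by omega
  have e2 : z ≠ K + u + 1 := by omega
  have e3 : ¬ z ≤ K - u := by omega
  simp [bpos, e1, e2, h2, e3]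

theorem bpos_f {z : ℤ} (h : Par K u ρ η) (h1 : K < z) (h2 : z ≤ K + u) :
    bpos K u ρ η (0, z) = (0, z - u) := by
  obtain ⟨hK, hu, hu', hρ, hρ', hη, hη'⟩ := h
  have e1 : z ≠ 0 := by omega
  have e2 : z ≠ K + u + 1 := by omega
  have e3 : ¬ z ≤ K - u := by omega
  have e4 : ¬ z ≤ K := by omega
  simp [bpos, e1, e2, e3, e4]

theorem bpos_g (z : ℤ) : bpos K u ρ η (1, z) = (0, z) := by simp [bpos]

theorem bpos_h : bpos K u ρ η (2, 0) = (0, 0) := by simp [bpos]

theorem bpos_i {t : ℤ} (h : 3 ≤ t) : bpos K u ρ η (t, 0) = (t, 0) := by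
  have e1 : t ≠ 0 := by omega
  have e2 : t ≠ 1 := by omega
  have e3 : t ≠ 2 := by omega
  simp [bpos, e1, e2, e3]

theorem bpos_j : bpos K u ρ η (2, 1) = (2, -1) := by simp [bpos]

theorem bpos_k {t z : ℤ} (h : 2 ≤ t) (hz : 0 < z) (htz : ¬ (t = 2 ∧ z = 1)) :
    bpos K u ρ η (t, z) = (0, 4 * (t - 2) + z + 2) := by
  have e1 : t ≠ 0 := by omega
  have e2 : t ≠ 1 := by omega
  have e3 : z ≠ 0 := by omega
  simp [bpos, e1, e2, e3, htz]

theorem be_nonneg {t z : ℤ} (hz : 0 ≤ z) : be K u ρ η (t, z) = bpos K u ρ η (t, z) := by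
  rw [be, if_neg (not_lt.2 hz)]

theorem be_bpos (h : Par K u ρ η) {p : ℤ × ℤ} (hp : S K u ρ η p) (hz : 0 ≤ p.2) :
    be K u ρ η (bpos K u ρ η p) = p := by
  have h' := h
  obtain ⟨hK, hu, hu', hρ, hρ', hη, hη'⟩ := h'
  obtain ⟨t, z⟩ := p
  simp only [S] at hp
  dsimp only at hz
  rcases hp with ⟨rfl, h1, h2⟩ | ⟨rfl, h1⟩ | ⟨h1, h2, h3, h4⟩
  · rcases hz.eq_or_lt with hz | hz
    · subst hz
      rw [bpos_a, be_nonneg le_rfl, bpos_h]
    · by_cases c1 : z = K + u + 1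
      · subst c1
        rcases bpos_b (K := K) (u := u) (ρ := ρ) (η := η) with h3 | h3
        · rw [h3, be_nonneg hz.le, h3]
        · omega
      · by_cases c2 : z ≤ K - u
        · by_cases c3 : Spec ρ η z
          · rw [bpos_c h hz c2 c3]
            simp only [Spec] at c3
            rw [be_nonneg (by omega), bpos_k (by omega) (by omega) (by omega)]
            congr 1
            omega
          · rw [bpos_d h hz c2 c3, be_nonneg hz.le, bpos_g]
        · by_cases c4 : z ≤ K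
          · rw [bpos_e h (by omega) c4, be_nonneg (by omega)]
            by_cases hu0 : u = 0
            · omega
            · rw [bpos_f h (by omega) (by omega)]
              congr 1
              omega
          · rw [bpos_f h (by omega) (by omega), be_nonneg (by omega),
              bpos_e h (by omega) (by omega)]
            congr 1
            omega
  · rw [bpos_g, be_nonneg hz]
    rcases h1 with ⟨h1, h2, h3⟩ | ⟨h1, h2, h3⟩
    · rw [bpos_d h (by omega) h2 h3]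
    · omega
  · rcases hz.eq_or_lt with hz | hz
    · subst hz
      rcases h1.eq_or_lt with h5 | h5
      · subst h5
        rw [bpos_h, be_nonneg le_rfl, bpos_a]
      · rw [bpos_i (by omega), be_nonneg le_rfl, bpos_i (by omega)]
    · by_cases c : t = 2 ∧ z = 1
      · obtain ⟨rfl, rfl⟩ := c
        rw [bpos_j, be, if_pos (by norm_num)]
        have : al ((2 : ℤ), (-1 : ℤ)) = (2, 1) := by simp [al]
        rw [this, bpos_j, this]
      · rw [bpos_k h1 hz c, be_nonneg (by omega), bpos_c h (by omega) (by omega)]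
        · ext <;> dsimp only <;> omega
        · simp only [Spec]
          omega

theorem be_be (h : Par K u ρ η) {p : ℤ × ℤ} (hp : S K u ρ η p) :
    be K u ρ η (be K u ρ η p) = p := by
  by_cases hz : p.2 < 0
  · have h1 : 0 ≤ (al p).2 := by simp only [al]; omega
    have h2 := be_bpos h (S_al hp) h1
    conv_lhs => rw [be.eq_def K u ρ η p, if_pos hz]
    rw [be_al h (S_bpos h (S_al hp) h1), h2, al_al]
  · conv_lhs => rw [be.eq_def K u ρ η p, if_neg hz]
    exact be_bpos h hp (not_lt.1 hz)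

end H47Cl.D
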