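import Mathlib
import Pool.Agent.H.MP_0335f8_cl.DFun

set_option linter.unusedSectionVars false
set_option linter.unusedSimpArgs false

/-!
# The permutations of the design
-/

namespace H47Cl.D

open Equiv

/-- the finite point set -/
noncomputable def pts (K u ρ η : ℤ) : Finset (ℤ × ℤ) :=
  ((Finset.Icc 0 (2 + ρ)) ×ˢ (Finset.Icc (-(K + u + 1)) (K + u + 1))).filter (S K u ρ η)

variable {K u ρ η : ℤ}

theorem mem_pts (h : Par K u ρ η) {p : ℤ × ℤ} : p ∈ pts K u ρ η ↔ S K u ρ η p := by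
  obtain ⟨hK, hu, hu', hρ, hρ', hη, hη'⟩ := h
  obtain ⟨t, z⟩ := p
  rw [pts, Finset.mem_filter, Finset.mem_product, Finset.mem_Icc, Finset.mem_Icc]
  constructor
  · exact fun hp => hp.2
  · intro hp
    refine ⟨?_, hp⟩
    simp only [S, Spec] at hp
    dsimp only
    omega

/-- the points -/
abbrev Pt (K u ρ η : ℤ) : Type := {p : ℤ × ℤ // p ∈ pts K u ρ η}

/-- a permutation from an involution of the point set -/
def mkP (f : ℤ × ℤ → ℤ × ℤ) (hf : ∀ p ∈ pts K u ρ η, f p ∈ pts K u ρ η)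
    (hff : ∀ p ∈ pts K u ρ η, f (f p) = p) : Perm (Pt K u ρ η) where
  toFun p := ⟨f p.1, hf p.1 p.2⟩
  invFun p := ⟨f p.1, hf p.1 p.2⟩
  left_inv p := Subtype.ext (hff p.1 p.2)
  right_inv p := Subtype.ext (hff p.1 p.2)

/-- first involution -/
def pα (h : Par K u ρ η) : Perm (Pt K u ρ η) :=
  mkP al (fun _ hp => (mem_pts h).2 (S_al ((mem_pts h).1 hp))) (fun p _ => al_al p)

/-- second involution -/
def pβ (h : Par K u ρ η) : Perm (Pt K u ρ η) :=
  mkP (be K u ρ η) (fun _ hp => (mem_pts h).2 (S_be h ((mem_pts h).1 hp)))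
    (fun _ hp => be_be h ((mem_pts h).1 hp))

/-- third involution -/
def pπ (h : Par K u ρ η) : Perm (Pt K u ρ η) :=
  mkP (pif K u η) (fun _ hp => (mem_pts h).2 (S_pif h ((mem_pts h).1 hp)))
    (fun _ hp => pif_pif h ((mem_pts h).1 hp))

theorem pα_val (h : Par K u ρ η) (p : Pt K u ρ η) : (pα h p).1 = al p.1 := rfl

theorem pβ_val (h : Par K u ρ η) (p : Pt K u ρ η) : (pβ h p).1 = be K u ρ η p.1 := rfl

theorem pπ_val (h : Par K u ρ η) (p : Pt K u ρ η) : (pπ h p).1 = pif K u η p.1 := rfl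

theorem pα_sq (h : Par K u ρ η) : pα h * pα h = 1 := by
  ext1 p
  exact Subtype.ext (al_al p.1)

theorem pβ_sq (h : Par K u ρ η) : pβ h * pβ h = 1 := by
  ext1 p
  exact Subtype.ext (be_be h ((mem_pts h).1 p.2))

theorem pπ_sq (h : Par K u ρ η) : pπ h * pπ h = 1 := by
  ext1 p
  exact Subtype.ext (pif_pif h ((mem_pts h).1 p.2))

theorem pαβ (h : Par K u ρ η) : pα h * pβ h = pβ h * pα h := by
  ext1 p
  exact Subtype.ext (be_al h ((mem_pts h).1 p.2)).symm

end H47Cl.D
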