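import Mathlib
import Pool.Agent.H.MP_0335f8_cl.DPerm

set_option linter.unusedSectionVars false
set_option linter.unusedSimpArgs false

/-!
# Cardinalities in the design (module DCard)
-/

namespace H47Cl.D

open Equiv

variable {K u ρ η : ℤ}

/-- The number of special indices. -/
theorem card_spec (h : Par K u ρ η) :
    (((Finset.Icc (1 : ℤ) (K - u)).filter (fun k => Spec ρ η k)).card : ℤ) =
      (ρ + 1) * η - 1 := by
  obtain ⟨hK, hu, hu', hρ, hρ', hη, hη'⟩ := h
  have e : (Finset.Icc (1 : ℤ) (K - u)).filter (fun k => Spec ρ η k) =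
      (Finset.Icc (1 : ℤ) 18).filter (fun k => Spec ρ η k) := by
    ext k
    simp only [Finset.mem_filter, Finset.mem_Icc, Spec]
    omega
  rw [e]
  have h1 : ρ = 0 ∨ ρ = 1 ∨ ρ = 2 ∨ ρ = 3 := by omega
  have h2 : η = 1 ∨ η = 2 := by omega
  rcases h1 with rfl | rfl | rfl | rfl <;> rcases h2 with rfl | rfl <;> decide

/-- The number of nonspecial indices. -/
theorem card_nonspec (h : Par K u ρ η) :
    (((Finset.Icc (1 : ℤ) (K - u)).filter (fun k => ¬ Spec ρ η k)).card : ℤ) =
      K - u - ((ρ + 1) * η - 1) := by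
  have h1 := Finset.card_filter_add_card_filter_not (s := Finset.Icc (1 : ℤ) (K - u))
    (fun k => Spec ρ η k)
  have h2 := card_spec h
  obtain ⟨hK, hu, hu', hρ, hρ', hη, hη'⟩ := h
  rw [Int.card_Icc] at h1
  omega

/-- The number of points.

Proof.  Biject `pts` with the disjoint union `Y` of `{0} × [-h, h]` (`h = K + u + 1`),
`{1} × [-(K-u), K-u]`, `{2} × {1, -1}` and `{3} × [1, ρ]`, which has
`(2h+1) + (2(K-u)+1) + 2 + ρ = 4K + 6 + ρ` elements.  Map a point `p = (t, z)` of `pts` to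
`(0, z)` if `t = 0`; otherwise to `(1, z')` if `be p = (0, z')`; otherwise `p` is `(2, 1)` or
`(2, -1)`, mapped to itself, or `(t, 0)` with `t ≥ 3`, mapped to `(3, t - 2)`.  The inverse map
sends `(0, z)` to itself, `(1, z)` to `be (0, z)`, `(2, z)` to itself, `(3, i)` to `(2 + i, 0)`.
Use `Finset.card_nbij'` or similar, and the evaluation lemmas `bpos_a` ... `bpos_k`,
`be_nonneg`, `be_al`, `be_be`.  (Any other way of counting is fine: for instance count the
nonspecial indices for the eight possible pairs `(ρ, η)`.) -/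
theorem card_pts (h : Par K u ρ η) : ((pts K u ρ η).card : ℤ) = 4 * K + 6 + ρ := by
  have hns := card_nonspec h
  set Q : Finset ℤ := (Finset.Icc (1 : ℤ) (K - u)).filter (fun k => ¬ Spec ρ η k) with hQ
  have hmem : ∀ p : ℤ × ℤ, p ∈ pts K u ρ η ↔ S K u ρ η p := fun p => mem_pts h
  obtain ⟨hK, hu, hu', hρ, hρ', hη, hη'⟩ := h
  have e : pts K u ρ η =
      ((({0} : Finset ℤ) ×ˢ Finset.Icc (-(K + u + 1)) (K + u + 1) ∪
        ({1} : Finset ℤ) ×ˢ Q) ∪ ({1} : Finset ℤ) ×ˢ (Q.image (fun z => -z))) ∪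
        Finset.Icc 2 (2 + ρ) ×ˢ Finset.Icc (-η) η := by
    ext ⟨t, z⟩
    rw [hmem]
    have hz : z ∈ Q.image (fun z => -z) ↔ -z ∈ Q := by
      rw [Finset.mem_image]
      constructor
      · rintro ⟨w, hw, rfl⟩
        rwa [neg_neg]
      · intro hw
        exact ⟨-z, hw, neg_neg z⟩
    have hz' : z ∈ Q ↔ (1 ≤ z ∧ z ≤ K - u) ∧ ¬ Spec ρ η z := by
      rw [hQ, Finset.mem_filter, Finset.mem_Icc]
    have hz'' : -z ∈ Q ↔ (1 ≤ -z ∧ -z ≤ K - u) ∧ ¬ Spec ρ η (-z) := by
      rw [hQ, Finset.mem_filter, Finset.mem_Icc]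
    simp only [Finset.mem_union, Finset.mem_product, Finset.mem_singleton, Finset.mem_Icc, hz, S,
      hz', hz'']
    by_cases c1 : Spec ρ η z <;> by_cases c2 : Spec ρ η (-z) <;> 
      simp only [c1, c2, not_true_eq_false, not_false_eq_true, and_true, and_false, or_false,
        false_or] <;> omega
  have d1 : Disjoint (({0} : Finset ℤ) ×ˢ Finset.Icc (-(K + u + 1)) (K + u + 1))
      (({1} : Finset ℤ) ×ˢ Q) := by
    rw [Finset.disjoint_left]
    rintro ⟨t, z⟩ h1 h2
    simp only [Finset.mem_product, Finset.mem_singleton] at h1 h2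
    omega
  have d2 : Disjoint (({0} : Finset ℤ) ×ˢ Finset.Icc (-(K + u + 1)) (K + u + 1) ∪
      ({1} : Finset ℤ) ×ˢ Q) (({1} : Finset ℤ) ×ˢ (Q.image (fun z => -z))) := by
    rw [Finset.disjoint_left]
    rintro ⟨t, z⟩ h1 h2
    simp only [Finset.mem_union, Finset.mem_product, Finset.mem_singleton, Finset.mem_image,
      hQ, Finset.mem_filter, Finset.mem_Icc] at h1 h2
    obtain ⟨ht, w, ⟨⟨hw1, hw2⟩, hw3⟩, rfl⟩ := h2
    omega
  have d3 : Disjoint ((({0} : Finset ℤ) ×ˢ Finset.Icc (-(K + u + 1)) (K + u + 1) ∪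
      ({1} : Finset ℤ) ×ˢ Q) ∪ ({1} : Finset ℤ) ×ˢ (Q.image (fun z => -z)))
      (Finset.Icc 2 (2 + ρ) ×ˢ Finset.Icc (-η) η) := by
    rw [Finset.disjoint_left]
    rintro ⟨t, z⟩ h1 h2
    simp only [Finset.mem_union, Finset.mem_product, Finset.mem_singleton, Finset.mem_Icc]
      at h1 h2
    omega
  have hneg : (Q.image (fun z => -z)).card = Q.card :=
    Finset.card_image_of_injective _ neg_injective
  rw [e, Finset.card_union_of_disjoint d3, Finset.card_union_of_disjoint d2,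
    Finset.card_union_of_disjoint d1]
  simp only [Finset.card_product, Finset.card_singleton, Int.card_Icc, hneg, one_mul]
  push_cast
  rw [hns, Int.toNat_of_nonneg (by omega), Int.toNat_of_nonneg (by omega),
    Int.toNat_of_nonneg (by omega)]
  ring

end H47Cl.D
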