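import Mathlib
import Pool.Agent.H.MP_0335f8_cl.DPerm

set_option linter.unusedSectionVars false
set_option linter.unusedSimpArgs false

/-!
# Fixed points in the design (module DFix)
-/

namespace H47Cl.D

open Equiv

variable {K u ρ η : ℤ}

private theorem dfix_card (g : Perm (Pt K u ρ η)) (f : ℤ × ℤ → ℤ × ℤ)
    (hg : ∀ x : Pt K u ρ η, (g x).1 = f x.1) (T : Finset (ℤ × ℤ))
    (hT : ∀ p, p ∈ T ↔ p ∈ pts K u ρ η ∧ f p = p) :
    (Finset.univ.filter (fun x : Pt K u ρ η => g x = x)).card = T.card := by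
  refine Finset.card_bij (fun x _ => x.1) ?_ ?_ ?_
  · intro x hx
    have h1 : g x = x := (Finset.mem_filter.1 hx).2
    refine (hT x.1).2 ⟨x.2, ?_⟩
    rw [← hg, h1]
  · intro x _ y _ hxy
    exact Subtype.ext hxy
  · intro p hp
    obtain ⟨h1, h2⟩ := (hT p).1 hp
    refine ⟨⟨p, h1⟩, Finset.mem_filter.2 ⟨Finset.mem_univ _, Subtype.ext ?_⟩, rfl⟩
    rw [hg]
    exact h2

private theorem dfix_img (a b c : ℤ) (h : a ≤ b + 1) :
    (((Finset.Icc a b).image fun t : ℤ => (t, c)).card : ℤ) = b + 1 - a := by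
  rw [Finset.card_image_of_injective _ (fun x y hxy => congrArg Prod.fst hxy), Int.card_Icc]
  omega

private theorem dfix_mem_img (a b c : ℤ) (p : ℤ × ℤ) :
    p ∈ (Finset.Icc a b).image (fun t : ℤ => (t, c)) ↔ a ≤ p.1 ∧ p.1 ≤ b ∧ p.2 = c := by
  simp only [Finset.mem_image, Finset.mem_Icc]
  constructor
  · rintro ⟨t, ⟨h1, h2⟩, rfl⟩
    exact ⟨h1, h2, rfl⟩
  · rintro ⟨h1, h2, h3⟩
    exact ⟨p.1, ⟨h1, h2⟩, by rw [← h3]⟩

/-- Fixed points of `α`: the points `(0, 0)` and `(2 + i, 0)`, `0 ≤ i ≤ ρ`. -/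
theorem fix_α (h : Par K u ρ η) :
    ((Finset.univ.filter (fun x : Pt K u ρ η => pα h x = x)).card : ℤ) = ρ + 2 := by
  classical
  rw [dfix_card (pα h) al (pα_val h)
    (insert (0, 0) ((Finset.Icc 2 (2 + ρ)).image fun t : ℤ => (t, (0 : ℤ))))]
  · rw [Finset.card_insert_of_notMem, Nat.cast_add, dfix_img]
    · push_cast
      ring
    · have := h.hρ
      omega
    · rw [dfix_mem_img]
      omega
  · rintro ⟨t, z⟩
    rw [mem_pts h, Finset.mem_insert, dfix_mem_img]
    obtain ⟨hK, hu, hu', hρ, hρ', hη, hη'⟩ := h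
    simp only [S, Spec, al, Prod.mk.injEq, true_and]
    omega

private theorem dfix_bpos (h : Par K u ρ η) {t z : ℤ} (hp : S K u ρ η (t, z)) (hz : 0 ≤ z) :
    bpos K u ρ η (t, z) = (t, z) ↔ (t = 0 ∧ z = K + u + 1) ∨ (3 ≤ t ∧ z = 0) := by
  obtain ⟨hK, hu, hu', hρ, hρ', hη, hη'⟩ := h
  simp only [S, Spec] at hp
  dsimp only [bpos]
  split_ifs <;> simp only [Prod.mk.injEq, Spec, true_and, and_true, true_iff, iff_true] at * <;> omega

private theorem dfix_be (h : Par K u ρ η) {t z : ℤ} (hp : S K u ρ η (t, z)) :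
    be K u ρ η (t, z) = (t, z) ↔ (t = 0 ∧ z = K + u + 1) ∨ (t = 0 ∧ z = -(K + u + 1)) ∨
      (3 ≤ t ∧ z = 0) := by
  rcases lt_or_ge z 0 with hz | hz
  · rw [be, if_pos (show (t, z).2 < 0 from hz)]
    have h1 : al (bpos K u ρ η (al (t, z))) = (t, z) ↔ bpos K u ρ η (t, -z) = (t, -z) := by
      constructor
      · intro h2
        have h3 := congrArg al h2
        rw [al_al] at h3
        exact h3
      · intro h2
        have h3 : al (t, z) = (t, -z) := rfl
        rw [h3, h2]
        simp [al]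
    rw [h1, dfix_bpos h (S_al hp) (by omega)]
    have := h.hK
    have := h.hu
    omega
  · rw [be_nonneg hz, dfix_bpos h hp hz]
    have := h.hK
    have := h.hu
    omega

private theorem dfix_card_two (a b : ℤ × ℤ) (hab : a ≠ b) (T : Finset (ℤ × ℤ)) (ha : a ∉ T)
    (hb : b ∉ T) : ((insert a (insert b T)).card : ℤ) = T.card + 2 := by
  rw [Finset.card_insert_of_notMem, Finset.card_insert_of_notMem hb]
  · push_cast
    ring
  · rw [Finset.mem_insert, not_or]
    exact ⟨hab, ha⟩

/-- Fixed points of `β`: the points `(0, h)`, `(0, -h)` (`h = K + u + 1`) and `(2 + i, 0)`,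
`1 ≤ i ≤ ρ`. -/
theorem fix_β (h : Par K u ρ η) :
    ((Finset.univ.filter (fun x : Pt K u ρ η => pβ h x = x)).card : ℤ) = ρ + 2 := by
  classical
  have hK := h.hK
  have hu := h.hu
  have hρ := h.hρ
  have hη := h.hη
  rw [dfix_card (pβ h) (be K u ρ η) (pβ_val h)
    (insert (0, K + u + 1) (insert (0, -(K + u + 1))
      ((Finset.Icc 3 (2 + ρ)).image fun t : ℤ => (t, (0 : ℤ)))))]
  · rw [dfix_card_two, dfix_img]
    · ring
    · omega
    · intro h1
      have h2 := congrArg Prod.snd h1
      dsimp only at h2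
      omega
    · rw [dfix_mem_img]
      omega
    · rw [dfix_mem_img]
      omega
  · rintro ⟨t, z⟩
    rw [mem_pts h, Finset.mem_insert, Finset.mem_insert, dfix_mem_img]
    constructor
    · intro h1
      have hS : S K u ρ η (t, z) := by
        simp only [S, Spec, Prod.mk.injEq] at h1 ⊢
        omega
      refine ⟨hS, (dfix_be h hS).2 ?_⟩
      simp only [Prod.mk.injEq] at h1
      omega
    · rintro ⟨hS, h1⟩
      rw [dfix_be h hS] at h1
      simp only [S, Spec, Prod.mk.injEq] at hS ⊢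
      omega

private theorem dfix_albpos (h : Par K u ρ η) {t z : ℤ} (hp : S K u ρ η (t, z)) (hz : 0 ≤ z) :
    al (bpos K u ρ η (t, z)) = (t, z) ↔ (t = 2 ∧ z = 1) ∨ (3 ≤ t ∧ z = 0) := by
  obtain ⟨hK, hu, hu', hρ, hρ', hη, hη'⟩ := h
  simp only [S, Spec] at hp
  dsimp only [bpos]
  split_ifs <;> simp only [al, Prod.mk.injEq, Spec, true_and, and_true, true_iff, iff_true] at * <;> omega

/-- Fixed points of `α β`: the points `(2, 1)`, `(2, -1)` and `(2 + i, 0)`, `1 ≤ i ≤ ρ`.
(For `z > 0` the point `be (t, z)` has second coordinate `≥ 0` except for `(2, 1)`, and it is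
never `(t, -z)` otherwise.) -/
theorem fix_αβ (h : Par K u ρ η) :
    ((Finset.univ.filter (fun x : Pt K u ρ η => (pα h * pβ h) x = x)).card : ℤ) = ρ + 2 := by
  classical
  have hK := h.hK
  have hu := h.hu
  have hρ := h.hρ
  have hη := h.hη
  rw [dfix_card (pα h * pβ h) (fun p => al (be K u ρ η p)) (fun x => rfl)
    (insert (2, 1) (insert (2, -1)
      ((Finset.Icc 3 (2 + ρ)).image fun t : ℤ => (t, (0 : ℤ)))))]
  · rw [dfix_card_two, dfix_img]
    · ring
    · omega
    · intro h1
      have h2 := congrArg Prod.snd h1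
      dsimp only at h2
      omega
    · rw [dfix_mem_img]
      omega
    · rw [dfix_mem_img]
      omega
  · have key : ∀ t z : ℤ, S K u ρ η (t, z) → (al (be K u ρ η (t, z)) = (t, z) ↔
        (t = 2 ∧ z = 1) ∨ (t = 2 ∧ z = -1) ∨ (3 ≤ t ∧ z = 0)) := by
      intro t z hS
      rcases lt_or_ge z 0 with hz | hz
      · have h0 : al (t, z) = (t, -z) := rfl
        have h1 : al (be K u ρ η (t, z)) = (t, z) ↔ al (bpos K u ρ η (t, -z)) = (t, -z) := by
          rw [be, if_pos (show (t, z).2 < 0 from hz), al_al, h0]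
          constructor
          · intro h2
            rw [h2]
            rfl
          · intro h2
            have h3 := congrArg al h2
            rw [al_al] at h3
            rw [h3]
            simp [al]
        rw [h1, dfix_albpos h (S_al hS) (by omega)]
        omega
      · rw [be_nonneg hz, dfix_albpos h hS hz]
        omega
    rintro ⟨t, z⟩
    rw [mem_pts h, Finset.mem_insert, Finset.mem_insert, dfix_mem_img]
    constructor
    · intro h1
      have hS : S K u ρ η (t, z) := by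
        simp only [S, Spec, Prod.mk.injEq] at h1 ⊢
        omega
      refine ⟨hS, (key t z hS).2 ?_⟩
      simp only [Prod.mk.injEq] at h1
      omega
    · rintro ⟨hS, h1⟩
      rw [key t z hS] at h1
      simp only [S, Spec, Prod.mk.injEq] at hS ⊢
      omega

/-- Fixed points of `π`: the points `(0, -h)` and `(2 + i, -η)`, `0 ≤ i ≤ ρ`
(`1 - z = z` is impossible for integers, and `(1, 0)` is not a point). -/
theorem fix_π (h : Par K u ρ η) :
    ((Finset.univ.filter (fun x : Pt K u ρ η => pπ h x = x)).card : ℤ) = ρ + 2 := by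
  classical
  have hK := h.hK
  have hu := h.hu
  have hρ := h.hρ
  have hη := h.hη
  rw [dfix_card (pπ h) (pif K u η) (pπ_val h)
    (insert (0, -(K + u + 1)) ((Finset.Icc 2 (2 + ρ)).image fun t : ℤ => (t, -η)))]
  · rw [Finset.card_insert_of_notMem, Nat.cast_add, dfix_img]
    · push_cast
      ring
    · omega
    · rw [dfix_mem_img]
      omega
  · rintro ⟨t, z⟩
    rw [mem_pts h, Finset.mem_insert, dfix_mem_img]
    simp only [S, Spec, Prod.mk.injEq]
    dsimp only [pif]
    split_ifs <;> simp only [Prod.mk.injEq, true_and, and_true, true_iff, iff_true] at * <;> omega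

end H47Cl.D
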