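import Mathlib
import Pool.Agent.H.MP_0335f8_cl.DPerm

set_option linter.unusedSectionVars false
set_option linter.unusedSimpArgs false

/-!
# Powers of `π α` in the design (module DPow)
-/

namespace H47Cl.D

open Equiv

variable {K u ρ η : ℤ}

/-- One step. -/
theorem DPow_step (h : Par K u ρ η) (p : Pt K u ρ η) :
    ((pπ h * pα h) p).1.1 = p.1.1 ∧
    (p.1.1 = 0 → (2 * (K + u + 1) + 1) ∣ (((pπ h * pα h) p).1.2 - (p.1.2 + 1))) ∧
    (p.1.1 = 1 → ((pπ h * pα h) p).1.2 = p.1.2) ∧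
    (2 ≤ p.1.1 → (2 * η + 1) ∣ (((pπ h * pα h) p).1.2 - (p.1.2 + 1))) := by
  have h1 : ((pπ h * pα h) p).1 = pif K u η (al p.1) := rfl
  rw [h1]
  obtain ⟨⟨t, z⟩, hp⟩ := p
  dsimp only [al, pif]
  by_cases t1 : t = 1
  · rw [if_pos t1]
    refine ⟨t1.symm, fun h0 => absurd (t1.symm.trans h0) one_ne_zero, fun _ => neg_neg z,
      fun h2 => ?_⟩
    omega
  · rw [if_neg t1]
    by_cases t0 : t = 0
    · rw [if_pos t0]
      by_cases hz : -z = -(K + u + 1)
      · rw [if_pos hz]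
        refine ⟨rfl, fun _ => ⟨-1, ?_⟩, fun h2 => absurd h2 t1, fun h2 => ?_⟩
        · linarith
        · omega
      · rw [if_neg hz]
        refine ⟨t0.symm, fun _ => ⟨0, ?_⟩, fun h2 => absurd h2 t1, fun h2 => ?_⟩
        · ring
        · omega
    · rw [if_neg t0]
      by_cases hz : -z = -η
      · rw [if_pos hz]
        refine ⟨rfl, fun h2 => absurd h2 t0, fun h2 => absurd h2 t1, fun _ => ⟨-1, ?_⟩⟩
        dsimp only
        linarith
      · rw [if_neg hz]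
        refine ⟨rfl, fun h2 => absurd h2 t0, fun h2 => absurd h2 t1, fun _ => ⟨0, ?_⟩⟩
        dsimp only
        ring

/-- The range of the coordinates. -/
theorem DPow_range (h : Par K u ρ η) (p : Pt K u ρ η) :
    (p.1.1 = 0 ∧ -(K + u + 1) ≤ p.1.2 ∧ p.1.2 ≤ K + u + 1) ∨ p.1.1 = 1 ∨
      (2 ≤ p.1.1 ∧ -η ≤ p.1.2 ∧ p.1.2 ≤ η) := by
  have h1 := (mem_pts h).1 p.2
  simp only [S] at h1
  tauto

/-- Two numbers in `[-h, h]` whose difference is divisible by `2 h + 1` are equal. -/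
theorem DPow_eq {m a b : ℤ} (h1 : (2 * m + 1) ∣ (a - b)) (ha : -m ≤ a) (ha' : a ≤ m)
    (hb : -m ≤ b) (hb' : b ≤ m) : a = b := by
  have h2 : a - b = 0 := by
    apply Int.eq_zero_of_abs_lt_dvd h1
    rw [abs_lt]
    constructor <;> linarith
  linarith

/-- Powers of `δ = π α`.  `δ` maps `(0, z)` to `(0, z + 1)` (and `(0, h)` to `(0, -h)`,
`h = K + u + 1`), fixes the points `(1, z)`, and maps `(t, z)`, `t ≥ 2`, to `(t, z + 1)`
(and `(t, η)` to `(t, -η)`).  By induction on `n`: the tag is preserved, and the second coordinate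
is `z + n` modulo `2h + 1`, resp. modulo `2 η + 1`. -/
theorem pow_val (h : Par K u ρ η) (n : ℕ) (p : Pt K u ρ η) :
    (((pπ h * pα h) ^ n) p).1.1 = p.1.1 ∧
    (p.1.1 = 0 → (2 * (K + u + 1) + 1) ∣ ((((pπ h * pα h) ^ n) p).1.2 - (p.1.2 + n))) ∧
    (p.1.1 = 1 → (((pπ h * pα h) ^ n) p).1.2 = p.1.2) ∧
    (2 ≤ p.1.1 → (2 * η + 1) ∣ ((((pπ h * pα h) ^ n) p).1.2 - (p.1.2 + n))) := by
  induction n with
  | zero =>
    refine ⟨rfl, fun _ => ⟨0, ?_⟩, fun _ => rfl, fun _ => ⟨0, ?_⟩⟩ <;>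
      simp [pow_zero]
  | succ n ih =>
    obtain ⟨i1, i2, i3, i4⟩ := ih
    have e : ((pπ h * pα h) ^ (n + 1)) p = (pπ h * pα h) (((pπ h * pα h) ^ n) p) := by
      rw [pow_succ']
      rfl
    rw [e]
    obtain ⟨j1, j2, j3, j4⟩ := DPow_step h (((pπ h * pα h) ^ n) p)
    rw [i1] at j1 j2 j3 j4
    refine ⟨j1, fun h0 => ?_, fun h0 => ?_, fun h0 => ?_⟩
    · have h3 := dvd_add (j2 h0) (i2 h0)
      have h4 : ((pπ h * pα h) (((pπ h * pα h) ^ n) p)).1.2 - (p.1.2 + ((n + 1 : ℕ) : ℤ)) =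
        ((pπ h * pα h) (((pπ h * pα h) ^ n) p)).1.2 - ((((pπ h * pα h) ^ n) p).1.2 + 1) +
          ((((pπ h * pα h) ^ n) p).1.2 - (p.1.2 + n)) := by
        push_cast
        ring
      rw [h4]
      exact h3
    · rw [j3 h0, i3 h0]
    · have h3 := dvd_add (j4 h0) (i4 h0)
      have h4 : ((pπ h * pα h) (((pπ h * pα h) ^ n) p)).1.2 - (p.1.2 + ((n + 1 : ℕ) : ℤ)) =
        ((pπ h * pα h) (((pπ h * pα h) ^ n) p)).1.2 - ((((pπ h * pα h) ^ n) p).1.2 + 1) +
          ((((pπ h * pα h) ^ n) p).1.2 - (p.1.2 + n)) := by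
        push_cast
        ring
      rw [h4]
      exact h3

/-- `(π α) ^ (L ℓ) = 1` with `L = 2 h + 1`, `ℓ = 2 η + 1` (from `pow_val`: the difference of two
coordinates in `[-h, h]` which is divisible by `2h+1` is zero). -/
theorem pow_one (h : Par K u ρ η) (N : ℕ) (hN : (N : ℤ) = (2 * (K + u + 1) + 1) * (2 * η + 1)) :
    (pπ h * pα h) ^ N = 1 := by
  have hL : (2 * (K + u + 1) + 1) ∣ (N : ℤ) := ⟨_, hN⟩
  have hl : (2 * η + 1) ∣ (N : ℤ) := ⟨_, hN.trans (mul_comm _ _)⟩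
  ext1 p
  apply Subtype.ext
  obtain ⟨j1, j2, j3, j4⟩ := pow_val h N p
  have hr := DPow_range h p
  have hr' := DPow_range h (((pπ h * pα h) ^ N) p)
  rw [j1] at hr'
  apply Prod.ext
  · exact j1
  · show ((((pπ h * pα h) ^ N) p).1).2 = p.1.2
    rcases hr with ⟨h0, h1, h2⟩ | h0 | ⟨h0, h1, h2⟩
    · rcases hr' with ⟨-, h3, h4⟩ | h5 | ⟨h5, -⟩
      · refine DPow_eq ?_ h3 h4 h1 h2
        have h6 := dvd_add (j2 h0) hL
        have h7 : (((pπ h * pα h) ^ N) p).1.2 - p.1.2 =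
          (((pπ h * pα h) ^ N) p).1.2 - (p.1.2 + N) + N := by ring
        rw [h7]
        exact h6
      · omega
      · omega
    · exact j3 h0
    · rcases hr' with ⟨h5, -⟩ | h5 | ⟨-, h3, h4⟩
      · omega
      · omega
      · refine DPow_eq ?_ h3 h4 h1 h2
        have h6 := dvd_add (j4 h0) hl
        have h7 : (((pπ h * pα h) ^ N) p).1.2 - p.1.2 =
          (((pπ h * pα h) ^ N) p).1.2 - (p.1.2 + N) + N := by ring
        rw [h7]
        exact h6

/-- An exponent `M` with `M ≡ 0 mod L` and `M ≡ 1 mod ℓ` gives a power which is trivial on the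
points with tag `0` or `1` and equals `π α` on the others. -/
theorem pow_ζ (h : Par K u ρ η) (M : ℕ) (h1 : (2 * (K + u + 1) + 1) ∣ (M : ℤ))
    (h2 : (2 * η + 1) ∣ ((M : ℤ) - 1)) (p : Pt K u ρ η) :
    (p.1.1 < 2 → ((pπ h * pα h) ^ M) p = p) ∧
    (2 ≤ p.1.1 → ((pπ h * pα h) ^ M) p = (pπ h * pα h) p) := by
  obtain ⟨j1, j2, j3, j4⟩ := pow_val h M p
  obtain ⟨k1, -, -, k4⟩ := DPow_step h p
  have hr := DPow_range h p
  have hr' := DPow_range h (((pπ h * pα h) ^ M) p)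
  have hs := DPow_range h ((pπ h * pα h) p)
  rw [j1] at hr'
  rw [k1] at hs
  constructor
  · intro ht
    apply Subtype.ext
    apply Prod.ext
    · exact j1
    · rcases hr with ⟨h0, h3, h4⟩ | h0 | ⟨h0, -⟩
      · rcases hr' with ⟨-, h5, h6⟩ | h5 | ⟨h5, -⟩
        · refine DPow_eq ?_ h5 h6 h3 h4
          have h8 := dvd_add (j2 h0) h1
          have h7 : (((pπ h * pα h) ^ M) p).1.2 - p.1.2 =
            (((pπ h * pα h) ^ M) p).1.2 - (p.1.2 + M) + M := by ring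
          rw [h7]
          exact h8
        · omega
        · omega
      · exact j3 h0
      · omega
  · intro ht
    apply Subtype.ext
    apply Prod.ext
    · exact j1.trans k1.symm
    · rcases hr' with ⟨h5, -⟩ | h5 | ⟨-, h3, h4⟩
      · omega
      · omega
      · rcases hs with ⟨h5, -⟩ | h5 | ⟨-, h6, h7⟩
        · omega
        · omega
        · refine DPow_eq ?_ h3 h4 h6 h7
          have h8 := dvd_sub (dvd_add (j4 ht) h2) (k4 ht)
          have h9 : (((pπ h * pα h) ^ M) p).1.2 - ((pπ h * pα h) p).1.2 =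
            (((pπ h * pα h) ^ M) p).1.2 - (p.1.2 + M) + (M - 1) -
              (((pπ h * pα h) p).1.2 - (p.1.2 + 1)) := by ring
          rw [h9]
          exact h8

end H47Cl.D
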