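import Mathlib
import Pool.Agent.H.MP_0335f8_cl.DPerm

set_option linter.unusedSectionVars false
set_option linter.unusedSimpArgs false

/-!
# Transitivity in the design (module DTrans)
-/

namespace H47Cl.D

open Equiv

variable {K u ρ η : ℤ}

/-- the orbit of a point -/
private def DTransO (h : Par K u ρ η) (o : Pt K u ρ η) (p : ℤ × ℤ) : Prop :=
  ∃ hp : p ∈ pts K u ρ η,
    ∃ g ∈ Subgroup.closure ({pα h, pβ h, pπ h} : Set (Perm (Pt K u ρ η))), g o = ⟨p, hp⟩

private theorem DTrans_step (h : Par K u ρ η) {o : Pt K u ρ η} {p : ℤ × ℤ}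
    {s : Perm (Pt K u ρ η)} (hs : s ∈ ({pα h, pβ h, pπ h} : Set (Perm (Pt K u ρ η))))
    (f : ℤ × ℤ → ℤ × ℤ) (hf : ∀ x, (s x).1 = f x.1) (hp : DTransO h o p) :
    DTransO h o (f p) := by
  obtain ⟨hp, g, hg, h1⟩ := hp
  have h2 : (s ⟨p, hp⟩).1 = f p := hf ⟨p, hp⟩
  refine ⟨h2 ▸ (s ⟨p, hp⟩).2, s * g, mul_mem (Subgroup.subset_closure hs) hg, ?_⟩
  rw [Perm.mul_apply, h1]
  exact Subtype.ext h2

private theorem DTrans_al (h : Par K u ρ η) {o : Pt K u ρ η} {t z : ℤ}
    (hp : DTransO h o (t, z)) : DTransO h o (t, -z) :=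
  DTrans_step h (s := pα h) (by simp) al (fun _ => rfl) hp

private theorem DTrans_be (h : Par K u ρ η) {o : Pt K u ρ η} {p : ℤ × ℤ}
    (hp : DTransO h o p) : DTransO h o (be K u ρ η p) :=
  DTrans_step h (s := pβ h) (by simp) (be K u ρ η) (fun _ => rfl) hp

private theorem DTrans_pi (h : Par K u ρ η) {o : Pt K u ρ η} {p : ℤ × ℤ}
    (hp : DTransO h o p) : DTransO h o (pif K u η p) :=
  DTrans_step h (s := pπ h) (by simp) (pif K u η) (fun _ => rfl) hp

private theorem DTrans_line (h : Par K u ρ η) {o : Pt K u ρ η} {t B : ℤ} (ht : t ≠ 1)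
    (hB : B = if t = 0 then K + u + 1 else η) (h0 : DTransO h o (t, 0)) (z : ℤ)
    (h1 : -B ≤ z) (h2 : z ≤ B) : DTransO h o (t, z) := by
  have key : ∀ m : ℕ, (m : ℤ) ≤ B → DTransO h o (t, (m : ℤ)) := by
    intro m
    induction m with
    | zero => intro _; simpa using h0
    | succ m ih =>
      intro hm
      push_cast at hm ⊢
      have h3 := DTrans_pi h (DTrans_al h (ih (by omega)))
      have h4 : pif K u η (t, -(m : ℤ)) = (t, (m : ℤ) + 1) := by
        by_cases ht0 : t = 0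
        · subst ht0
          rw [if_pos rfl] at hB
          have h5 : ¬ (-(m : ℤ) = -(K + u + 1)) := by omega
          simp only [pif, h5, if_false, if_true, zero_ne_one]
          ext <;> simp [add_comm]
        · rw [if_neg ht0] at hB
          have h5 : ¬ (-(m : ℤ) = -η) := by omega
          simp only [pif, h5, if_false, ht0, ht]
          ext <;> simp [add_comm]
      rwa [h4] at h3
  rcases le_total 0 z with hz | hz
  · have h3 := key z.toNat (by omega)
    rwa [Int.toNat_of_nonneg hz] at h3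
  · have h3 := DTrans_al h (key (-z).toNat (by omega))
    rwa [Int.toNat_of_nonneg (by omega), neg_neg] at h3

private theorem DTrans_all (h : Par K u ρ η) {o : Pt K u ρ η} (h0 : DTransO h o (0, 0))
    {p : ℤ × ℤ} (hp : S K u ρ η p) : DTransO h o p := by
  have h' := h
  obtain ⟨hK, hu, hu', hρ, hρ', hη, hη'⟩ := h'
  have hl : ∀ z, -(K + u + 1) ≤ z → z ≤ K + u + 1 → DTransO h o (0, z) := by
    intro z h1 h2
    exact DTrans_line h (B := K + u + 1) (by norm_num) (by simp) h0 z h1 h2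
  obtain ⟨t, z⟩ := p
  simp only [S] at hp
  rcases hp with ⟨rfl, h1, h2⟩ | ⟨rfl, h1⟩ | ⟨h1, h2, h3, h4⟩
  · exact hl z h1 h2
  · have key : ∀ z, 1 ≤ z → z ≤ K - u → ¬ Spec ρ η z → DTransO h o (1, z) := by
      intro z h2 h3 h4
      have h5 := DTrans_be h (hl z (by omega) (by omega))
      rwa [be_nonneg (by omega), bpos_d h (by omega) h3 h4] at h5
    rcases h1 with ⟨h1, h2, h3⟩ | ⟨h1, h2, h3⟩
    · exact key z h1 h2 h3
    · have h4 := DTrans_al h (key (-z) h1 h2 h3)
      rwa [neg_neg] at h4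
  · have ht0 : t ≠ 0 := by omega
    have ht1 : t ≠ 1 := by omega
    have hz0 : DTransO h o (t, 0) := by
      rcases h1.eq_or_lt with h5 | h5
      · subst h5
        have h6 := DTrans_be h h0
        rwa [be_nonneg le_rfl, bpos_a] at h6
      · have h6 := DTrans_be h (hl (4 * (t - 2) + 3) (by omega) (by omega))
        rw [be_nonneg (by omega), bpos_c h (by omega) (by omega) (by
          simp only [Spec]; omega)] at h6
        have e1 : 2 + (4 * (t - 2) + 3 - 2) / 4 = t := by omega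
        have e2 : (4 * (t - 2) + 3 - 2) % 4 = 1 := by omega
        rw [e1, e2] at h6
        have h7 := DTrans_pi h h6
        have h8 : pif K u η (t, 1) = (t, 0) := by
          have h5 : ¬ ((1 : ℤ) = -η) := by omega
          simp only [pif, h5, if_false, ht0, ht1]
          ext <;> simp
        rwa [h8] at h7
    exact DTrans_line h (B := η) ht1 (by simp [ht0]) hz0 z h3 h4

/-- transitivity.

Proof.  With `c = (2, -1)`.  The relation `x ~ y` iff `∃ g ∈ closure, g x = y` is an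
equivalence relation.  Every point is equivalent to `(0, 0)`: `(0, z) ~ (0, -z)` by `α` and
`(0, z) ~ (0, 1 - z)` by `π` (`z ≠ -h`), so by induction all `(0, z)` are equivalent; `(1, z)` is
mapped by `β` to `(0, z)`; `(t, z)` with `t ≥ 2`: `(t, z) ~ (t, -z)`, `(t, z) ~ (t, 1 - z)`
(`z ≠ -η`), so all `(t, z)` with the same `t` are equivalent, `(2, 0)` is mapped by `β` to
`(0, 0)` and `(t, 1)`, `t ≥ 3`, is mapped by `β` to `(0, 4 (t - 2) + 3)` (`bpos_k`). -/
theorem trans (h : Par K u ρ η) (c x : Pt K u ρ η) :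
    ∃ g ∈ Subgroup.closure ({pα h, pβ h, pπ h} : Set (Perm (Pt K u ρ η))), g c = x := by
  have hS : S K u ρ η (0, 0) := by
    obtain ⟨hK, hu, hu', hρ, hρ', hη, hη'⟩ := h
    left
    exact ⟨rfl, by dsimp only; omega, by dsimp only; omega⟩
  have hx : ∀ x : Pt K u ρ η, ∃ g ∈ Subgroup.closure
      ({pα h, pβ h, pπ h} : Set (Perm (Pt K u ρ η))),
      g ⟨(0, 0), (mem_pts h).2 hS⟩ = x := by
    intro x
    obtain ⟨_, g, hg, h1⟩ := DTrans_all h (o := ⟨(0, 0), (mem_pts h).2 hS⟩)
      ⟨(mem_pts h).2 hS, 1, one_mem _, rfl⟩ ((mem_pts h).1 x.2)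
    exact ⟨g, hg, h1⟩
  obtain ⟨g, hg, h1⟩ := hx c
  obtain ⟨g', hg', h2⟩ := hx x
  refine ⟨g' * g⁻¹, mul_mem hg' (inv_mem hg), ?_⟩
  rw [Perm.mul_apply, ← h1, ← Perm.mul_apply g⁻¹ g, inv_mul_cancel, Perm.one_apply, h2]

end H47Cl.D
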