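import Mathlib

/-!
# A primitivity criterion with a three cycle (module Prim)
-/

namespace H47Cl

open Equiv MulAction
open scoped commutatorElement Pointwise

private theorem Prim_inv {X : Type*} (u : Perm X) (x : X) : u⁻¹ (u x) = x := u.symm_apply_apply x

private theorem Prim_inv' {X : Type*} (u : Perm X) (x : X) : u (u⁻¹ x) = x := u.apply_symm_apply x

/-- If the supports of `s` and `t` meet in a single point `c` then `[s, t]` is a `3`-cycle with
`c ↦ s c ↦ t c ↦ c`.

Proof.  Let `r = s t s⁻¹ t⁻¹`.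
* `c`: `t⁻¹ c` is in the support of `t` and `≠ c`, so fixed by `s` and `s⁻¹`; hence
  `r c = s (t (t⁻¹ c)) = s c`.
* `s c`: it is in the support of `s`, `≠ c`, so fixed by `t`; `r (s c) = s t s⁻¹ (s c) = s (t c)`,
  and `t c` is in the support of `t`, `≠ c`, so fixed by `s`: `r (s c) = t c`.
* `t c`: `t⁻¹ (t c) = c`, `s⁻¹ c` is in the support of `s`, `≠ c`, so fixed by `t`;
  `r (t c) = s (s⁻¹ c) = c`.
* other `x` are fixed: if `t x = x` and `s x = x` clear.  If `t x = x`, `s x ≠ x`: `s⁻¹ x` is in
  the support of `s` and `≠ c` (as `x ≠ s c`), so fixed by `t`; `r x = s (s⁻¹ x) = x`.  If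
  `t x ≠ x`, then (`x ≠ c`) `s x = x`, `y = t⁻¹ x` is in the support of `t`, `≠ c` (as `x ≠ t c`),
  so fixed by `s⁻¹`, `r x = s (t y) = s x = x`.
So `r = swap c (s c) * swap c (t c)` or similar (check on points), a three cycle by
`Equiv.Perm.isThreeCycle_swap_mul_swap_same`. -/
theorem threeCycle {X : Type*} [Fintype X] [DecidableEq X] (s t : Perm X) (c : X)
    (hs : s c ≠ c) (ht : t c ≠ c) (h : ∀ x, s x ≠ x → t x ≠ x → x = c) :
    ⁅s, t⁆.IsThreeCycle ∧ ⁅s, t⁆ c = s c ∧ (∀ x, ⁅s, t⁆ x ≠ x → x = c ∨ x = s c ∨ x = t c) := by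
  have hfs : ∀ x, x ≠ c → t x ≠ x → s x = x := fun x hx htx => by
    by_contra hsx
    exact hx (h x hsx htx)
  have hft : ∀ x, x ≠ c → s x ≠ x → t x = x := fun x hx hsx => by
    by_contra htx
    exact hx (h x hsx htx)
  have hinv : ∀ (u : Perm X) (x y : X), u y = x → u⁻¹ x = y := fun u x y hy => by
    rw [← hy, Prim_inv]
  have hr : ∀ x, ⁅s, t⁆ x = s (t (s⁻¹ (t⁻¹ x))) := fun x => rfl
  have ha : t (s c) = s c := hft _ hs fun h1 => hs (s.injective h1)
  have hb : s (t c) = t c := hfs _ ht fun h1 => ht (t.injective h1)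
  have hab : s c ≠ t c := by
    intro h1
    apply ht
    rw [← h1] at hb
    have h2 := s.injective hb
    exact absurd h2 hs
  have r1 : ⁅s, t⁆ c = s c := by
    rw [hr]
    set y := t⁻¹ c with hy
    have hty : t y = c := by rw [hy, Prim_inv']
    have hyc : y ≠ c := by
      intro h1
      rw [h1] at hty
      exact ht hty
    have hsy : s y = y := hfs y hyc fun h1 => hyc (by rw [← h1, hty])
    rw [hinv s y y hsy, hty]
  have r2 : ⁅s, t⁆ (s c) = t c := by
    rw [hr, hinv t _ _ ha, Prim_inv, hb]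
  have r3 : ⁅s, t⁆ (t c) = c := by
    rw [hr, Prim_inv]
    set z := s⁻¹ c with hz
    have hsz : s z = c := by rw [hz, Prim_inv']
    have hzc : z ≠ c := by
      intro h1
      rw [h1] at hsz
      exact hs hsz
    have htz : t z = z := hft z hzc fun h1 => hzc (by rw [← h1, hsz])
    rw [htz, hsz]
  have r4 : ∀ x, x ≠ c → x ≠ s c → x ≠ t c → ⁅s, t⁆ x = x := by
    intro x hxc hxs hxt
    rw [hr]
    by_cases htx : t x = x
    · rw [hinv t x x htx]
      set z := s⁻¹ x with hz
      have hsz : s z = x := by rw [hz, Prim_inv']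
      by_cases hzx : z = x
      · rw [hzx, htx, ← hzx, hsz, hzx]
      · have hzc : z ≠ c := by
          intro h1
          rw [h1] at hsz
          exact hxs hsz.symm
        have htz : t z = z := hft z hzc fun h1 => hzx (by rw [← h1, hsz])
        rw [htz, hsz]
    · have hsx : s x = x := hfs x hxc htx
      set y := t⁻¹ x with hy
      have hty : t y = x := by rw [hy, Prim_inv']
      have hyc : y ≠ c := by
        intro h1
        rw [h1] at hty
        exact hxt hty.symm
      have hyx : y ≠ x := by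
        intro h1
        rw [h1] at hty
        exact htx hty
      have hsy : s y = y := hfs y hyc fun h1 => hyx (by rw [← h1, hty])
      rw [hinv s y y hsy, hty, hsx]
  have hrs : ⁅s, t⁆ = swap c (t c) * swap c (s c) := by
    ext x
    rw [Perm.mul_apply]
    by_cases h1 : x = c
    · subst h1
      rw [r1, swap_apply_left, swap_apply_of_ne_of_ne hs hab]
    by_cases h2 : x = s c
    · rw [h2, r2, swap_apply_right, swap_apply_left]
    by_cases h3 : x = t c
    · rw [h3, r3, swap_apply_of_ne_of_ne ht hab.symm, swap_apply_right]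
    · rw [r4 x h1 h2 h3, swap_apply_of_ne_of_ne h1 h2, swap_apply_of_ne_of_ne h1 h3]
  refine ⟨?_, r1, ?_⟩
  · rw [hrs]
    exact Perm.isThreeCycle_swap_mul_swap_same ht.symm hs.symm hab.symm
  · intro x hx
    by_contra hcon
    push Not at hcon
    exact hx (r4 x hcon.1 hcon.2.1 hcon.2.2)

/-- Jordan type criterion.

Proof.  Put `t = w * s * w⁻¹`, `r = ⁅s, t⁆`.  The supports of `s` and `t` meet exactly in `c`
(`t c = w (s c) ≠ w c = c`; if `s x ≠ x` and `t x ≠ x` then `y = w⁻¹ x` has `s y ≠ y` and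
`s (w y) ≠ w y`, so `y = c` and `x = w c = c`).  By `threeCycle`, `r ∈ G` is a three cycle moving
exactly `c`, `s c`, `t c`.  By `alternatingGroup_le_of_isPreprimitive_of_isThreeCycle_mem` it
suffices that `G` is preprimitive; use `MulAction.IsPreprimitive.of_isTrivialBlock_base` with base
point `c`.  Let `B` be a block containing `c` and another point `b`.  Then `r • B = B`: if `b` is
fixed by `r`, then `b ∈ B ∩ r B`; if `b = r c` then `b ∈ B ∩ r B`; otherwise `b` is the third
point of the cycle, `r b = c ∈ B ∩ r B`.  Hence `s c = r c ∈ B`.  So `s c ∈ B ∩ s B`, `s B = B`,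
and `s ^ n c ∈ B` for all integers `n`.  For a generator `g`, `g (s ^ n c) = s ^ m c` lies in
`B ∩ g B`, so `g B = B`.  So `B` is invariant under `G`, which is transitive: `B = univ`. -/
theorem alt_le {X : Type*} [Fintype X] [DecidableEq X] (gens : Set (Perm X)) (s w : Perm X)
    (hs : s ∈ Subgroup.closure gens) (hw : w ∈ Subgroup.closure gens) (c : X)
    (htrans : ∀ x, ∃ g ∈ Subgroup.closure gens, g c = x)
    (hsc : s c ≠ c) (hwc : w c = c) (h : ∀ x, s x ≠ x → s (w x) ≠ w x → x = c)
    (hgens : ∀ g ∈ gens, ∃ n m : ℤ, g ((s ^ n) c) = (s ^ m) c) :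
    alternatingGroup X ≤ Subgroup.closure gens := by
  set G := Subgroup.closure gens with hG
  set t : Perm X := w * s * w⁻¹ with ht
  have htG : t ∈ G := mul_mem (mul_mem hw hs) (inv_mem hw)
  have hwi : w⁻¹ c = c := by
    rw [Perm.inv_eq_iff_eq]
    exact hwc.symm
  have htc : t c = w (s c) := by
    show w (s (w⁻¹ c)) = _
    rw [hwi]
  have htc' : t c ≠ c := by
    rw [htc]
    intro h1
    apply hsc
    have h2 : w (s c) = w c := by rw [h1, hwc]
    exact w.injective h2
  have hmeet : ∀ x, s x ≠ x → t x ≠ x → x = c := by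
    intro x hsx htx
    set y := w⁻¹ x with hy
    have hwy : w y = x := by rw [hy, Prim_inv']
    have h1 : s y ≠ y := by
      intro h2
      apply htx
      show w (s (w⁻¹ x)) = x
      rw [← hy, h2, hwy]
    have h2 : s (w y) ≠ w y := by rw [hwy]; exact hsx
    have h3 := h y h1 h2
    rw [← hwy, h3, hwc]
  obtain ⟨h3c, hrc, hmove⟩ := threeCycle s t c hsc htc' hmeet
  have hrG : ⁅s, t⁆ ∈ G := by
    rw [commutatorElement_def]
    exact mul_mem (mul_mem (mul_mem hs htG) (inv_mem hs)) (inv_mem htG)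
  have hpt : IsPretransitive G X := by
    refine IsPretransitive.mk fun x y => ?_
    obtain ⟨g, hg, hgx⟩ := htrans x
    obtain ⟨k, hk, hky⟩ := htrans y
    refine ⟨⟨k * g⁻¹, mul_mem hk (inv_mem hg)⟩, ?_⟩
    show k (g⁻¹ x) = y
    rw [← hgx, Prim_inv, hky]
  refine Perm.alternatingGroup_le_of_isPreprimitive_of_isThreeCycle_mem ?_ h3c hrG
  refine IsPreprimitive.of_isTrivialBlock_base c fun {B} hcB hB => ?_
  by_cases hsub : B.Subsingleton
  · exact Or.inl hsub
  right
  obtain ⟨b, hbB, hbc⟩ : ∃ b ∈ B, b ≠ c := by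
    by_contra hcon
    push Not at hcon
    exact hsub fun x hx y hy => (hcon x hx).trans (hcon y hy).symm
  -- elements of the group mapping a point of the block into the block
  have key : ∀ g ∈ G, ∀ x ∈ B, g x ∈ B → ∀ y ∈ B, g y ∈ B := by
    intro g hg x hx hgx y hy
    have h1 : (⟨g, hg⟩ : G) • B = B := hB.smul_eq_of_mem hx hgx
    have h2 : (⟨g, hg⟩ : G) • y ∈ (⟨g, hg⟩ : G) • B := Set.smul_mem_smul_set hy
    rw [h1] at h2
    exact h2
  have hrcube : ∀ x, ⁅s, t⁆ (⁅s, t⁆ (⁅s, t⁆ x)) = x := by
    intro x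
    have h1 : ⁅s, t⁆ ^ 3 = 1 := by
      rw [← h3c.orderOf]
      exact pow_orderOf_eq_one _
    have h2 := congrArg (fun u : Perm X => u x) h1
    simpa [pow_succ] using h2
  have hrB : ∀ y ∈ B, ⁅s, t⁆ y ∈ B := by
    by_cases hrb : ⁅s, t⁆ b = b
    · exact key _ hrG b hbB (by rw [hrb]; exact hbB)
    · rcases hmove b hrb with h1 | h1 | h1
      · exact absurd h1 hbc
      · refine key _ hrG c hcB ?_
        rw [hrc, ← h1]
        exact hbB
      · -- b is the third point of the cycle
        refine key _ hrG b hbB ?_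
        by_contra hnb
        -- r b = c
        have hrrc : ⁅s, t⁆ (⁅s, t⁆ c) = b := by
          by_contra hne
          have hm1 : ⁅s, t⁆ (⁅s, t⁆ (⁅s, t⁆ c)) ≠ ⁅s, t⁆ (⁅s, t⁆ c) := by
            rw [hrcube]
            intro h2
            have h3 := congrArg (⁅s, t⁆ : Perm X) h2
            rw [hrcube] at h3
            apply hsc
            rw [← hrc]
            exact h3
          rcases hmove _ hm1 with h2 | h2 | h2
          · have h3 := congrArg (⁅s, t⁆ : Perm X) h2
            rw [hrcube] at h3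
            exact hsc (hrc ▸ h3.symm)
          · rw [← hrc] at h2
            have h3 := (⁅s, t⁆ : Perm X).injective h2
            exact hsc (hrc ▸ h3)
          · exact hne (h2.trans h1.symm)
        have h4 : ⁅s, t⁆ b = c := by rw [← hrrc, hrcube]
        rw [h4] at hnb
        exact hnb hcB
  have hscB : s c ∈ B := by
    rw [← hrc]
    exact hrB c hcB
  have hpos : ∀ n : ℕ, (s ^ n) c ∈ B := by
    intro n
    induction n with
    | zero => exact hcB
    | succ n ih =>
      rw [pow_succ', Perm.mul_apply]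
      exact key s hs c hcB hscB _ ih
  have hsi : ∀ y ∈ B, s⁻¹ y ∈ B := by
    intro y hy
    refine key s⁻¹ (inv_mem hs) (s c) hscB ?_ y hy
    rw [Prim_inv]
    exact hcB
  have hneg : ∀ n : ℕ, (s⁻¹ ^ n) c ∈ B := by
    intro n
    induction n with
    | zero => exact hcB
    | succ n ih =>
      rw [pow_succ', Perm.mul_apply]
      exact hsi _ ih
  have hz : ∀ n : ℤ, (s ^ n) c ∈ B := by
    intro n
    cases n with
    | ofNat n => exact hpos n
    | negSucc n =>
      have h1 := hneg (n + 1)
      rw [inv_pow] at h1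
      rw [zpow_negSucc]
      exact h1
  have hgB : ∀ g ∈ G, ∀ y ∈ B, g y ∈ B := by
    intro g hg
    have hg' : g ∈ Subgroup.closure gens := hg
    induction hg' using Subgroup.closure_induction with
    | mem g hg0 =>
      obtain ⟨n, m, hnm⟩ := hgens g hg0
      exact key g hg _ (hz n) (by rw [hnm]; exact hz m)
    | one => exact fun y hy => hy
    | mul a b ha hb iha ihb =>
      intro y hy
      exact iha ha _ (ihb hb y hy)
    | inv a ha iha =>
      have h1 := iha ha
      -- finite set: the image of B under a is B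
      intro y hy
      have h2 : (⟨a, ha⟩ : G) • B = B := hB.smul_eq_of_mem hcB (h1 c hcB)
      have h3 : y ∈ (⟨a, ha⟩ : G) • B := by rw [h2]; exact hy
      obtain ⟨z, hzB, hzy⟩ := h3
      have h4 : a z = y := hzy
      rw [← h4, Prim_inv]
      exact hzB
  rw [Set.eq_univ_iff_forall]
  intro x
  obtain ⟨g, hg, hgx⟩ := htrans x
  rw [← hgx]
  exact hgB g hg c hcB

end H47Cl
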