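import Mathlib
import Pool.Agent.H.MP_0335f8_cl.DPow
import Pool.Agent.H.MP_0335f8_cl.DCard
import Pool.Agent.H.MP_0335f8_cl.DFix
import Pool.Agent.H.MP_0335f8_cl.DTrans
import Pool.Agent.H.MP_0335f8_cl.Prim
import Pool.Agent.H.MP_0335f8_cl.ConjAlt

set_option linter.unusedSectionVars false
set_option linter.unusedSimpArgs false

/-!
# Generation in the design (module DGen)
-/

namespace H47Cl.D

open Equiv

variable {K u ρ η : ℤ}

theorem mem_alts (h : Par K u ρ η) :
    pα h ∈ alternatingGroup (Pt K u ρ η) ∧ pβ h ∈ alternatingGroup (Pt K u ρ η) ∧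
      pπ h ∈ alternatingGroup (Pt K u ρ η) := by
  have hc := card_pts h
  have hK := h.hK
  have hρ := h.hρ
  have hcard : Fintype.card (Pt K u ρ η) = (pts K u ρ η).card := Fintype.card_coe _
  obtain ⟨k, hk⟩ : ∃ k : ℕ, (k : ℤ) = K + 1 := ⟨(K + 1).toNat, by omega⟩
  refine ⟨mem_alt _ (pα_sq h) k ?_, mem_alt _ (pβ_sq h) k ?_, mem_alt _ (pπ_sq h) k ?_⟩
  · have := fix_α h; omega
  · have := fix_β h; omega
  · have := fix_π h; omega

theorem conjs (h : Par K u ρ η) :
    (∃ c ∈ alternatingGroup (Pt K u ρ η), c * pα h * c⁻¹ = pβ h) ∧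
    (∃ c ∈ alternatingGroup (Pt K u ρ η), c * pα h * c⁻¹ = pα h * pβ h) ∧
    (∃ c ∈ alternatingGroup (Pt K u ρ η), c * pα h * c⁻¹ = pπ h) := by
  have h1 := fix_α h
  have h2 := fix_β h
  have h3 := fix_αβ h
  have h4 := fix_π h
  have hne : pα h ≠ 1 := by
    intro hc
    rw [hc] at h1
    simp only [Perm.coe_one, id_eq, Finset.filter_true, Finset.card_univ] at h1
    have hcard : Fintype.card (Pt K u ρ η) = (pts K u ρ η).card := Fintype.card_coe _
    have := card_pts h
    have hK := h.hK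
    omega
  have hab : (pα h * pβ h) * (pα h * pβ h) = 1 := by
    have : (pα h * pβ h) * (pα h * pβ h) = pα h * (pβ h * pα h) * pβ h := by group
    rw [this, ← pαβ h, ← mul_assoc, pα_sq, one_mul, pβ_sq]
  exact ⟨conj_alt _ _ (pα_sq h) (pβ_sq h) hne (by omega),
    conj_alt _ _ (pα_sq h) hab hne (by omega),
    conj_alt _ _ (pα_sq h) (pπ_sq h) hne (by omega)⟩

/-- `be` of a negative point -/
theorem dgen_be_neg {t z : ℤ} (hz : z < 0) : be K u ρ η (t, z) = al (bpos K u ρ η (t, -z)) := by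
  rw [be, if_pos hz]
  rfl

theorem dgen_pif0 {z : ℤ} (hz : z ≠ -(K + u + 1)) : pif K u η (0, z) = (0, 1 - z) := by
  rw [pif, if_neg (show ¬ ((0 : ℤ), z).1 = 1 by norm_num),
    if_pos (show ((0 : ℤ), z).1 = 0 from rfl), if_neg (show ¬ ((0 : ℤ), z).2 = -(K + u + 1) from hz)]

theorem dgen_pift {t z : ℤ} (ht : 2 ≤ t) (hz : z ≠ -η) : pif K u η (t, z) = (t, 1 - z) := by
  have e1 : t ≠ 0 := by omega
  have e2 : t ≠ 1 := by omega
  simp [pif, e1, e2, hz]

theorem dgen_pift' {t z : ℤ} (ht : 2 ≤ t) (hz : z = -η) : pif K u η (t, z) = (t, z) := by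
  have e1 : t ≠ 0 := by omega
  have e2 : t ≠ 1 := by omega
  simp [pif, e1, e2, hz]

theorem dgen_al (t z : ℤ) : al (t, z) = (t, -z) := rfl

/-- the tag of `be (0, z)` for nonspecial `z` of moderate size -/
theorem dgen_tag (h : Par K u ρ η) {z : ℤ} (h1 : z ≠ 0) (h2 : z ≤ K - u) (h3 : -z ≤ K - u)
    (h4 : ¬ Spec ρ η z) (h5 : ¬ Spec ρ η (-z)) : (be K u ρ η (0, z)).1 = 1 := by
  rcases lt_or_gt_of_ne h1 with hz | hz
  · rw [dgen_be_neg hz, bpos_d h (by omega) h3 h5]
    rfl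
  · rw [be_nonneg hz.le, bpos_d h hz h2 h4]

/-- the only point with large tag whose image under `w` has large tag -/
theorem dgen_w (h : Par K u ρ η) {t z : ℤ} (hp : S K u ρ η (t, z)) (ht : 2 ≤ t)
    (hw : 2 ≤ (be K u ρ η (pif K u η (al (pif K u η (be K u ρ η (t, z)))))).1) :
    t = 2 ∧ z = -1 := by
  have h' := h
  obtain ⟨hK, hu, hu', hρ, hρ', hη, hη'⟩ := h'
  by_contra hcon
  have hz : t ≤ 2 + ρ ∧ -η ≤ z ∧ z ≤ η := by
    simp only [S] at hp
    omega
  obtain ⟨htρ, hz1, hz2⟩ := hz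
  have key : ∀ y : ℤ, y ≠ -(K + u + 1) → y - 1 ≠ -(K + u + 1) →
      be K u ρ η (t, z) = (0, y) → 2 - y ≠ 0 → 2 - y ≤ K - u → -(2 - y) ≤ K - u →
      ¬ Spec ρ η (2 - y) → ¬ Spec ρ η (-(2 - y)) → False := by
    intro y e1 e2 e3 e4 e5 e6 e7 e8
    rw [e3, dgen_pif0 e1, dgen_al, dgen_pif0 (by omega)] at hw
    have e9 : (1 : ℤ) - -(1 - y) = 2 - y := by ring
    rw [e9, dgen_tag h e4 e5 e6 e7 e8] at hw
    omega
  rcases lt_trichotomy z 0 with hz | hz | hz
  · have e : be K u ρ η (t, z) = (0, -(4 * (t - 2) + -z + 2)) := by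
      rw [dgen_be_neg hz, bpos_k ht (by omega) (by omega), dgen_al]
    refine key _ (by omega) (by omega) e (by omega) (by omega) (by omega) ?_ ?_ <;>
      simp only [Spec] <;> omega
  · subst hz
    rcases ht.eq_or_lt with h5 | h5
    · subst h5
      have e : be K u ρ η (2, 0) = (0, 0) := by rw [be_nonneg le_rfl, bpos_h]
      refine key _ (by omega) (by omega) e (by omega) (by omega) (by omega) ?_ ?_ <;>
        simp only [Spec] <;> omega
    · rw [be_nonneg le_rfl, bpos_i (by omega), dgen_pift ht (by omega), dgen_al] at hw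
      by_cases h6 : η = 1
      · rw [dgen_pift' ht (by omega), dgen_be_neg (by omega),
          bpos_k ht (by omega) (by omega), dgen_al] at hw
        dsimp only at hw
        omega
      · rw [dgen_pift ht (by omega), be_nonneg (by omega),
          bpos_k ht (by omega) (by omega)] at hw
        dsimp only at hw
        omega
  · by_cases h5 : t = 2 ∧ z = 1
    · obtain ⟨rfl, rfl⟩ := h5
      rw [be_nonneg (t := 2) (z := 1) (by norm_num), bpos_j] at hw
      by_cases h6 : η = 1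
      · rw [dgen_pift' ht (by omega), dgen_al, dgen_pift ht (by omega)] at hw
        have e9 : (1 : ℤ) - -(-1) = 0 := by norm_num
        rw [e9, be_nonneg le_rfl, bpos_h] at hw
        dsimp only at hw
        omega
      · rw [dgen_pift ht (by omega), dgen_al, dgen_pift' ht (by omega),
          dgen_be_neg (by omega), bpos_k ht (by omega) (by omega), dgen_al] at hw
        dsimp only at hw
        omega
    · have e : be K u ρ η (t, z) = (0, 4 * (t - 2) + z + 2) := by
        rw [be_nonneg hz.le, bpos_k ht hz h5]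
      refine key _ (by omega) (by omega) e (by omega) (by omega) (by omega) ?_ ?_ <;>
        simp only [Spec] <;> omega

/-- the exponent -/
theorem dgen_exp {L l : ℤ} (hL : 0 < L) (hl : 0 < l) (hcop : IsCoprime L l) :
    ∃ M : ℕ, L ∣ (M : ℤ) ∧ l ∣ ((M : ℤ) - 1) := by
  obtain ⟨a, b, hab⟩ := hcop
  have h0 : 0 ≤ a % l := Int.emod_nonneg a hl.ne'
  have h1 : 0 ≤ (a % l) * L := mul_nonneg h0 hL.le
  refine ⟨((a % l) * L).toNat, ?_, ?_⟩
  · rw [Int.toNat_of_nonneg h1]
    exact Dvd.intro_left _ rfl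
  · rw [Int.toNat_of_nonneg h1]
    refine ⟨-b - (a / l) * L, ?_⟩
    have h2 := Int.emod_add_mul_ediv a l
    have h3 : a % l = a - l * (a / l) := by linarith
    rw [h3]
    linear_combination hab

/-- The generation theorem.

Proof.  `≤` by `mem_alts`.  `≥`: apply `alt_le` with `gens = {α, β, π}`, `s = (π α) ^ M`,
`w = β π α π β`, `c = (2, -1)`, where `M ≡ 0 mod L`, `M ≡ 1 mod ℓ` (`Nat.chineseRemainder`,
coprimality of `L` and `ℓ`).  By `pow_ζ`, `s` is trivial on tags `0, 1` and equals `π α` on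
tags `≥ 2`, where it moves every point.
* `s c = (2, 0) ≠ c`.
* `w c = c`: `β (2,-1) = (2,1)`, `π (2,1) = (2,0)`, `α (2,0) = (2,0)`, `π (2,0) = (2,1)`,
  `β (2,1) = (2,-1)`.
* if `s x ≠ x` and `s (w x) ≠ w x` then `x` and `w x` have tags `≥ 2`; check all points `x` with
  tag `≥ 2` (finitely many, `η ∈ {1,2}`, `ρ ≤ 3`): `w x` has tag `0` or `1` unless `x = c`:
  `x = (2, 0)`: `β x = (0,0)`, `π → (0,1)`, `α → (0,-1)`, `π → (0,2)`, `β → (1,2)`.
  `x = (2, 1)`: `β → (2,-1)`, `π → (2,2)` if `η = 2`, resp. `(2,-1)` if `η = 1`; then `α`: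
  `(2,-2)` resp. `(2,1)`; `π`: `(2,-2)` resp. `(2,0)`; `β`: `(0,-4)` resp. `(0,0)`.
  `x = (t, 0)`, `t ≥ 3`: `β x = x`, `π → (t,1)`, `α → (t,-1)`, `π → (t,2)` (`η=2`) resp.
  `(t,-1)` (`η=1`), `β → ` tag `0`.
  Otherwise `x = (t, ±j)` with `β x = (0, ± k)`, `k = 4 (t-2) + j + 2` special, `k ≡ 3, 0 mod 4`;
  `π α π` maps `(0, z)` to `(0, 2 - z)` (here `|z| ≤ 16 < h - 2`), and `2 - z = 2 ∓ k` is
  nonzero and has nonspecial absolute value `≤ K - u` (`k ± 2 ≡ 1, 2 mod 4`; `≤ 18`), so `β`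
  maps it to tag `1` (or for `k ± 2 > K - u` to tag `0`).
* `hgens`: `α c = (2, 1) = s ^ 2 c`, `β c = (2, 1) = s ^ 2 c` (`s c = (2,0)`, `s (2,0) = (2,1)`),
  and `π (2,0) = (2,1)`, i.e. `π (s^1 c) = s^2 c`. -/
theorem gen (h : Par K u ρ η) (hcop : IsCoprime (2 * (K + u + 1) + 1) (2 * η + 1)) :
    Subgroup.closure ({pα h, pβ h, pπ h} : Set (Perm (Pt K u ρ η))) =
      alternatingGroup (Pt K u ρ η) := by
  have h' := h
  obtain ⟨hK, hu, hu', hρ, hρ', hη, hη'⟩ := h'
  obtain ⟨m1, m2, m3⟩ := mem_alts h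
  apply le_antisymm
  · rw [Subgroup.closure_le]
    rintro g hg
    simp only [Set.mem_insert_iff, Set.mem_singleton_iff] at hg
    rcases hg with rfl | rfl | rfl
    · exact m1
    · exact m2
    · exact m3
  · obtain ⟨M, hM1, hM2⟩ := dgen_exp (L := 2 * (K + u + 1) + 1) (l := 2 * η + 1)
      (by omega) (by omega) hcop
    have gα : pα h ∈ Subgroup.closure ({pα h, pβ h, pπ h} : Set (Perm (Pt K u ρ η))) :=
      Subgroup.subset_closure (by simp)
    have gβ : pβ h ∈ Subgroup.closure ({pα h, pβ h, pπ h} : Set (Perm (Pt K u ρ η))) :=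
      Subgroup.subset_closure (by simp)
    have gπ : pπ h ∈ Subgroup.closure ({pα h, pβ h, pπ h} : Set (Perm (Pt K u ρ η))) :=
      Subgroup.subset_closure (by simp)
    have hpow := pow_ζ h M hM1 hM2
    let s : Perm (Pt K u ρ η) := (pπ h * pα h) ^ M
    let w : Perm (Pt K u ρ η) := pβ h * pπ h * pα h * pπ h * pβ h
    have hcmem : ∀ z : ℤ, -1 ≤ z → z ≤ 1 → ((2 : ℤ), z) ∈ pts K u ρ η := by
      intro z h1 h2
      rw [mem_pts h]
      simp only [S]
      omega
    let c : Pt K u ρ η := ⟨(2, -1), hcmem (-1) (by norm_num) (by norm_num)⟩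
    let c0 : Pt K u ρ η := ⟨(2, 0), hcmem 0 (by norm_num) (by norm_num)⟩
    let c1 : Pt K u ρ η := ⟨(2, 1), hcmem 1 (by norm_num) (by norm_num)⟩
    have hsc : s c = c0 := by
      change ((pπ h * pα h) ^ M) c = c0
      rw [(hpow c).2 (by change (2 : ℤ) ≤ 2; norm_num)]
      apply Subtype.ext
      change pif K u η (al (2, -1)) = (2, 0)
      rw [dgen_al, dgen_pift le_rfl (by omega)]
      norm_num
    have hsc0 : s c0 = c1 := by
      change ((pπ h * pα h) ^ M) c0 = c1
      rw [(hpow c0).2 (by change (2 : ℤ) ≤ 2; norm_num)]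
      apply Subtype.ext
      change pif K u η (al (2, 0)) = (2, 1)
      rw [dgen_al, dgen_pift le_rfl (by omega)]
      norm_num
    have hαc : pα h c = c1 := by
      apply Subtype.ext
      change al (2, -1) = (2, 1)
      rw [dgen_al]
      norm_num
    have hβc : pβ h c = c1 := by
      apply Subtype.ext
      change be K u ρ η (2, -1) = (2, 1)
      rw [dgen_be_neg (by norm_num)]
      have e : -(-1 : ℤ) = 1 := by norm_num
      rw [e, bpos_j, dgen_al, e]
    have hβc1 : pβ h c1 = c := by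
      rw [← hβc, ← Perm.mul_apply, pβ_sq h, Perm.one_apply]
    have hπc0 : pπ h c0 = c1 := by
      apply Subtype.ext
      change pif K u η (2, 0) = (2, 1)
      rw [dgen_pift le_rfl (by omega)]
      norm_num
    have hπc1 : pπ h c1 = c0 := by
      rw [← hπc0, ← Perm.mul_apply, pπ_sq h, Perm.one_apply]
    have hαc0 : pα h c0 = c0 := by
      apply Subtype.ext
      change al (2, 0) = (2, 0)
      rw [dgen_al]
      norm_num
    refine alt_le _ s w (pow_mem (mul_mem gπ gα) M)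
      (mul_mem (mul_mem (mul_mem (mul_mem gβ gπ) gα) gπ) gβ) c (fun x => trans h c x) ?_ ?_ ?_ ?_
    · rw [hsc]
      intro e
      have e1 := congrArg (fun q : Pt K u ρ η => q.1.2) e
      change (0 : ℤ) = -1 at e1
      omega
    · change pβ h (pπ h (pα h (pπ h (pβ h c)))) = c
      rw [hβc, hπc1, hαc0, hπc0, hβc1]
    · intro x hx hwx
      have hx2 : 2 ≤ x.1.1 := by
        by_contra hlt
        exact hx ((hpow x).1 (by omega))
      have hwx2 : 2 ≤ (w x).1.1 := by
        by_contra hlt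
        exact hwx ((hpow (w x)).1 (by omega))
      obtain ⟨⟨t, z⟩, hm⟩ := x
      have h8 := dgen_w h ((mem_pts h).1 hm) hx2 hwx2
      apply Subtype.ext
      change ((t, z) : ℤ × ℤ) = (2, -1)
      rw [h8.1, h8.2]
    · have hs2 : (s ^ (2 : ℤ)) c = c1 := by
        have e : (s ^ (2 : ℤ)) = s * s := by
          rw [show (2 : ℤ) = 1 + 1 by norm_num, zpow_add, zpow_one]
        rw [e, Perm.mul_apply, hsc, hsc0]
      rintro g hg
      simp only [Set.mem_insert_iff, Set.mem_singleton_iff] at hg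
      rcases hg with rfl | rfl | rfl
      · exact ⟨0, 2, by rw [zpow_zero, Perm.one_apply, hs2, hαc]⟩
      · exact ⟨0, 2, by rw [zpow_zero, Perm.one_apply, hs2, hβc]⟩
      · exact ⟨1, 2, by rw [zpow_one, hsc, hs2, hπc0]⟩

end H47Cl.D
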