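import Mathlib
import Pool.Agent.H.MP_0335f8_cl.Design
import Pool.Agent.H.MP_0335f8_cl.DGen

/-!
# Existence of the designs (module Param)
-/

namespace H47Cl

private theorem param_two {p : ℕ} (hp : p.Prime) {x : ℤ} (hx : x % 2 = 1)
    (h1 : (p : ℤ) ∣ x) (d : ℤ) (hd : d = 2 ∨ d = 4) (h2 : (p : ℤ) ∣ x + d) : False := by
  have h3 : (p : ℤ) ∣ d := by
    have := dvd_sub h2 h1
    simpa using this
  have h4 : (p : ℤ) ∣ 2 ^ 2 := by
    rcases hd with rfl | rfl
    · exact h3.trans ⟨2, by norm_num⟩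
    · exact h3.trans ⟨1, by norm_num⟩
  have h5 : p ∣ 2 ^ 2 := by exact_mod_cast h4
  have h6 : p ∣ 2 := hp.dvd_of_dvd_pow h5
  have h7 : p = 2 := (Nat.prime_dvd_prime_iff_eq hp Nat.prime_two).1 h6
  subst h7
  have : (2 : ℤ) ∣ x := by exact_mod_cast h1
  omega

private theorem param_N {p : ℕ} (hp : p.Prime) {L l : ℤ} (hL : 0 ≤ L) (hl : 0 ≤ l)
    (h1 : ¬ (p : ℤ) ∣ L) (h2 : ¬ (p : ℤ) ∣ l) : ∃ N : ℕ, (N : ℤ) = L * l ∧ N.Coprime p := by
  refine ⟨(L * l).toNat, Int.toNat_of_nonneg (mul_nonneg hL hl), ?_⟩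
  rw [Nat.coprime_comm, Nat.Prime.coprime_iff_not_dvd hp]
  intro h
  have h3 : (p : ℤ) ∣ L * l := by
    rw [← Int.toNat_of_nonneg (mul_nonneg hL hl)]
    exact_mod_cast h
  rcases Int.Prime.dvd_mul' hp h3 with h4 | h4
  · exact h1 h4
  · exact h2 h4

private theorem param_three {p : ℕ} (hp : p.Prime) (L : ℤ) (hL : L % 2 = 1) :
    ∃ u : ℤ, 0 ≤ u ∧ u ≤ 2 ∧ ¬ (3 : ℤ) ∣ L + 2 * u ∧ ¬ (p : ℤ) ∣ L + 2 * u := by
  by_contra hc
  push Not at hc
  have e0 := hc 0 le_rfl (by norm_num)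
  have e1 := hc 1 (by norm_num) (by norm_num)
  have e2 := hc 2 (by norm_num) le_rfl
  have s01 : (p : ℤ) ∣ L → (p : ℤ) ∣ L + 2 → False :=
    fun a b => param_two hp hL a 2 (Or.inl rfl) b
  have s02 : (p : ℤ) ∣ L → (p : ℤ) ∣ L + 4 → False :=
    fun a b => param_two hp hL a 4 (Or.inr rfl) b
  have s12 : (p : ℤ) ∣ L + 2 → (p : ℤ) ∣ L + 4 → False := fun a b =>
    param_two hp (x := L + 2) (by omega) a 2 (Or.inl rfl) (by convert b using 1; ring)
  norm_num at e0 e1 e2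
  by_cases c0 : (3 : ℤ) ∣ L
  · have d1 : ¬ (3 : ℤ) ∣ L + 2 := by omega
    have d2 : ¬ (3 : ℤ) ∣ L + 4 := by omega
    exact s12 (e1 d1) (e2 d2)
  · by_cases c1 : (3 : ℤ) ∣ L + 2
    · have d2 : ¬ (3 : ℤ) ∣ L + 4 := by omega
      exact s02 (e0 c0) (e2 d2)
    · exact s01 (e0 c0) (e1 c1)

/-- Choice of `u`: with `L = 2 (K + u + 1) + 1 = 2 K + 3 + 2 u`, `ℓ = 2 η + 1`.

Proof.  Take `η = 1` (`ℓ = 3`) if `p ≠ 3` and `η = 2` (`ℓ = 5`) if `p = 3`.  The three numbers
`L` for `u = 0, 1, 2` are `L0, L0 + 2, L0 + 4`, all odd.  If `p ≠ 3`: exactly one is divisible by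
`3`; at most one is divisible by `p` (`p ≥ 5` divides no difference `2, 4`; `p = 2` divides
none).  If `p = 3`: exactly one is divisible by `3`, at most one by `5`.  So some `u` works, and
`L ℓ` is prime to `p`, `L` is prime to `ℓ`. -/
theorem exists_u (p : ℕ) (hp : p.Prime) (K : ℤ) (hK : 20 ≤ K) :
    ∃ u η : ℤ, 0 ≤ u ∧ u ≤ 2 ∧ 1 ≤ η ∧ η ≤ 2 ∧
      IsCoprime (2 * (K + u + 1) + 1) (2 * η + 1) ∧
      ∃ N : ℕ, (N : ℤ) = (2 * (K + u + 1) + 1) * (2 * η + 1) ∧ N.Coprime p := by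
  by_cases h3 : p = 3
  · subst h3
    obtain ⟨u, hu, hu', a, b⟩ := param_three Nat.prime_five (2 * K + 3) (by omega)
    have eL : 2 * (K + u + 1) + 1 = 2 * K + 3 + 2 * u := by ring
    refine ⟨u, 2, hu, hu', by norm_num, by norm_num, ?_, ?_⟩
    · rw [eL]
      have h5 : Prime (5 : ℤ) := by exact_mod_cast (Nat.prime_iff_prime_int.1 Nat.prime_five)
      have := (h5.coprime_iff_not_dvd (n := 2 * K + 3 + 2 * u)).2 (by exact_mod_cast b)
      norm_num
      exact this.symm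
    · rw [eL]
      exact param_N hp (by omega) (by norm_num) (by exact_mod_cast a) (by norm_num)
  · obtain ⟨u, hu, hu', a, b⟩ := param_three hp (2 * K + 3) (by omega)
    have eL : 2 * (K + u + 1) + 1 = 2 * K + 3 + 2 * u := by ring
    refine ⟨u, 1, hu, hu', le_rfl, by norm_num, ?_, ?_⟩
    · rw [eL]
      have h5 : Prime (3 : ℤ) := by exact_mod_cast (Nat.prime_iff_prime_int.1 Nat.prime_three)
      have := (h5.coprime_iff_not_dvd (n := 2 * K + 3 + 2 * u)).2 a
      norm_num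
      exact this.symm
    · rw [eL]
      refine param_N hp (by omega) (by norm_num) b ?_
      intro hc
      have h6 : p ∣ 3 := by
        have : (p : ℤ) ∣ ((3 : ℕ) : ℤ) := by norm_num at hc ⊢; exact hc
        exact_mod_cast this
      exact h3 ((Nat.prime_dvd_prime_iff_eq hp Nat.prime_three).1 h6)

private def paramA : Fin 9 → ℤ := ![1, 2, 3, 5, 6, 9, 10, 13, 14]

private theorem paramA_inj : Function.Injective paramA := by decide

private theorem paramA_pos (k : Fin 9) : 0 < paramA k := by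
  revert k; decide

private theorem paramA_S {K u ρ η : ℤ} (h : D.Par K u ρ η) (k : Fin 9) :
    D.S K u ρ η (1, paramA k) := by
  obtain ⟨hK, hu, hu', hρ, hρ', hη, hη'⟩ := h
  have key : 1 ≤ paramA k ∧ paramA k ≤ 18 ∧ (paramA k < 4 ∨ (paramA k - 2) % 4 = 3 ∨
      (paramA k - 2) % 4 = 0) := by
    revert k; decide
  obtain ⟨k1, k2, k3⟩ := key
  refine Or.inr (Or.inl ⟨rfl, Or.inl ⟨k1, ?_, ?_⟩⟩)
  · dsimp only
    omega
  · rintro ⟨s1, s2, s3, s4⟩
    dsimp only at s1 s2 s3 s4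
    omega

private theorem paramA_S' {K u ρ η : ℤ} (h : D.Par K u ρ η) (k : Fin 9) :
    D.S K u ρ η (1, -paramA k) := by
  have := D.S_al (paramA_S h k)
  exact this

/-- Existence of designs.

Proof.  Let `K = (m - 6) / 4`, `ρ = (m - 6) % 4`, so `m = 4 K + 6 + ρ`, `K ≥ 20`; `u`, `η`, `N`
from `exists_u`.  Take `X = D.Pt K u ρ η` and the permutations `pα, pβ, pπ`; the points `i k` are
`(1, a)` for `a ∈ {1, 2, 3, 5, 6, 9, 10, 13, 14}` (these are nonspecial: they are `< 4` or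
`≡ 1, 2 mod 4`, i.e. `(a - 2) % 4 ∈ {3, 0}`, and `≤ 18 ≤ K - u`), and `i' k = (1, -a)`. -/
theorem exists_design (p : ℕ) (hp : p.Prime) (m : ℕ) (hm : 86 ≤ m) :
    ∃ (X : Type) (_ : Fintype X) (_ : DecidableEq X),
      Fintype.card X = m ∧ Nonempty (Design p X) := by
  obtain ⟨u, η, hu, hu', hη, hη', hcop, N, hN, hNp⟩ :=
    exists_u p hp (((m : ℤ) - 6) / 4) (by omega)
  have h : D.Par (((m : ℤ) - 6) / 4) u (((m : ℤ) - 6) % 4) η :=
    ⟨by omega, hu, hu', by omega, by omega, hη, hη'⟩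
  refine ⟨D.Pt (((m : ℤ) - 6) / 4) u (((m : ℤ) - 6) % 4) η, inferInstance, inferInstance, ?_, ?_⟩
  · have h1 := D.card_pts h
    have h2 : Fintype.card (D.Pt (((m : ℤ) - 6) / 4) u (((m : ℤ) - 6) % 4) η) =
        (D.pts (((m : ℤ) - 6) / 4) u (((m : ℤ) - 6) % 4) η).card := Fintype.card_coe _
    omega
  · obtain ⟨c1, c2, c3⟩ := D.conjs h
    exact ⟨{
      α := D.pα h
      β := D.pβ h
      π := D.pπ h
      N := N
      α2 := D.pα_sq h
      β2 := D.pβ_sq h
      π2 := D.pπ_sq h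
      comm := D.pαβ h
      hcop := hNp
      hN := D.pow_one h N hN
      gen := D.gen h hcop
      cβ := c1
      cαβ := c2
      cπ := c3
      i := fun k => ⟨(1, paramA k), (D.mem_pts h).2 (paramA_S h k)⟩
      i' := fun k => ⟨(1, -paramA k), (D.mem_pts h).2 (paramA_S' h k)⟩
      inj := by
        refine Function.Injective.sumElim ?_ ?_ ?_
        · intro a b hab
          exact paramA_inj (congrArg (fun x => x.1.2) hab)
        · intro a b hab
          have h3 : -paramA a = -paramA b := congrArg (fun x => x.1.2) hab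
          exact paramA_inj (neg_injective h3)
        · intro a b hab
          have h3 : paramA a = -paramA b := congrArg (fun x => x.1.2) hab
          have h4 := paramA_pos a
          have h5 := paramA_pos b
          omega
      hα := fun k => rfl
      hπ := fun k => Subtype.ext (by simp [D.pπ_val, D.pif]) }⟩

end H47Cl
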