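import Mathlib
import Pool.Agent.H.MP_0335f8_cl.Isolate

set_option linter.unusedSectionVars false

/-!
# All Siegel transformations (module Full)
-/

namespace H47Cl

open H47Cl.Frm

variable {K V : Type*} [Field K] [AddCommGroup V] [Module K V] {F : Frm K V}
  {X : Type*} [Fintype X] [DecidableEq X] {B : Frame F X}

/-- Two vectors `a`, `b` of the same norm with the same nonzero pairing with a singular vector
`v` are related by a Siegel transformation along `v`.

Proof.  Let `c = h a v = h b v ≠ 0` and `v' = σ(c)⁻¹ • v`, so that `h a v' = h b v' = 1`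
(`h a v' = σ (σ(c)⁻¹) * c = c⁻¹ * c`), and `v'` is singular.  Put `w = b - a`,
`s = ε * h a w`.  Then `h v' w = 0`.  Admissibility of `(v', w, s)`:
`ε s + σ s + h w w = h a w + ε σ(h a w) + h w w` (`ε ε = 1`, `σ ε = ε`) `= h a w + h w a + h w w
= h (a + w) (a + w) - h a a = h b b - h a a = 0`, and if `κ = 1` (`ε = 1`, `σ = id`) then
`q b = q a + q w + h a w` so `s + q w = h a w + q w = 0`.
`El v' w s a = a + w - ε h(a, w) v' + s v' = a + w = b`. -/
theorem move {a b v : V} (hv : F.h v v = 0) (hqv : F.q v = 0) (h1 : F.h a v ≠ 0)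
    (h2 : F.h a v = F.h b v) (h3 : F.h a a = F.h b b) (h4 : F.q a = F.q b) :
    ∃ (c s : K), F.Adm (c • v) (b - a) s ∧ (F.El (c • v) (b - a) s).1 a = b := by
  have e2 := F.ε2
  have hc' : F.σ (F.h a v) ≠ 0 := fun h0 => h1 (F.σ_eq_zero.1 h0)
  have hva : F.h v a = F.ε * F.σ (F.h a v) := F.h_swap a v
  have hvb : F.h v b = F.ε * F.σ (F.h a v) := by rw [F.h_swap b v, h2]
  have hadm : F.Adm ((F.σ (F.h a v))⁻¹ • v) (b - a) (F.ε * F.h a (b - a)) := by
    refine ⟨?_, ?_, ?_, ?_, ?_⟩
    · rw [F.h_smul, F.h_smul_right, hv, mul_zero, mul_zero]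
    · rw [F.q_smul, hqv, mul_zero]
    · rw [F.h_smul, F.h_sub_right, hva, hvb, sub_self, mul_zero]
    · have h5 : F.h b a = F.ε * F.σ (F.h a b) := F.h_swap a b
      have h6 : F.h a a = F.ε * F.σ (F.h a a) := F.h_swap a a
      rw [map_mul, F.σε, F.h_sub, F.h_sub_right, F.h_sub_right, map_sub]
      linear_combination (F.h a b - F.h a a) * e2 - h5 + h6 - h3
    · rcases F.hκ with ⟨k0, q0⟩ | ⟨k1, ε1, s1⟩
      · rw [k0, zero_mul]
      · have h5 := F.q_add a (b - a)
        rw [add_sub_cancel, k1, one_mul] at h5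
        rw [k1, ε1]
        linear_combination -h5 - h4
  refine ⟨(F.σ (F.h a v))⁻¹, F.ε * F.h a (b - a), hadm, ?_⟩
  have h7 : F.h a ((F.σ (F.h a v))⁻¹ • v) = 1 := by
    rw [F.h_smul_right, map_inv₀, F.σσ, inv_mul_cancel₀ h1]
  rw [El_ap hadm, h7, one_smul, mul_one]
  abel

/-- the parameter set of `u` -/
private def full_T (H : Subgroup F.G) (u w : V) : Prop :=
  ∃ s, F.Adm u w s ∧ F.El u w s ∈ H

private theorem full_add {H : Subgroup F.G} {u w w' : V} (h : full_T H u w)
    (h' : full_T H u w') : full_T H u (w + w') := by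
  obtain ⟨s, a1, b1⟩ := h
  obtain ⟨s', a2, b2⟩ := h'
  refine ⟨_, Adm_mul a1 a2, ?_⟩
  rw [← El_mul a1 a2]
  exact H.mul_mem b1 b2

private theorem full_zero (H : Subgroup F.G) {u : V} (hu : F.h u u = 0) (hq : F.q u = 0) :
    full_T H u 0 :=
  ⟨0, ⟨hu, hq, by simp, by simp, by simp⟩, by rw [El_one]; exact H.one_mem⟩

private theorem full_sum {H : Subgroup F.G} {u : V} (hu : F.h u u = 0) (hq : F.q u = 0)
    {ι : Type*} (t : Finset ι) (g : ι → V) (h : ∀ i ∈ t, full_T H u (g i)) :
    full_T H u (∑ i ∈ t, g i) := by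
  classical
  induction t using Finset.induction_on with
  | empty => rw [Finset.sum_empty]; exact full_zero H hu hq
  | insert a t ha ih =>
    rw [Finset.sum_insert ha]
    exact full_add (h a (Finset.mem_insert_self a t))
      (ih fun i hi => h i (Finset.mem_insert_of_mem hi))

private theorem full_all {H : Subgroup F.G} {u w : V} {s : K}
    (h0 : ∀ s, F.Adm u 0 s → F.El u 0 s ∈ H) (h : full_T H u w) (hs : F.Adm u w s) :
    F.El u w s ∈ H := by
  obtain ⟨s1, a1, b1⟩ := h
  have a2 : F.Adm u 0 (s - s1) := by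
    refine ⟨a1.1, a1.2.1, by simp, ?_, ?_⟩
    · rw [map_sub, F.h_zero_left]
      linear_combination hs.2.2.2.1 - a1.2.2.2.1
    · rw [F.q_zero]
      linear_combination hs.2.2.2.2 - a1.2.2.2.2
  have h3 : F.El u w s = F.El u w s1 * F.El u 0 (s - s1) := by
    rw [El_mul a1 a2, add_zero, F.h_zero_left, mul_zero, sub_zero, add_sub_cancel]
  rw [h3]
  exact H.mul_mem b1 (h0 _ a2)

private theorem full_adm (u w : V) (hu : F.h u u = 0) (hq : F.q u = 0) (hw : F.h w w = 0)
    (hqw : F.q w = 0) (huw : F.h u w = 0) (μ : K) : F.Adm u (μ • w) 0 := by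
  refine ⟨hu, hq, ?_, ?_, ?_⟩
  · rw [F.h_smul_right, huw, mul_zero]
  · rw [F.h_smul, F.h_smul_right, hw, map_zero]
    ring
  · rw [F.q_smul, hqw]
    ring

/-- multiples of `u` -/
private theorem full_self {H : Subgroup F.G} {u : V} (hu : F.h u u = 0) (hq : F.q u = 0)
    (h0 : ∀ s, F.Adm u 0 s → F.El u 0 s ∈ H) (c : K) : full_T H u (c • u) := by
  have e2 := F.ε2
  have a1 : F.Adm u (c • u) 0 := full_adm u u hu hq hu hq hu c
  have a2 : F.Adm u 0 (c - F.ε * F.σ c) := by
    refine ⟨hu, hq, by simp, ?_, ?_⟩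
    · rw [map_sub, map_mul, F.σε, F.σσ, F.h_zero_left]
      linear_combination -(F.σ c) * e2
    · rcases F.hκ with ⟨k0, q0⟩ | ⟨k1, ε1, s1⟩
      · rw [k0, zero_mul]
      · rw [ε1, s1, F.q_zero]
        ring
  refine ⟨0, a1, ?_⟩
  have h1 : F.El u (c • u) 0 = F.El u 0 (c - F.ε * F.σ c) := by
    apply ext_ap
    intro x
    rw [El_ap a1, El_ap a2, F.h_smul_right, F.h_zero_right]
    module
  rw [h1]
  exact h0 _ a2

/-- all Siegel transformations along `e x` -/
private theorem full_e (H : Subgroup F.G) (hR : Roots B H) (x : X) (w : V) (s : K) :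
    F.El (B.e x) w s ∈ H := by
  by_cases hs : F.Adm (B.e x) w s
  swap
  · rw [El, dif_neg hs]
    exact H.one_mem
  refine full_all (hR.ep x) ?_ hs
  have hw : F.h w (B.e x) = 0 := F.h_symm_zero hs.2.2.1
  have hu := B.hee x x
  have hq := B.qe x
  obtain ⟨a, b, hab⟩ := B.decomp' w
  rw [hab]
  refine full_add (full_add (full_sum hu hq _ _ fun y _ => ?_)
    (full_sum hu hq _ _ fun y _ => ?_)) (full_add ?_ ?_)
  · by_cases hxy : x = y
    · subst hxy
      exact full_self hu hq (hR.ep x) _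
    · exact ⟨0, full_adm _ _ hu hq (B.hee y y) (B.qe y) (B.hee x y) _, hR.ee x y hxy _⟩
  · by_cases hxy : x = y
    · subst hxy
      rw [hw, mul_zero, zero_smul]
      exact full_zero H hu hq
    · refine ⟨0, full_adm _ _ hu hq (B.hff y y) (B.qf y) ?_ _, hR.ef x y hxy _⟩
      rw [B.hef, if_neg hxy]
  · exact hR.ew x 0 a
  · exact hR.ew x 1 b

/-- the frame with the two families exchanged -/
private def full_frame (B : Frame F X) : Frame F X where
  e := B.f
  f := fun y => F.ε • B.e y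
  v := B.v
  hee := B.hff
  hff := fun x y => by rw [F.h_smul, F.h_smul_right, B.hee, mul_zero, mul_zero]
  hef := fun x y => by
    rw [F.h_smul_right, F.σε, B.hfe]
    by_cases h : x = y
    · rw [if_pos h, if_pos h, F.ε2]
    · rw [if_neg h, if_neg h, mul_zero]
  qe := B.qf
  qf := fun x => by rw [F.q_smul, B.qe, mul_zero]
  hve := B.hvf
  hvf := fun i x => by rw [F.h_smul_right, B.hve, mul_zero]
  span := by
    intro w h1 h2
    refine B.span w (fun x => ?_) h1
    have h3 := h2 x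
    rw [F.h_smul_right, F.σε] at h3
    exact (mul_eq_zero.1 h3).resolve_left F.ε_ne
  aniso := by
    intro w h1 h2
    refine B.aniso w (fun x => ?_) h1
    have h3 := h2 x
    rw [F.h_smul_right, F.σε] at h3
    exact (mul_eq_zero.1 h3).resolve_left F.ε_ne

/-- the Weyl element -/
private theorem full_weyl (H : Subgroup F.G) (hR : Roots B H) {p q : X} (hpq : p ≠ q) :
    ∃ n ∈ H, n.1 (B.e p) = B.f q ∧ ∀ i, n.1 (B.v i) = B.v i := by
  have e2 := F.ε2
  have af : F.Adm (B.f p) ((1 : K) • B.f q) 0 :=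
    full_adm _ _ (B.hff p p) (B.qf p) (B.hff q q) (B.qf q) (B.hff p q) 1
  have ae : F.Adm (B.e p) ((1 : K) • B.e q) 0 :=
    full_adm _ _ (B.hee p p) (B.qe p) (B.hee q q) (B.qe q) (B.hee p q) 1
  refine ⟨F.El (B.f p) ((1 : K) • B.f q) 0 * F.El (B.e p) ((1 : K) • B.e q) 0 *
    F.El (B.f p) ((1 : K) • B.f q) 0,
    H.mul_mem (H.mul_mem (hR.ff p q hpq 1) (hR.ee p q hpq 1)) (hR.ff p q hpq 1), ?_, ?_⟩
  · rw [mul_ap, mul_ap]
    have h1 : (F.El (B.f p) ((1 : K) • B.f q) 0).1 (B.e p) = B.e p + B.f q := by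
      rw [El_ap af, one_smul, B.hef, B.hef, if_pos rfl, if_neg hpq]
      simp
    have h2 : (F.El (B.e p) ((1 : K) • B.e q) 0).1 (B.e p + B.f q) = B.f q := by
      rw [El_ap ae, one_smul, F.h_add, F.h_add, B.hee, B.hee, B.hfe, B.hfe, if_pos rfl,
        if_neg (Ne.symm hpq)]
      simp [e2]
    have h3 : (F.El (B.f p) ((1 : K) • B.f q) 0).1 (B.f q) = B.f q := by
      rw [El_ap af, one_smul, B.hff, B.hff]
      simp
    rw [h1, h2, h3]
  · intro i
    rw [mul_ap, mul_ap]
    have h1 : (F.El (B.f p) ((1 : K) • B.f q) 0).1 (B.v i) = B.v i :=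
      El_fix (B.hvf i p) (by rw [one_smul]; exact B.hvf i q)
    have h2 : (F.El (B.e p) ((1 : K) • B.e q) 0).1 (B.v i) = B.v i :=
      El_fix (B.hve i p) (by rw [one_smul]; exact B.hve i q)
    rw [h1, h2, h1]

private theorem full_fe (H : Subgroup F.G) (hR : Roots B H) {p q : X} (hpq : p ≠ q) (μ : K) :
    F.El (B.f p) (μ • B.e q) 0 ∈ H := by
  by_cases hμ : μ = 0
  · rw [hμ, zero_smul, El_one]
    exact H.one_mem
  · have h1 : F.h (B.f p) (μ • B.e q) = 0 := by
      rw [F.h_smul_right, B.hfe, if_neg hpq, mul_zero]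
    have h2 : F.h (μ • B.e q) (μ • B.e q) = 0 := by
      rw [F.h_smul, F.h_smul_right, B.hee, mul_zero, mul_zero]
    have h3 : F.q (μ • B.e q) = 0 := by rw [F.q_smul, B.qe, mul_zero]
    rw [El_swap (B.hff p p) (B.qf p) h2 h3 h1, El_smul hμ, smul_smul, mul_zero]
    exact hR.ef q p (Ne.symm hpq) _

private theorem full_roots (hX : 2 ≤ Fintype.card X) (H : Subgroup F.G) (hR : Roots B H) :
    Roots (full_frame B) H where
  ef := fun p q hpq μ => by
    show F.El (B.f p) (μ • (F.ε • B.e q)) 0 ∈ H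
    rw [smul_smul]
    exact full_fe H hR hpq _
  ee := hR.ff
  ff := fun p q hpq μ => by
    show F.El (F.ε • B.e p) (μ • (F.ε • B.e q)) 0 ∈ H
    rw [El_smul F.ε_ne, smul_smul, smul_smul, mul_zero]
    exact hR.ee p q hpq _
  ep := fun q s hs => by
    have hs' : F.Adm (B.f q) 0 s := hs
    show F.El (B.f q) 0 s ∈ H
    obtain ⟨p, hp⟩ := Fintype.exists_ne_of_one_lt_card hX q
    obtain ⟨n, hn, h1, h2⟩ := full_weyl H hR hp
    have h3 := El_conj n (B.e p) 0 s
    rw [h1, map_zero] at h3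
    rw [← h3]
    refine H.mul_mem (H.mul_mem hn (hR.ep p s ?_)) (H.inv_mem hn)
    rw [← Adm_conj n, h1, map_zero]
    exact hs'
  ew := fun q i a => by
    obtain ⟨p, hp⟩ := Fintype.exists_ne_of_one_lt_card hX q
    obtain ⟨n, hn, h1, h2⟩ := full_weyl H hR hp
    obtain ⟨s, a1, b1⟩ := hR.ew p i a
    refine ⟨s, ?_, ?_⟩
    · show F.Adm (B.f q) (a • B.v i) s
      rw [← Adm_conj n, h1, map_smul, h2] at a1
      exact a1
    · show F.El (B.f q) (a • B.v i) s ∈ H
      have h3 := El_conj n (B.e p) (a • B.v i) s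
      rw [h1, map_smul, h2] at h3
      rw [← h3]
      exact H.mul_mem (H.mul_mem hn b1) (H.inv_mem hn)

private theorem full_ce (H : Subgroup F.G) (hR : Roots B H) (c : K) (x : X) (w : V) (s : K) :
    F.El (c • B.e x) w s ∈ H := by
  by_cases hc : c = 0
  · rw [hc, zero_smul, El_zero]
    exact H.one_mem
  · rw [El_smul hc]
    exact full_e H hR x _ _

private theorem full_cf (hX : 2 ≤ Fintype.card X) (H : Subgroup F.G) (hR : Roots B H) (c : K)
    (x : X) (w : V) (s : K) : F.El (c • B.f x) w s ∈ H :=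
  full_ce (B := full_frame B) H (full_roots hX H hR) c x w s

private theorem full_conj (H : Subgroup F.G) {n : F.G} (hn : n ∈ H) {u b w : V} {s : K}
    (h1 : n.1 u = b) (h2 : ∀ w s, F.El b w s ∈ H) : F.El u w s ∈ H := by
  have h3 := El_conj n u w s
  rw [h1] at h3
  have h4 : F.El u w s = n⁻¹ * (n * F.El u w s * n⁻¹) * n := by group
  rw [h4, h3]
  exact H.mul_mem (H.mul_mem (H.inv_mem hn) (h2 _ _)) hn

/-- The root elements generate all Siegel transformations.

Proof.
(1) Weyl element: for `p ≠ q`, `n = El (f p) (1 • f q) 0 * El (e p) (1 • e q) 0 *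
El (f p) (1 • f q) 0 ∈ H` satisfies `n (e p) = f q` and fixes every vector orthogonal to
`e p, e q, f p, f q`; check: `El (e p) (e q) 0` maps `f q ↦ f q - e p` (`σ 1 = 1`) and fixes
`e p`; `El (f p) (f q) 0` maps `e p ↦ e p + f q` and fixes `f q`.  Conjugating by `n`
(`El_conj`) we get for `f` what we know for `e`: all `El (f q) 0 s`, and for all `i`, `a` some
admissible `El (f q) (a • v i) s`.
Also `El (f p) (μ • e q) 0 = El (μ • e q) (-ε • f p) 0 = El (e q) ((-ε σ(μ)) • f p) 0 ∈ H` for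
`p ≠ q` (`El_swap`, `El_smul`; `μ = 0` trivial by `El_one`).
(2) Let `u = e x` (or `f x`).  Let `T u` be the set of `w` such that `El u w s ∈ H` for all
admissible `(u, w, s)` and some admissible `s` exists.  `T u` is closed under addition: if
`w, w' ∈ T u` and `(u, w + w', s)` is admissible, take admissible `s1` for `w` and
`s' = s - s1 + ε h(w', w)`; `s'` is admissible for `w'` and
`El u w s1 * El u w' s' = El u (w + w') s`.  A vector `w` for which one admissible `El u w s1` is
in `H` is in `T u`, as `El u w s = El u w s1 * El u 0 (s - s1)`.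
(3) Every `w` with `h u w = 0` is a sum of `c • e y`, `c • f y` (`y ≠ x`), `c • u` and
`a • v 0`, `b • v 1` (`Frame.decomp'`; for `u = e x` the coefficient of `f x` is
`ε h(w, e x) = 0`); all of these are in `T u`; for `c • u`:
`El u (c • u) s = El u 0 (s + ...)`: directly from `El_ap`,
`El u (c • u) s x = x + h(x,u) c u - ε σ(c) h(x,u) u + s h(x,u) u = El u 0 (s + c - ε σ(c)) x`.
Hence `El u w s ∈ H` for all admissible `(u, w, s)` with `u = e x` or `u = f x`; by `El_smul`
also for `u = c • e x`, `c • f x` (`c ≠ 0`).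
(4) General singular `u ≠ 0` (for `u = 0` use `El_zero`): by `Frame.exists_coord` there is `x`
with `h u (f x) ≠ 0` or `h u (e x) ≠ 0`.  In the first case let `b = h(u, f x) • e x`; `move`
with `v = f x` gives an element of `H` (by (3), for the vector `c • f x`; `c = 0` is
impossible or trivial by `El_zero`) with `u ↦ b`; conjugating (`El_conj`) we are done by (3).
In the second case `b = (ε h(u, e x)) • f x` and `v = e x`. -/
theorem El_mem (hX : 3 ≤ Fintype.card X) (H : Subgroup F.G) (hR : Roots B H) (u w : V) (s : K) :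
    F.El u w s ∈ H := by
  have hX2 : 2 ≤ Fintype.card X := by omega
  by_cases hs : F.Adm u w s
  swap
  · rw [El, dif_neg hs]
    exact H.one_mem
  by_cases hu0 : u = 0
  · rw [hu0, El_zero]
    exact H.one_mem
  have hu := hs.1
  have hq := hs.2.1
  have e2 := F.ε2
  obtain ⟨x, hx | hx⟩ := B.exists_coord hu hq hu0
  · obtain ⟨c, s', h1, h2⟩ := move (a := u) (b := F.h u (B.f x) • B.e x) (v := B.f x)
      (B.hff x x) (B.qf x) hx
      (by rw [F.h_smul, B.hef, if_pos rfl, mul_one])
      (by rw [hu, F.h_smul, F.h_smul_right, B.hee, mul_zero, mul_zero])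
      (by rw [hq, F.q_smul, B.qe, mul_zero])
    exact full_conj H (full_cf hX2 H hR c x _ s') h2 fun w s => full_ce H hR _ x w s
  · obtain ⟨c, s', h1, h2⟩ := move (a := u) (b := (F.ε * F.h u (B.e x)) • B.f x) (v := B.e x)
      (B.hee x x) (B.qe x) hx
      (by rw [F.h_smul, B.hfe, if_pos rfl]; linear_combination -(F.h u (B.e x)) * e2)
      (by rw [hu, F.h_smul, F.h_smul_right, B.hff, mul_zero, mul_zero])
      (by rw [hq, F.q_smul, B.qf, mul_zero])
    exact full_conj H (full_ce H hR c x _ s') h2 fun w s => full_cf hX2 H hR _ x w s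

end H47Cl
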