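import Mathlib
import Pool.Agent.H.MP_0335f8_cl.Full

set_option linter.unusedSectionVars false

/-!
# The isometry group modulo the Siegel transformations is abelian (module QuotA)
-/

namespace H47Cl

open H47Cl.Frm

variable {K V : Type*} [Field K] [AddCommGroup V] [Module K V] {F : Frm K V}
  {X : Type*} [Fintype X] [DecidableEq X] (B : Frame F X)

/-- the group generated by all Siegel transformations -/
def siegel (F : Frm K V) : Subgroup F.G :=
  Subgroup.closure {g | ∃ u w s, g = F.El u w s}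

/-- `siegel F` is normal (from `El_conj`). -/
theorem siegel_normal (F : Frm K V) : (siegel F).Normal := by
  refine ⟨fun n hn g => ?_⟩
  unfold siegel at hn ⊢
  induction hn using Subgroup.closure_induction with
  | mem a ha =>
    obtain ⟨u, w, s, rfl⟩ := ha
    exact Subgroup.subset_closure ⟨_, _, _, El_conj g u w s⟩
  | one => rw [mul_one, mul_inv_cancel]; exact Subgroup.one_mem _
  | mul a b _ _ iha ihb =>
    have h : g * (a * b) * g⁻¹ = (g * a * g⁻¹) * (g * b * g⁻¹) := by group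
    rw [h]
    exact Subgroup.mul_mem _ iha ihb
  | inv a _ iha =>
    have h : g * a⁻¹ * g⁻¹ = (g * a * g⁻¹)⁻¹ := by group
    rw [h]
    exact Subgroup.inv_mem _ iha

private theorem quotA_El (u w : V) (s : K) : F.El u w s ∈ siegel F :=
  Subgroup.subset_closure ⟨u, w, s, rfl⟩

/-- orthogonal to the planes in `T` -/
private def quotA_O (T : Finset X) (a : V) : Prop :=
  ∀ y ∈ T, F.h (B.e y) a = 0 ∧ F.h (B.f y) a = 0

/-- congruence by elements fixing the planes in `T` -/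
private def quotA_R (T : Finset X) (a b : V) : Prop :=
  ∃ r ∈ siegel F, (∀ y ∈ T, r.1 (B.e y) = B.e y ∧ r.1 (B.f y) = B.f y) ∧ r.1 a = b

private theorem quotA_trans {T : Finset X} {a b c : V} (h : quotA_R B T a b)
    (h' : quotA_R B T b c) : quotA_R B T a c := by
  obtain ⟨r, h1, h2, h3⟩ := h
  obtain ⟨r', h1', h2', h3'⟩ := h'
  refine ⟨r' * r, Subgroup.mul_mem _ h1' h1, fun y hy => ⟨?_, ?_⟩, ?_⟩
  · rw [mul_ap, (h2 y hy).1, (h2' y hy).1]
  · rw [mul_ap, (h2 y hy).2, (h2' y hy).2]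
  · rw [mul_ap, h3, h3']

private theorem quotA_O_smul {T : Finset X} {a : V} (c : K) (h : quotA_O B T a) :
    quotA_O B T (c • a) := fun y hy => by
  rw [F.h_smul_right, F.h_smul_right, (h y hy).1, (h y hy).2, mul_zero]
  exact ⟨rfl, rfl⟩

private theorem quotA_O_add {T : Finset X} {a b : V} (h : quotA_O B T a) (h' : quotA_O B T b) :
    quotA_O B T (a + b) := fun y hy => by
  rw [F.h_add_right, F.h_add_right, (h y hy).1, (h y hy).2, (h' y hy).1, (h' y hy).2, add_zero]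
  exact ⟨rfl, rfl⟩

private theorem quotA_O_sub {T : Finset X} {a b : V} (h : quotA_O B T a) (h' : quotA_O B T b) :
    quotA_O B T (a - b) := fun y hy => by
  rw [F.h_sub_right, F.h_sub_right, (h y hy).1, (h y hy).2, (h' y hy).1, (h' y hy).2, sub_zero]
  exact ⟨rfl, rfl⟩

private theorem quotA_O_e {T : Finset X} {z : X} (hz : z ∉ T) : quotA_O B T (B.e z) :=
  fun y hy => by
  have hyz : y ≠ z := fun h => hz (h ▸ hy)
  exact ⟨B.hee y z, by rw [B.hfe, if_neg hyz]⟩

private theorem quotA_O_f {T : Finset X} {z : X} (hz : z ∉ T) : quotA_O B T (B.f z) :=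
  fun y hy => by
  have hyz : y ≠ z := fun h => hz (h ▸ hy)
  exact ⟨by rw [B.hef, if_neg hyz], B.hff y z⟩

private theorem quotA_fix {T : Finset X} {c s : K} {v w : V} (hv : quotA_O B T v)
    (hw : quotA_O B T w) (y : X) (hy : y ∈ T) :
    (F.El (c • v) w s).1 (B.e y) = B.e y ∧ (F.El (c • v) w s).1 (B.f y) = B.f y :=
  ⟨El_fix (quotA_O_smul B c hv y hy).1 (hw y hy).1,
    El_fix (quotA_O_smul B c hv y hy).2 (hw y hy).2⟩

private theorem quotA_move {T : Finset X} {a b v : V} (ha : quotA_O B T a) (hb : quotA_O B T b)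
    (hv : quotA_O B T v) (v1 : F.h v v = 0) (v2 : F.q v = 0) (h1 : F.h a v ≠ 0)
    (h2 : F.h a v = F.h b v) (h3 : F.h a a = F.h b b) (h4 : F.q a = F.q b) :
    quotA_R B T a b := by
  obtain ⟨c, s, -, h5⟩ := move v1 v2 h1 h2 h3 h4
  exact ⟨_, quotA_El _ _ _, quotA_fix B hv (quotA_O_sub B hb ha), h5⟩

private theorem quotA_ee {T : Finset X} {y z : X} (hy : y ∉ T) (hz : z ∉ T) (hyz : y ≠ z) {c : K}
    (hc : c ≠ 0) : quotA_R B T (c • B.e y) (B.e z) := by
  have hσ : F.σ c ≠ 0 := fun h0 => hc (F.σ_eq_zero.1 h0)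
  have h1 : F.h (c • B.e y) (B.f z + (F.σ c)⁻¹ • B.f y) = 1 := by
    rw [F.h_smul, F.h_add_right, F.h_smul_right, B.hef, B.hef, if_neg hyz, if_pos rfl, map_inv₀,
      F.σσ, zero_add, mul_one, mul_inv_cancel₀ hc]
  have h2 : F.h (B.e z) (B.f z + (F.σ c)⁻¹ • B.f y) = 1 := by
    rw [F.h_add_right, F.h_smul_right, B.hef, B.hef, if_neg (Ne.symm hyz), if_pos rfl, mul_zero,
      add_zero]
  refine quotA_move B (quotA_O_smul B c (quotA_O_e B hy)) (quotA_O_e B hz)
    (quotA_O_add B (quotA_O_f B hz) (quotA_O_smul B (F.σ c)⁻¹ (quotA_O_f B hy)))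
    ?_ ?_ ?_ ?_ ?_ ?_
  · simp only [F.h_add, F.h_add_right, F.h_smul, F.h_smul_right, B.hff, mul_zero, add_zero]
  · rw [F.q_add, F.q_smul, B.qf, B.qf, F.h_smul_right, B.hff]
    ring
  · rw [h1]
    exact one_ne_zero
  · rw [h1, h2]
  · rw [F.h_smul, F.h_smul_right, B.hee, B.hee, mul_zero, mul_zero]
  · rw [F.q_smul, B.qe, B.qe, mul_zero]

private theorem quotA_fe {T : Finset X} {y z : X} (hy : y ∉ T) (hz : z ∉ T) (hyz : y ≠ z) {c : K}
    (hc : c ≠ 0) : quotA_R B T (c • B.f y) (B.e z) := by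
  have e2 := F.ε2
  have hσ : F.σ c ≠ 0 := fun h0 => hc (F.σ_eq_zero.1 h0)
  have h1 : F.h (c • B.f y) (B.f z + (F.ε * (F.σ c)⁻¹) • B.e y) = 1 := by
    rw [F.h_smul, F.h_add_right, F.h_smul_right, B.hff, B.hfe, if_pos rfl, map_mul, F.σε, map_inv₀,
      F.σσ, zero_add]
    have h3 : c * (F.ε * c⁻¹ * F.ε) = (c * c⁻¹) * (F.ε * F.ε) := by ring
    rw [h3, mul_inv_cancel₀ hc, e2, mul_one]
  have h2 : F.h (B.e z) (B.f z + (F.ε * (F.σ c)⁻¹) • B.e y) = 1 := by
    rw [F.h_add_right, F.h_smul_right, B.hef, B.hee, if_pos rfl, mul_zero, add_zero]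
  refine quotA_move B (quotA_O_smul B c (quotA_O_f B hy)) (quotA_O_e B hz)
    (quotA_O_add B (quotA_O_f B hz) (quotA_O_smul B (F.ε * (F.σ c)⁻¹) (quotA_O_e B hy)))
    ?_ ?_ ?_ ?_ ?_ ?_
  · simp only [F.h_add, F.h_add_right, F.h_smul, F.h_smul_right, B.hff, B.hee, B.hef, B.hfe,
      if_neg hyz, if_neg (Ne.symm hyz), mul_zero, add_zero]
  · rw [F.q_add, F.q_smul, B.qf, B.qe, F.h_smul_right, B.hfe, if_neg (Ne.symm hyz)]
    ring
  · rw [h1]
    exact one_ne_zero
  · rw [h1, h2]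
  · rw [F.h_smul, F.h_smul_right, B.hff, B.hee, mul_zero, mul_zero]
  · rw [F.q_smul, B.qf, B.qe, mul_zero]

private theorem quotA_O_ap {T : Finset X} {g : F.G}
    (hg : ∀ y ∈ T, g.1 (B.e y) = B.e y ∧ g.1 (B.f y) = B.f y) {a : V} (ha : quotA_O B T a) :
    quotA_O B T (g.1 a) := fun y hy => by
  refine ⟨?_, ?_⟩
  · rw [← (hg y hy).1, G_h]
    exact (ha y hy).1
  · rw [← (hg y hy).2, G_h]
    exact (ha y hy).2

private theorem quotA_first {T : Finset X} {x z : X} (hx : x ∉ T) (hz : z ∉ T) (hxz : x ≠ z)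
    {u : V} (hu : F.h u u = 0) (hq : F.q u = 0) (h0 : u ≠ 0) (hT : quotA_O B T u) :
    quotA_R B T u (B.e z) := by
  have e2 := F.ε2
  obtain ⟨y, hy | hy⟩ := B.exists_coord hu hq h0
  · have hyT : y ∉ T := fun h => hy (F.h_symm_zero (hT y h).2)
    have h1 : quotA_R B T u (F.h u (B.f y) • B.e y) := by
      refine quotA_move B hT (quotA_O_smul B _ (quotA_O_e B hyT)) (quotA_O_f B hyT) (B.hff y y)
        (B.qf y) hy ?_ ?_ ?_
      · rw [F.h_smul, B.hef, if_pos rfl, mul_one]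
      · rw [hu, F.h_smul, F.h_smul_right, B.hee, mul_zero, mul_zero]
      · rw [hq, F.q_smul, B.qe, mul_zero]
    by_cases hyz : y = z
    · subst hyz
      refine quotA_trans B h1 (quotA_trans B (quotA_ee B hyT hx (Ne.symm hxz) hy) ?_)
      have h2 := quotA_ee B hx hyT hxz (c := 1) one_ne_zero
      rwa [one_smul] at h2
    · exact quotA_trans B h1 (quotA_ee B hyT hz hyz hy)
  · have hyT : y ∉ T := fun h => hy (F.h_symm_zero (hT y h).1)
    have hc : F.ε * F.h u (B.e y) ≠ 0 := mul_ne_zero F.ε_ne hy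
    have h1 : quotA_R B T u ((F.ε * F.h u (B.e y)) • B.f y) := by
      refine quotA_move B hT (quotA_O_smul B _ (quotA_O_f B hyT)) (quotA_O_e B hyT) (B.hee y y)
        (B.qe y) hy ?_ ?_ ?_
      · rw [F.h_smul, B.hfe, if_pos rfl]
        linear_combination -(F.h u (B.e y)) * e2
      · rw [hu, F.h_smul, F.h_smul_right, B.hff, mul_zero, mul_zero]
      · rw [hq, F.q_smul, B.qf, mul_zero]
    by_cases hyz : y = z
    · subst hyz
      refine quotA_trans B h1 (quotA_trans B (quotA_fe B hyT hx (Ne.symm hxz) hc) ?_)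
      have h2 := quotA_ee B hx hyT hxz (c := 1) one_ne_zero
      rwa [one_smul] at h2
    · exact quotA_trans B h1 (quotA_fe B hyT hz hyz hc)

/-- Reduction of one plane.  `T` is the set of planes which are already fixed.

Proof.  Say `Rel a b` if some `r ∈ siegel F` fixes all `e y, f y` (`y ∈ T`) and `r a = b`; this is
transitive.  By `move`: if `a, b, v` are singular, all orthogonal to `e y, f y` for `y ∈ T`, and
`h a v = h b v ≠ 0`, then `Rel a b` (`El_fix`).
Let `u = g (e z)`; it is singular, nonzero and orthogonal to `e y, f y`, `y ∈ T` (as `g` fixes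
them).  By `exists_coord` there is `y` with `h u (f y) ≠ 0` or `h u (e y) ≠ 0`, and `y ∉ T`.
So `Rel u (c • e y)` with `c = h u (f y)`, `v = f y`, resp. `Rel u (c • f y)` with
`c = ε h u (e y)`, `v = e y`.  If `y ≠ z'` then `Rel (c • e y) (e z')` by
`v = f z' + σ(c)⁻¹ • f y` and `Rel (c • f y) (e z')` by `v = f z' + (ε σ(c)⁻¹) • e y` (check:
`h (c • f y) (ε σ(c)⁻¹ • e y) = c ε c⁻¹ ε = 1`), for all `z' ∉ T`.  If `y ≠ z` use `z' = z`; if
`y = z` go through `z' = x` first and then from `e x` to `e z`.  So `Rel u (e z)`: `r (u) = e z`.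
Now `v' = r (g (f z))` is singular with `h (e z) v' = 1`, orthogonal to the planes in `T`; so
`h v' (e z) = ε = h (f z) (e z)` and `move` with `v = e z` gives `r'` with `r' v' = f z`; it
fixes `e z` (`El_fix`: `h (e z) (e z) = 0`, `h (e z) (f z - v') = 0`) and the planes of `T`.
Take `r' * r`. -/
theorem reduce_plane (T : Finset X) (x z : X) (hx : x ∉ T) (hz : z ∉ T) (hxz : x ≠ z) (g : F.G)
    (hg : ∀ y ∈ T, g.1 (B.e y) = B.e y ∧ g.1 (B.f y) = B.f y) :
    ∃ r ∈ siegel F, ∀ y ∈ insert z T, (r * g).1 (B.e y) = B.e y ∧ (r * g).1 (B.f y) = B.f y := by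
  have hu : F.h (g.1 (B.e z)) (g.1 (B.e z)) = 0 := by rw [G_h, B.hee]
  have hq : F.q (g.1 (B.e z)) = 0 := by rw [G_q, B.qe]
  have h0 : g.1 (B.e z) ≠ 0 := by
    intro h
    have h1 : F.h (g.1 (B.e z)) (g.1 (B.f z)) = 1 := by rw [G_h, B.hef, if_pos rfl]
    rw [h, F.h_zero_left] at h1
    exact zero_ne_one h1
  obtain ⟨r, h1, h2, h3⟩ := quotA_first B hx hz hxz hu hq h0
    (quotA_O_ap B hg (quotA_O_e B hz))
  set v' := r.1 (g.1 (B.f z)) with hv'
  have hO : quotA_O B T v' := quotA_O_ap B h2 (quotA_O_ap B hg (quotA_O_f B hz))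
  have h4 : F.h (B.e z) v' = 1 := by
    rw [← h3, hv', G_h, G_h, B.hef, if_pos rfl]
  have h5 : F.h v' (B.e z) = F.ε := by
    rw [F.h_swap, h4, map_one, mul_one]
  obtain ⟨c, s, h6, h7⟩ := move (a := v') (b := B.f z) (v := B.e z) (B.hee z z) (B.qe z)
    (by rw [h5]; exact F.ε_ne) (by rw [h5, B.hfe, if_pos rfl])
    (by rw [hv', G_h, G_h]) (by rw [hv', G_q, G_q])
  refine ⟨F.El (c • B.e z) (B.f z - v') s * r, Subgroup.mul_mem _ (quotA_El _ _ _) h1, ?_⟩
  intro y hy
  rcases Finset.mem_insert.1 hy with rfl | hy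
  · refine ⟨?_, ?_⟩
    · rw [mul_ap, mul_ap, h3]
      apply El_fix
      · rw [F.h_smul_right, B.hee, mul_zero]
      · rw [F.h_sub_right, B.hef, if_pos rfl, h4, sub_self]
    · rw [mul_ap, mul_ap]
      exact h7
  · have h8 := quotA_fix B (c := c) (s := s) (quotA_O_e B hz)
      (quotA_O_sub B (quotA_O_f B hz) hO) y hy
    refine ⟨?_, ?_⟩
    · rw [mul_ap, mul_ap, (hg y hy).1, (h2 y hy).1]
      exact h8.1
    · rw [mul_ap, mul_ap, (hg y hy).2, (h2 y hy).2]
      exact h8.2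

/-- Every isometry is congruent to one fixing all planes except the plane `x`
(induction on a finset of planes not containing `x`, by `reduce_plane`). -/
theorem reduce (x : X) (g : F.G) :
    ∃ r ∈ siegel F, ∀ y, y ≠ x → (r * g).1 (B.e y) = B.e y ∧ (r * g).1 (B.f y) = B.f y := by
  have key : ∀ T : Finset X, x ∉ T → ∃ r ∈ siegel F, ∀ y ∈ T,
      (r * g).1 (B.e y) = B.e y ∧ (r * g).1 (B.f y) = B.f y := by
    intro T
    induction T using Finset.induction_on with
    | empty => exact fun _ => ⟨1, Subgroup.one_mem _, fun y hy => absurd hy (Finset.notMem_empty y)⟩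
    | insert z T hz ih =>
      intro hx
      have hxz : x ≠ z := fun h => hx (h ▸ Finset.mem_insert_self x T)
      have hxT : x ∉ T := fun h => hx (Finset.mem_insert_of_mem h)
      obtain ⟨r, h1, h2⟩ := ih hxT
      obtain ⟨r', h1', h2'⟩ := reduce_plane B T x z hxT hz hxz (r * g) h2
      refine ⟨r' * r, Subgroup.mul_mem _ h1' h1, ?_⟩
      rw [mul_assoc]
      exact h2'
  obtain ⟨r, h1, h2⟩ := key (Finset.univ.erase x) (Finset.notMem_erase x _)
  exact ⟨r, h1, fun y hy => h2 y (Finset.mem_erase.2 ⟨hy, Finset.mem_univ y⟩)⟩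

end H47Cl
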