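import Mathlib
import Pool.Agent.H.MP_0335f8_cl.QuotA

set_option linter.unusedSectionVars false

/-!
# The isometry group modulo the Siegel transformations is abelian (module Quot)
-/

namespace H47Cl

open H47Cl.Frm

variable {K V : Type*} [Field K] [AddCommGroup V] [Module K V] {F : Frm K V}
  {X : Type*} [Fintype X] [DecidableEq X] (B : Frame F X)

/-- A vector `w` of the anisotropic part can be moved into the plane `x` by a product of Siegel
transformations which fixes all vectors orthogonal to the plane `x` and to the anisotropic part.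

Proof.  If `w = 0` take `r = 1`.  Otherwise `w` is not orthogonal to all vectors (`F.nd`), and
it is orthogonal to all `e, f`, so there is `y` orthogonal to all `e, f` with `c = -ε h(w, y) ≠ 0`
(take `y = B.pr z`).  Let `s` be such that `(e x, y, s)` is admissible (`F.tr y`):
`r1 = El (e x) y s` maps `w` to `w + c • e x`.  Let `s'` be admissible for
`(f x, -(c⁻¹ • w), s')` (`F.tr`), `r2 = El (f x) (-(c⁻¹ • w)) s'`: it maps `w + c • e x` to
`c • e x + d • f x` for some `d`.  Take `r = r2 * r1` and use `El_fix`. -/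
theorem move_in (x : X) (w : V) (he : ∀ y, F.h w (B.e y) = 0) (hf : ∀ y, F.h w (B.f y) = 0) :
    ∃ r ∈ siegel F, (∃ c d : K, r.1 w = c • B.e x + d • B.f x) ∧
      ∀ z, F.h z (B.e x) = 0 → F.h z (B.f x) = 0 →
        (∀ w', (∀ y, F.h w' (B.e y) = 0) → (∀ y, F.h w' (B.f y) = 0) → F.h z w' = 0) →
        r.1 z = z := by
  classical
  by_cases hw : w = 0
  · refine ⟨1, (siegel F).one_mem, ⟨0, 0, ?_⟩, fun z _ _ _ => rfl⟩
    rw [hw, one_ap]
    simp
  have hex : ∃ z, F.h w z ≠ 0 := by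
    by_contra hcon
    push Not at hcon
    exact hw (F.nd w hcon)
  obtain ⟨z0, hz0⟩ := hex
  set y := B.pr z0 with hy
  have hye : ∀ t, F.h y (B.e t) = 0 := fun t => B.pr_e z0 t
  have hyf : ∀ t, F.h y (B.f t) = 0 := fun t => B.pr_f z0 t
  have hwy : F.h w y ≠ 0 := by
    intro h0
    apply hz0
    rw [B.decomp z0, F.h_add_right, F.h_add_right, F.h_sum_right, F.h_sum_right, ← hy, h0]
    simp [F.h_smul_right, he, hf]
  set c := -(F.ε * F.h w y) with hc
  have hc0 : c ≠ 0 := by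
    rw [hc]
    exact neg_ne_zero.2 (mul_ne_zero F.ε_ne hwy)
  obtain ⟨s, hs1, hs2⟩ := F.tr y
  have hA1 : F.Adm (B.e x) y s :=
    ⟨B.hee x x, B.qe x, F.h_symm_zero (hye x), hs1, hs2⟩
  set w' := -(c⁻¹ • w) with hw'
  have hw'e : ∀ t, F.h w' (B.e t) = 0 := by
    intro t
    rw [hw', F.h_neg, F.h_smul, he, mul_zero, neg_zero]
  have hw'f : ∀ t, F.h w' (B.f t) = 0 := by
    intro t
    rw [hw', F.h_neg, F.h_smul, hf, mul_zero, neg_zero]
  obtain ⟨s', hs1', hs2'⟩ := F.tr w'
  have hA2 : F.Adm (B.f x) w' s' :=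
    ⟨B.hff x x, B.qf x, F.h_symm_zero (hw'f x), hs1', hs2'⟩
  have hr1 : (F.El (B.e x) y s).1 w = w + c • B.e x := by
    rw [El_ap hA1, he x, hc]
    module
  have hcon : F.h (w + c • B.e x) (B.f x) = c := by
    rw [F.h_add, hf x, F.h_smul, B.hef, if_pos rfl]
    ring
  have hr2 : (F.El (B.f x) w' s').1 (w + c • B.e x) =
      c • B.e x + (s' * c - F.ε * F.h (w + c • B.e x) w') • B.f x := by
    rw [El_ap hA2, hcon]
    have h3 : c • w' = -w := by
      rw [hw', smul_neg, smul_smul, mul_inv_cancel₀ hc0, one_smul]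
    rw [h3]
    module
  refine ⟨F.El (B.f x) w' s' * F.El (B.e x) y s, ?_,
    ⟨c, s' * c - F.ε * F.h (w + c • B.e x) w', ?_⟩, ?_⟩
  · exact (siegel F).mul_mem (Subgroup.subset_closure ⟨_, _, _, rfl⟩)
      (Subgroup.subset_closure ⟨_, _, _, rfl⟩)
  · rw [mul_ap, hr1, hr2]
  · intro z h1 h2 h3
    rw [mul_ap, El_fix h1 (h3 y hye hyf), El_fix h2 (h3 w' hw'e hw'f)]

/-- vectors orthogonal to the plane `x` and to the anisotropic part are orthogonal to all
vectors which are orthogonal to all other planes -/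
private theorem orth_U (x : X) {z u : V} (ze : F.h z (B.e x) = 0) (zf : F.h z (B.f x) = 0)
    (zv : ∀ i, F.h z (B.v i) = 0)
    (hu : ∀ y, y ≠ x → F.h u (B.e y) = 0 ∧ F.h u (B.f y) = 0) : F.h z u = 0 := by
  obtain ⟨a, b, hab⟩ := B.decomp' u
  rw [hab, F.h_add_right, F.h_add_right, F.h_add_right, F.h_sum_right, F.h_sum_right,
    F.h_smul_right, F.h_smul_right, zv, zv]
  rw [Finset.sum_eq_zero, Finset.sum_eq_zero]
  · ring
  · intro y _
    by_cases hy : y = x
    · rw [hy, F.h_smul_right, zf, mul_zero]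
    · rw [(hu y hy).1]; simp
  · intro y _
    by_cases hy : y = x
    · rw [hy, F.h_smul_right, ze, mul_zero]
    · rw [(hu y hy).2]; simp

/-- if `b` fixes all planes except `x` then `b` preserves the vectors orthogonal to all
other planes -/
private theorem pres_U (x : X) {b : F.G}
    (hb : ∀ y, y ≠ x → b.1 (B.e y) = B.e y ∧ b.1 (B.f y) = B.f y) {u : V}
    (hu : ∀ y, y ≠ x → F.h u (B.e y) = 0 ∧ F.h u (B.f y) = 0) :
    ∀ y, y ≠ x → F.h (b.1 u) (B.e y) = 0 ∧ F.h (b.1 u) (B.f y) = 0 := by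
  intro y hy
  constructor
  · have := G_h b u (B.e y)
    rw [(hb y hy).1, (hu y hy).1] at this
    exact this
  · have := G_h b u (B.f y)
    rw [(hb y hy).2, (hu y hy).2] at this
    exact this

private theorem fix_inv (x : X) {b : F.G}
    (hb : ∀ y, y ≠ x → b.1 (B.e y) = B.e y ∧ b.1 (B.f y) = B.f y) :
    ∀ y, y ≠ x → (b⁻¹).1 (B.e y) = B.e y ∧ (b⁻¹).1 (B.f y) = B.f y :=
  fun y hy => ⟨inv_fix (hb y hy).1, inv_fix (hb y hy).2⟩

/-- if `b` fixes all planes except `x` then `b` fixes the vectors orthogonal to the plane `x`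
and to the anisotropic part -/
private theorem fix_orth (x : X) {b : F.G}
    (hb : ∀ y, y ≠ x → b.1 (B.e y) = B.e y ∧ b.1 (B.f y) = B.f y) {z : V}
    (ze : F.h z (B.e x) = 0) (zf : F.h z (B.f x) = 0) (zv : ∀ i, F.h z (B.v i) = 0) :
    b.1 z = z := by
  have key : ∀ u, (∀ y, y ≠ x → F.h u (B.e y) = 0 ∧ F.h u (B.f y) = 0) →
      F.h (b.1 z) u = F.h z u := by
    intro u hu
    rw [orth_U B x ze zf zv hu]
    have h1 : F.h (b.1 z) u = F.h z ((b⁻¹).1 u) := by
      rw [← G_h b z ((b⁻¹).1 u), inv_ap]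
    rw [h1]
    exact orth_U B x ze zf zv (pres_U B x (fix_inv B x hb) hu)
  apply B.ext_h
  · intro t
    by_cases ht : t = x
    · apply key
      intro y hy
      rw [ht]
      exact ⟨B.hee x y, by rw [B.hef, if_neg (Ne.symm hy)]⟩
    · have := G_h b z (B.e t)
      rw [(hb t ht).1] at this
      exact this
  · intro t
    by_cases ht : t = x
    · apply key
      intro y hy
      rw [ht]
      exact ⟨by rw [B.hfe, if_neg (Ne.symm hy)], B.hff x y⟩
    · have := G_h b z (B.f t)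
      rw [(hb t ht).2] at this
      exact this
  · intro i
    apply key
    intro y _
    exact ⟨B.hve i y, B.hvf i y⟩

/-- a linear map fixing the plane `x` and the anisotropic part fixes all vectors orthogonal to
the other planes -/
private theorem fix_U (x : X) {b : F.G} (be : b.1 (B.e x) = B.e x) (bf : b.1 (B.f x) = B.f x)
    (bv : ∀ i, b.1 (B.v i) = B.v i) {u : V}
    (hu : ∀ y, y ≠ x → F.h u (B.e y) = 0 ∧ F.h u (B.f y) = 0) : b.1 u = u := by
  obtain ⟨a, c, hab⟩ := B.decomp' u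
  have h1 : ∑ y, F.h u (B.f y) • B.e y = F.h u (B.f x) • B.e x := by
    apply Finset.sum_eq_single
    · intro y _ hy
      rw [(hu y hy).2, zero_smul]
    · intro h; exact absurd (Finset.mem_univ x) h
  have h2 : ∑ y, (F.ε * F.h u (B.e y)) • B.f y = (F.ε * F.h u (B.e x)) • B.f x := by
    apply Finset.sum_eq_single
    · intro y _ hy
      rw [(hu y hy).1, mul_zero, zero_smul]
    · intro h; exact absurd (Finset.mem_univ x) h
  rw [h1, h2] at hab
  generalize F.h u (B.f x) = p at hab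
  generalize F.ε * F.h u (B.e x) = q at hab
  rw [hab]
  simp only [map_add, map_smul, be, bf, bv]

/-- the two reduced elements commute -/
private theorem comm_red {x1 x2 x3 x4 : X} (h31 : x3 ≠ x1) (h32 : x3 ≠ x2) (h34 : x3 ≠ x4)
    (h41 : x4 ≠ x1) (h42 : x4 ≠ x2) {a b θ : F.G}
    (ha : ∀ y, y ≠ x3 → a.1 (B.e y) = B.e y ∧ a.1 (B.f y) = B.f y)
    (hb : ∀ y, y ≠ x4 → b.1 (B.e y) = B.e y ∧ b.1 (B.f y) = B.f y)
    (hθ : ∀ y, y ≠ x1 → y ≠ x2 → θ.1 (B.e y) = B.e y ∧ θ.1 (B.f y) = B.f y)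
    (hv : ∀ i j, F.h (B.v i) (θ.1 (B.v j)) = 0) : a * (θ * b * θ⁻¹) = θ * b * θ⁻¹ * a := by
  have hθ' : ∀ y, y ≠ x1 → y ≠ x2 → (θ⁻¹).1 (B.e y) = B.e y ∧ (θ⁻¹).1 (B.f y) = B.f y :=
    fun y h1 h2 => ⟨inv_fix (hθ y h1 h2).1, inv_fix (hθ y h1 h2).2⟩
  have be3 : (θ * b * θ⁻¹).1 (B.e x3) = B.e x3 := by
    rw [mul_ap, mul_ap, (hθ' x3 h31 h32).1, (hb x3 h34).1, (hθ x3 h31 h32).1]
  have bf3 : (θ * b * θ⁻¹).1 (B.f x3) = B.f x3 := by
    rw [mul_ap, mul_ap, (hθ' x3 h31 h32).2, (hb x3 h34).2, (hθ x3 h31 h32).2]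
  have bv3 : ∀ i, (θ * b * θ⁻¹).1 (B.v i) = B.v i := by
    intro i
    have h1 : b.1 ((θ⁻¹).1 (B.v i)) = (θ⁻¹).1 (B.v i) := by
      apply fix_orth B x4 hb
      · rw [G_h_inv, (hθ x4 h41 h42).1]
        exact B.hve i x4
      · rw [G_h_inv, (hθ x4 h41 h42).2]
        exact B.hvf i x4
      · intro j
        rw [G_h_inv]
        exact hv i j
    rw [mul_ap, mul_ap, h1, inv_ap]
  set b' := θ * b * θ⁻¹ with hb'
  have onU : ∀ t, (∀ y, y ≠ x3 → F.h t (B.e y) = 0 ∧ F.h t (B.f y) = 0) →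
      (a * b').1 t = (b' * a).1 t := by
    intro t ht
    rw [mul_ap a b', mul_ap b' a, fix_U B x3 be3 bf3 bv3 ht,
      fix_U B x3 be3 bf3 bv3 (pres_U B x3 ha ht)]
  have offU : ∀ t, F.h t (B.e x3) = 0 → F.h t (B.f x3) = 0 → (∀ i, F.h t (B.v i) = 0) →
      (a * b').1 t = (b' * a).1 t := by
    intro t te tf tv
    rw [mul_ap a b', mul_ap b' a, fix_orth B x3 ha te tf tv]
    apply fix_orth B x3 ha
    · have := G_h b' t (B.e x3)
      rw [be3, te] at this
      exact this
    · have := G_h b' t (B.f x3)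
      rw [bf3, tf] at this
      exact this
    · intro i
      have := G_h b' t (B.v i)
      rw [bv3, tv] at this
      exact this
  apply B.ext_G
  · intro x
    by_cases hx : x = x3
    · apply onU
      intro y hy
      rw [hx]
      exact ⟨B.hee x3 y, by rw [B.hef, if_neg (Ne.symm hy)]⟩
    · apply offU
      · exact B.hee x x3
      · rw [B.hef, if_neg hx]
      · exact fun i => B.hev i x
  · intro x
    by_cases hx : x = x3
    · apply onU
      intro y hy
      rw [hx]
      exact ⟨by rw [B.hfe, if_neg (Ne.symm hy)], B.hff x3 y⟩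
    · apply offU
      · rw [B.hfe, if_neg hx]
      · exact B.hff x x3
      · exact fun i => B.hfv i x
  · intro i
    apply onU
    intro y _
    exact ⟨B.hve i y, B.hvf i y⟩

/-- the element `θ` -/
private theorem exists_theta {x1 x2 : X} (h12 : x1 ≠ x2) :
    ∃ θ ∈ siegel F, (∀ y, y ≠ x1 → y ≠ x2 → θ.1 (B.e y) = B.e y ∧ θ.1 (B.f y) = B.f y) ∧
      ∀ i j, F.h (B.v i) (θ.1 (B.v j)) = 0 := by
  obtain ⟨r1, hr1, ⟨c0, d0, h0⟩, fix1⟩ := move_in B x1 (B.v 0) (B.hve 0) (B.hvf 0)
  have fixe : ∀ (x : X) (r : F.G), (∀ z, F.h z (B.e x) = 0 → F.h z (B.f x) = 0 →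
        (∀ w', (∀ y, F.h w' (B.e y) = 0) → (∀ y, F.h w' (B.f y) = 0) → F.h z w' = 0) →
        r.1 z = z) → ∀ y, y ≠ x → r.1 (B.e y) = B.e y ∧ r.1 (B.f y) = B.f y := by
    intro x r hr y hy
    constructor
    · apply hr
      · exact B.hee y x
      · rw [B.hef, if_neg hy]
      · intro w' h1 _
        exact F.h_symm_zero (h1 y)
    · apply hr
      · rw [B.hfe, if_neg hy]
      · exact B.hff y x
      · intro w' _ h2
        exact F.h_symm_zero (h2 y)
  have e1 := fixe x1 r1 fix1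
  set y := r1.1 (B.v 1) with hy
  have hyU : ∀ t, t ≠ x1 → F.h y (B.e t) = 0 ∧ F.h y (B.f t) = 0 :=
    pres_U B x1 e1 (fun t _ => ⟨B.hve 1 t, B.hvf 1 t⟩)
  obtain ⟨r2, hr2, ⟨c, d, h1⟩, fix2⟩ := move_in B x2 (B.pr y) (B.pr_e y) (B.pr_f y)
  have e2 := fixe x2 r2 fix2
  have hdec : y = F.h y (B.f x1) • B.e x1 + (F.ε * F.h y (B.e x1)) • B.f x1 + B.pr y := by
    conv_lhs => rw [B.decomp y]
    congr 1
    congr 1
    · apply Finset.sum_eq_single
      · intro t _ ht
        rw [(hyU t ht).2, zero_smul]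
      · intro h; exact absurd (Finset.mem_univ x1) h
    · apply Finset.sum_eq_single
      · intro t _ ht
        rw [(hyU t ht).1, mul_zero, zero_smul]
      · intro h; exact absurd (Finset.mem_univ x1) h
  refine ⟨r2 * r1, (siegel F).mul_mem hr2 hr1, ?_, ?_⟩
  · intro t ht1 ht2
    rw [mul_ap, mul_ap, (e1 t ht1).1, (e1 t ht1).2]
    exact e2 t ht2
  · have hθ0 : (r2 * r1).1 (B.v 0) = c0 • B.e x1 + d0 • B.f x1 := by
      rw [mul_ap, h0, map_add, map_smul, map_smul, (e2 x1 h12).1, (e2 x1 h12).2]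
    have hθ1 : (r2 * r1).1 (B.v 1) = F.h y (B.f x1) • B.e x1 +
        (F.ε * F.h y (B.e x1)) • B.f x1 + (c • B.e x2 + d • B.f x2) := by
      rw [mul_ap, ← hy, ← h1]
      conv_lhs => rw [hdec]
      rw [map_add, map_add, map_smul, map_smul, (e2 x1 h12).1, (e2 x1 h12).2]
    intro i j
    fin_cases j
    · show F.h (B.v i) ((r2 * r1).1 (B.v 0)) = 0
      rw [hθ0, F.h_add_right, F.h_smul_right, F.h_smul_right, B.hve, B.hvf]
      ring
    · show F.h (B.v i) ((r2 * r1).1 (B.v 1)) = 0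
      rw [hθ1]
      simp only [F.h_add_right, F.h_smul_right, B.hve, B.hvf]
      ring

include B in
/-- The commutator subgroup of the isometry group is generated by Siegel transformations.

Proof.  Let `x1, x2, x3, x4` be distinct elements of `X`, `R = siegel F` (normal).
(1) There is `θ ∈ R` fixing `e y, f y` for `y ≠ x1, x2` and mapping `v 0` and `v 1` into the span
of `e x1, f x1, e x2, f x2`: let `r1 ∈ R` be as in `move_in` for `x1` and `w = v 0`.  Then
`r1 (v 1) = y1 + w1` with `y1` in the plane `x1` and `w1` in the anisotropic part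
(`r1 (v 1)` is orthogonal to `e y, f y` for `y ≠ x1`, because `r1` fixes these; use
`Frame.decomp`).  Let `r2 ∈ R` be as in `move_in` for `x2` and `w = w1`; it fixes the plane
`x1`.  Take `θ = r2 * r1`.
(2) Let `g, g' ∈ G`.  By `reduce` there are `r, r' ∈ R` such that `a = r * g` fixes all planes
except `x3` and `b = r' * g'` fixes all planes except `x4`.  Put `b' = θ * b * θ⁻¹`.  `b'` fixes
`θ z` for every `z` in a plane `y ≠ x4`.  Then `a` and `b'` commute: check on `e y, f y`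
(`Frame.ext_G`) and `v i`:  `b = 1` on all planes `y ≠ x4`, and `b` preserves the span of the
plane `x4` and of `v 0, v 1`; `θ⁻¹` maps the plane `x3` identically, so `b'` fixes plane `x3`
pointwise; `b'` fixes `v i`: `θ⁻¹ (v i)` is orthogonal to `e x4, f x4` (as `θ` fixes these) and
to the anisotropic part (`h (θ⁻¹ (v i)) (v j) = h (v i) (θ (v j)) = 0` because `θ (v j)` is in the
span of planes `x1, x2`), so it is in the span of the planes `y ≠ x4` and is fixed by `b`.
So `b'` fixes plane `x3` and `v 0`, `v 1` pointwise, and `a` fixes pointwise the orthogonal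
complement of plane `x3` and `v 0, v 1` (spanned by the other planes); `b'` preserves this
complement, and `a` preserves the span of plane `x3` and `v 0, v 1`.  Hence `a b' = b' a`.
In `G / R`: `g ≡ a`, `g' ≡ b ≡ b'`, so `⁅g, g'⁆ ∈ R`. -/
theorem commutator_le_siegel (hX : 4 ≤ Fintype.card X) : commutator F.G ≤ siegel F := by
  classical
  have hemb : Nonempty (Fin 4 ↪ X) := by
    rw [Function.Embedding.nonempty_iff_card_le]
    simpa using hX
  obtain ⟨em⟩ := hemb
  have hne : ∀ i j : Fin 4, i ≠ j → em i ≠ em j := fun i j h h' => h (em.injective h')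
  obtain ⟨θ, hθR, hθ, hv⟩ := exists_theta B (hne 0 1 (by decide))
  have hnorm : (siegel F).Normal := siegel_normal F
  rw [commutator_def, Subgroup.commutator_le]
  intro g _ g' _
  obtain ⟨r, hr, ha⟩ := reduce B (em 2) g
  obtain ⟨r', hr', hb⟩ := reduce B (em 3) g'
  have hcomm := comm_red B (hne 2 0 (by decide)) (hne 2 1 (by decide)) (hne 2 3 (by decide))
    (hne 3 0 (by decide)) (hne 3 1 (by decide)) ha hb hθ hv
  have q1 : ∀ {t : F.G}, t ∈ siegel F → (QuotientGroup.mk' (siegel F)) t = 1 := by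
    intro t ht
    rw [QuotientGroup.mk'_apply, QuotientGroup.eq_one_iff]
    exact ht
  have h1 := congrArg (QuotientGroup.mk' (siegel F)) hcomm
  simp only [map_mul, map_inv, q1 hr, q1 hr', q1 hθR, one_mul, inv_one, mul_one] at h1
  have h2 : (QuotientGroup.mk' (siegel F)) (g * g' * g⁻¹ * g'⁻¹) = 1 := by
    rw [map_mul, map_mul, map_mul, map_inv, map_inv, h1]
    group
  rwa [QuotientGroup.mk'_apply, QuotientGroup.eq_one_iff] at h2

end H47Cl
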