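import Mathlib
import Pool.Agent.H.MP_0335f8_cl.Frame

set_option linter.unusedSectionVars false

/-!
# Existence of frames (module Struct)
-/

namespace H47Cl

/-- a hyperbolic system -/
structure StructHyp {K V : Type*} [Field K] [AddCommGroup V] [Module K V] (F : Frm K V) {m : ℕ}
    (e f : Fin m → V) : Prop where
  hee : ∀ x y, F.h (e x) (e y) = 0
  hff : ∀ x y, F.h (f x) (f y) = 0
  hef : ∀ x y, F.h (e x) (f y) = if x = y then 1 else 0
  qe : ∀ x, F.q (e x) = 0
  qf : ∀ x, F.q (f x) = 0

section Struct

variable {K V : Type*} [Field K] [AddCommGroup V] [Module K V] {F : Frm K V} {m : ℕ}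
  {e f : Fin m → V}

theorem StructHyp.hfe (B : StructHyp F e f) (x y : Fin m) :
    F.h (f x) (e y) = if x = y then F.ε else 0 := by
  rw [F.h_swap, B.hef]
  by_cases h : x = y
  · subst h; simp
  · rw [if_neg h, if_neg (Ne.symm h)]; simp

theorem StructHyp.li (B : StructHyp F e f) : LinearIndependent K e := by
  rw [Fintype.linearIndependent_iff]
  intro g hg i
  have h1 : F.h (∑ j, g j • e j) (f i) = g i := by
    rw [F.h_sum]
    simp only [F.h_smul, B.hef, mul_ite, mul_one, mul_zero, Finset.sum_ite_eq', Finset.mem_univ,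
      if_true]
  rw [← h1, hg, F.h_zero_left]

theorem StructHyp.le [FiniteDimensional K V] (B : StructHyp F e f) : m ≤ Module.finrank K V := by
  have := B.li.fintype_card_le_finrank
  rwa [Fintype.card_fin] at this

/-- the orthogonal complement of the system -/
def structW (F : Frm K V) (e f : Fin m → V) : Submodule K V where
  carrier := {w | (∀ i, F.h w (e i) = 0) ∧ ∀ i, F.h w (f i) = 0}
  add_mem' := by
    rintro a b ⟨h1, h2⟩ ⟨h3, h4⟩
    exact ⟨fun i => by rw [F.h_add, h1, h3, add_zero], fun i => by rw [F.h_add, h2, h4, add_zero]⟩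
  zero_mem' := ⟨fun i => F.h_zero_left _, fun i => F.h_zero_left _⟩
  smul_mem' := by
    rintro c a ⟨h1, h2⟩
    exact ⟨fun i => by rw [F.h_smul, h1, mul_zero], fun i => by rw [F.h_smul, h2, mul_zero]⟩

/-- the projection -/
def structPr (F : Frm K V) (e f : Fin m → V) (x : V) : V :=
  x - (∑ y, F.h x (f y) • e y + ∑ y, (F.ε * F.h x (e y)) • f y)

theorem StructHyp.pr_mem (B : StructHyp F e f) (x : V) : structPr F e f x ∈ structW F e f := by
  constructor
  · intro y
    rw [structPr, F.h_sub, F.h_add, F.h_sum, F.h_sum]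
    simp only [F.h_smul, B.hee, B.hfe, mul_zero, Finset.sum_const_zero, zero_add, mul_ite,
      Finset.sum_ite_eq', Finset.mem_univ, if_true]
    have := F.ε2
    linear_combination -(F.h x (e y)) * this
  · intro y
    rw [structPr, F.h_sub, F.h_add, F.h_sum, F.h_sum]
    simp only [F.h_smul, B.hff, B.hef, mul_zero, Finset.sum_const_zero, add_zero, mul_ite,
      Finset.sum_ite_eq', Finset.mem_univ, if_true, mul_one, sub_self]

theorem structW_pr {w : V} (hw : w ∈ structW F e f) (x : V) :
    F.h w (structPr F e f x) = F.h w x := by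
  rw [structPr, F.h_sub_right, F.h_add_right, F.h_sum_right, F.h_sum_right]
  simp only [F.h_smul_right, hw.1, hw.2, mul_zero, Finset.sum_const_zero, add_zero, sub_zero]

/-- an isotropic vector of the complement extends the system -/
theorem StructHyp.extend (B : StructHyp F e f) {w : V} (hw : w ∈ structW F e f) (hw0 : w ≠ 0)
    (hww : F.h w w = 0) (hqw : F.q w = 0) :
    ∃ e' f' : Fin (m + 1) → V, StructHyp F e' f' := by
  have h0 : ∃ y0, F.h w y0 ≠ 0 := by
    by_contra hcon
    push Not at hcon
    exact hw0 (F.nd w hcon)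
  obtain ⟨y0, hy0⟩ := h0
  obtain ⟨y1, hy1⟩ : ∃ y1, y1 = structPr F e f y0 := ⟨_, rfl⟩
  have hy1W : y1 ∈ structW F e f := by rw [hy1]; exact B.pr_mem y0
  have hwy1 : F.h w y1 ≠ 0 := by rw [hy1, structW_pr hw]; exact hy0
  obtain ⟨y, hy⟩ : ∃ y, y = F.σ ((F.h w y1)⁻¹) • y1 := ⟨_, rfl⟩
  have hyW : y ∈ structW F e f := by rw [hy]; exact (structW F e f).smul_mem _ hy1W
  have hwy : F.h w y = 1 := by
    rw [hy, F.h_smul_right, F.σσ, inv_mul_cancel₀ hwy1]
  have hyw : F.h y w = F.ε := by
    rw [F.h_swap, hwy, map_one, mul_one]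
  obtain ⟨s, hs1, hs2⟩ := F.tr y
  obtain ⟨y', hy'⟩ : ∃ y', y' = y + (F.ε * s) • w := ⟨_, rfl⟩
  have hyW' : y' ∈ structW F e f := by
    rw [hy']
    exact (structW F e f).add_mem hyW ((structW F e f).smul_mem _ hw)
  have hwy' : F.h w y' = 1 := by
    rw [hy', F.h_add_right, F.h_smul_right, hww, mul_zero, add_zero, hwy]
  have hyy' : F.h y' y' = 0 := by
    rw [hy', F.h_add, F.h_add_right, F.h_smul, F.h_add_right, F.h_smul_right, F.h_smul_right,
      hww, hwy, hyw, map_mul, F.σε]
    linear_combination hs1 + F.σ s * F.ε2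
  have hqy' : F.q y' = 0 := by
    rw [hy', F.q_add, F.q_smul, hqw, F.h_smul_right, hyw, map_mul, F.σε]
    rcases F.hκ with ⟨k0, q0⟩ | ⟨k1, e1, s1⟩
    · rw [k0, q0]
      ring
    · rw [k1, one_mul] at hs2
      rw [k1, e1, s1]
      linear_combination hs2
  refine ⟨Fin.cons w e, Fin.cons y' f, ?_, ?_, ?_, ?_, ?_⟩
  · intro a b
    refine Fin.cases ?_ (fun a => ?_) a <;> refine Fin.cases ?_ (fun b => ?_) b
    · exact hww
    · exact hw.1 b
    · exact F.h_symm_zero (hw.1 a)
    · exact B.hee a b
  · intro a b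
    refine Fin.cases ?_ (fun a => ?_) a <;> refine Fin.cases ?_ (fun b => ?_) b
    · exact hyy'
    · exact hyW'.2 b
    · exact F.h_symm_zero (hyW'.2 a)
    · exact B.hff a b
  · intro a b
    refine Fin.cases ?_ (fun a => ?_) a <;> refine Fin.cases ?_ (fun b => ?_) b
    · rw [if_pos rfl]
      exact hwy'
    · rw [if_neg (Fin.succ_ne_zero b).symm]
      exact hw.2 b
    · rw [if_neg (Fin.succ_ne_zero a)]
      exact F.h_symm_zero (hyW'.1 a)
    · have h1 := B.hef a b
      by_cases hab : a = b
      · subst hab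
        rw [if_pos rfl] at h1 ⊢
        exact h1
      · rw [if_neg hab] at h1
        rw [if_neg (fun h => hab (Fin.succ_inj.1 h))]
        exact h1
  · intro a
    refine Fin.cases ?_ (fun a => ?_) a
    · exact hqw
    · exact B.qe a
  · intro a
    refine Fin.cases ?_ (fun a => ?_) a
    · exact hqy'
    · exact B.qf a

theorem struct_gen {W : Type*} [AddCommGroup W] [Module K W] [FiniteDimensional K W]
    (h : Module.finrank K W ≤ 2) : ∃ v : Fin 2 → W, ∀ w, ∃ a b : K, w = a • v 0 + b • v 1 := by
  obtain ⟨n, hn, ⟨b⟩⟩ : ∃ n, n ≤ 2 ∧ Nonempty (Module.Basis (Fin n) K W) :=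
    ⟨_, h, ⟨Module.finBasis K W⟩⟩
  interval_cases n
  · refine ⟨fun _ => 0, fun w => ⟨0, 0, ?_⟩⟩
    have := b.sum_repr w
    rw [Finset.univ_eq_empty, Finset.sum_empty] at this
    rw [← this]
    simp
  · refine ⟨fun _ => b 0, fun w => ⟨b.repr w 0, 0, ?_⟩⟩
    have := b.sum_repr w
    rw [Fin.sum_univ_one] at this
    rw [zero_smul, add_zero, this]
  · refine ⟨b, fun w => ⟨b.repr w 0, b.repr w 1, ?_⟩⟩
    have := b.sum_repr w
    rw [Fin.sum_univ_two] at this
    exact this.symm

end Struct

/-- Every space has a frame with an anisotropic part of dimension at most two.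

Proof.  Call `(e, f)`, `e f : Fin m → V`, a hyperbolic system if it satisfies the first five
conditions of `Frame`.  The `e i` are linearly independent (pair with `f j`), so
`m ≤ finrank K V`; `m = 0` is possible; take `m` maximal (`Nat.findGreatest` or
`Nat.find` on a bounded set).
Let `W` be the submodule of vectors `w` with `h w (e i) = h w (f i) = 0`.
(a) `W` is anisotropic: let `0 ≠ w ∈ W` with `h w w = 0`, `q w = 0`.  By `F.nd` there is `y` with
`h w y ≠ 0`; subtract from `y` its hyperbolic components (as in `Frame.pr`) and scale: we may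
assume `y ∈ W` and `h w y = 1`.  Let `s` be as in `F.tr y`, and `y' = y + (ε s) • w`.  Then
`h w y' = 1` and `h y' y' = h y y + σ(ε s) h y w + ε s h w y = h y y + ε ε σ s + ε s = 0`
(`h y w = ε σ 1 = ε`), and `q y' = q y + κ h(y, ε s w) = q y + κ σ(ε s) ε`, which is `0`
in both cases of `F.hκ`.  So `(w, y')` extends the system: contradiction.
(b) `finrank W ≤ 2`: otherwise there are three linearly independent `x, y, z ∈ W`; `F.iso x y z`
gives a nonzero singular vector of `W`, contradicting (a).
(c) `V` is the direct sum of the span of the `e i, f i` (dimension at most `2 m`) and `W`, so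
`finrank V ≤ 2 m + 2`.
(d) choose `v : Fin 2 → V` with values in `W` spanning `W` (for `finrank W ≤ 2`). -/
theorem exists_frame {K V : Type*} [Field K] [AddCommGroup V] [Module K V]
    [FiniteDimensional K V] (F : Frm K V) :
    ∃ m : ℕ, Module.finrank K V ≤ 2 * m + 2 ∧ Nonempty (Frame F (Fin m)) := by
  classical
  let P : ℕ → Prop := fun m => ∃ e f : Fin m → V, StructHyp F e f
  have hP0 : P 0 := ⟨fun i => i.elim0, fun i => i.elim0,
    ⟨fun i => i.elim0, fun i => i.elim0, fun i => i.elim0, fun i => i.elim0, fun i => i.elim0⟩⟩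
  have hPle : ∀ m, P m → m ≤ Module.finrank K V := by
    rintro m ⟨e, f, B⟩
    exact B.le
  obtain ⟨m, hm⟩ : ∃ m, m = Nat.findGreatest P (Module.finrank K V) := ⟨_, rfl⟩
  have hPm : P m := by
    rw [hm]
    exact Nat.findGreatest_spec (Nat.zero_le _) hP0
  have hmax : ¬ P (m + 1) := by
    intro h1
    have h2 := Nat.le_findGreatest (hPle _ h1) h1
    rw [← hm] at h2
    omega
  obtain ⟨e, f, B⟩ := hPm
  have hani : ∀ w ∈ structW F e f, F.h w w = 0 → F.q w = 0 → w = 0 := by
    intro w hw hww hqw
    by_contra hw0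
    exact hmax (B.extend hw hw0 hww hqw)
  have hW2 : Module.finrank K (structW F e f) ≤ 2 := by
    by_contra hcon
    push Not at hcon
    obtain ⟨v, hv⟩ := exists_linearIndependent_of_le_finrank (R := K)
      (M := structW F e f) (n := 3) hcon
    obtain ⟨a, b, c, habc, h1, h2⟩ := F.iso (v 0 : V) (v 1 : V) (v 2 : V)
    have hmem : a • (v 0 : V) + b • (v 1 : V) + c • (v 2 : V) ∈ structW F e f :=
      (structW F e f).add_mem ((structW F e f).add_mem ((structW F e f).smul_mem _ (v 0).2)
        ((structW F e f).smul_mem _ (v 1).2)) ((structW F e f).smul_mem _ (v 2).2)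
    have h3 := hani _ hmem h1 h2
    have h4 : ∑ i, ![a, b, c] i • v i = 0 := by
      rw [Fin.sum_univ_three]
      apply Subtype.ext
      exact h3
    have h5 := Fintype.linearIndependent_iff.1 hv _ h4
    have ha : a = 0 := h5 0
    have hb : b = 0 := h5 1
    have hc : c = 0 := h5 2
    rcases habc with h | h | h
    · exact h ha
    · exact h hb
    · exact h hc
  refine ⟨m, ?_, ?_⟩
  · have htop : (⊤ : Submodule K V) ≤ (Submodule.span K (Set.range e) ⊔
        Submodule.span K (Set.range f)) ⊔ structW F e f := by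
      intro x _
      have hx : x = (∑ y, F.h x (f y) • e y + ∑ y, (F.ε * F.h x (e y)) • f y) +
          structPr F e f x := by
        rw [structPr]; abel
      rw [hx]
      refine Submodule.add_mem_sup (Submodule.add_mem_sup ?_ ?_) (B.pr_mem x)
      · exact Submodule.sum_mem _ fun y _ => Submodule.smul_mem _ _
          (Submodule.subset_span ⟨y, rfl⟩)
      · exact Submodule.sum_mem _ fun y _ => Submodule.smul_mem _ _
          (Submodule.subset_span ⟨y, rfl⟩)
    have h1 : Module.finrank K V ≤ Module.finrank K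
        (((Submodule.span K (Set.range e) ⊔ Submodule.span K (Set.range f)) ⊔
          structW F e f : Submodule K V)) := by
      rw [← finrank_top K V]
      exact Submodule.finrank_mono htop
    have h2 := Submodule.finrank_add_le_finrank_add_finrank
      (Submodule.span K (Set.range e) ⊔ Submodule.span K (Set.range f)) (structW F e f)
    have h3 := Submodule.finrank_add_le_finrank_add_finrank
      (Submodule.span K (Set.range e)) (Submodule.span K (Set.range f))
    have h4 : Module.finrank K (Submodule.span K (Set.range e)) ≤ m := by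
      have := finrank_range_le_card (R := K) e
      rwa [Fintype.card_fin] at this
    have h5 : Module.finrank K (Submodule.span K (Set.range f)) ≤ m := by
      have := finrank_range_le_card (R := K) f
      rwa [Fintype.card_fin] at this
    omega
  · obtain ⟨v, hv⟩ := struct_gen hW2
    exact ⟨{
      e := e
      f := f
      v := fun i => (v i : V)
      hee := B.hee
      hff := B.hff
      hef := B.hef
      qe := B.qe
      qf := B.qf
      hve := fun i x => (v i).2.1 x
      hvf := fun i x => (v i).2.2 x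
      span := fun w h1 h2 => by
        obtain ⟨a, b, hab⟩ := hv ⟨w, h1, h2⟩
        exact ⟨a, b, congrArg Subtype.val hab⟩
      aniso := fun w h1 h2 h3 h4 => hani w ⟨h1, h2⟩ h3 h4 }⟩

end H47Cl
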