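import Mathlib

/-!
# Isotropic vectors of ternary quadratic forms and of hermitian forms (module Chev)
-/

namespace H47Cl

open MvPolynomial in
/-- Chevalley-Warning for a ternary quadratic form.

Proof.  Let `f = a X0^2 + b X1^2 + c X2^2 + u X0 X1 + v X0 X2 + w X1 X2` in
`MvPolynomial (Fin 3) K`; its total degree is `≤ 2 < 3`.  By `char_dvd_card_solutions` the number
of zeros is divisible by the characteristic; `0` is a zero, so there is another one. -/
theorem ternary_zero (K : Type*) [Field K] [Finite K] (a b c u v w : K) :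
    ∃ x y z : K, (x ≠ 0 ∨ y ≠ 0 ∨ z ≠ 0) ∧
      a * x ^ 2 + b * y ^ 2 + c * z ^ 2 + u * (x * y) + v * (x * z) + w * (y * z) = 0 := by
  classical
  have : Fintype K := Fintype.ofFinite K
  set p := ringChar K with hp
  have : CharP K p := ringChar.charP K
  have hp0 : p.Prime := CharP.char_is_prime K p
  let f : MvPolynomial (Fin 3) K :=
    C a * X 0 ^ 2 + C b * X 1 ^ 2 + C c * X 2 ^ 2 + C u * (X 0 * X 1) + C v * (X 0 * X 2)
      + C w * (X 1 * X 2)
  have hC : ∀ (r : K) (q : MvPolynomial (Fin 3) K), q.totalDegree ≤ 2 →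
      (C r * q).totalDegree ≤ 2 := by
    intro r q hq
    refine le_trans (totalDegree_mul _ _) ?_
    rw [totalDegree_C]
    omega
  have hXX : ∀ i j : Fin 3, (X i * X j : MvPolynomial (Fin 3) K).totalDegree ≤ 2 := by
    intro i j
    refine le_trans (totalDegree_mul _ _) ?_
    rw [totalDegree_X, totalDegree_X]
  have hX2 : ∀ i : Fin 3, (X i ^ 2 : MvPolynomial (Fin 3) K).totalDegree ≤ 2 := by
    intro i
    rw [pow_two]
    exact hXX i i
  have hadd : ∀ q r : MvPolynomial (Fin 3) K, q.totalDegree ≤ 2 → r.totalDegree ≤ 2 →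
      (q + r).totalDegree ≤ 2 := by
    intro q r hq hr
    exact le_trans (totalDegree_add _ _) (max_le hq hr)
  have hdeg : f.totalDegree ≤ 2 := by
    refine hadd _ _ (hadd _ _ (hadd _ _ (hadd _ _ (hadd _ _ ?_ ?_) ?_) ?_) ?_) ?_
    · exact hC _ _ (hX2 0)
    · exact hC _ _ (hX2 1)
    · exact hC _ _ (hX2 2)
    · exact hC _ _ (hXX 0 1)
    · exact hC _ _ (hXX 0 2)
    · exact hC _ _ (hXX 1 2)
  have hdvd := char_dvd_card_solutions (K := K) (σ := Fin 3) p (f := f) (by
    simp only [Fintype.card_fin]; omega)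
  have heval : ∀ x : Fin 3 → K, eval x f = a * x 0 ^ 2 + b * x 1 ^ 2 + c * x 2 ^ 2
      + u * (x 0 * x 1) + v * (x 0 * x 2) + w * (x 1 * x 2) := by
    intro x
    simp [f]
  have h0 : eval (0 : Fin 3 → K) f = 0 := by
    rw [heval]; simp
  have hpos : 0 < Fintype.card { x : Fin 3 → K // eval x f = 0 } :=
    Fintype.card_pos_iff.mpr ⟨⟨0, h0⟩⟩
  have h1 : 1 < Fintype.card { x : Fin 3 → K // eval x f = 0 } :=
    lt_of_lt_of_le hp0.one_lt (Nat.le_of_dvd hpos hdvd)
  obtain ⟨⟨x, hx⟩, hne⟩ := Fintype.exists_ne_of_one_lt_card h1 ⟨0, h0⟩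
  refine ⟨x 0, x 1, x 2, ?_, ?_⟩
  · by_contra hcon
    push Not at hcon
    apply hne
    apply Subtype.ext
    funext i
    fin_cases i
    · exact hcon.1
    · exact hcon.2.1
    · exact hcon.2.2
  · rw [← heval]; exact hx

/-- The norm of a finite field with an involution is surjective onto the fixed field.

Proof.  Work in `Kˣ`, with the homomorphisms `N a = a * σ a` and `D a = a * (σ a)⁻¹`.  Then
`ker D` is the group of fixed units and contains the range of `N`, and `range D ≤ ker N`.
Hilbert 90: if `c * σ c = 1`, choose `x` with `a = x + c * σ x ≠ 0` (possible: if `x + c σ x = 0`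
for all `x` then `x = 1` gives `c = -1` and `σ x = x` for all `x`); then
`σ a = σ x + σ c * x = σ c * a`, so `D a = c`.  Hence `range D = ker N` and
`card (range N) = card K^× / card (ker N) = card K^× / card (range D) = card (ker D)`, so
`range N = ker D`. -/
theorem norm_surj (K : Type*) [Field K] [Finite K] (σ : K →+* K) (hσ : ∀ a, σ (σ a) = a)
    (hne : ∃ a, σ a ≠ a) (t : K) (ht : σ t = t) : ∃ a, a * σ a = t := by
  classical
  by_cases ht0 : t = 0
  · exact ⟨0, by rw [ht0]; simp⟩
  have : Finite Kˣ := inferInstance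
  let s : Kˣ →* Kˣ := Units.map (σ : K →* K)
  have hs : ∀ x : Kˣ, ((s x : Kˣ) : K) = σ (x : K) := fun x => rfl
  have hss : ∀ x : Kˣ, s (s x) = x := by
    intro x
    apply Units.ext
    rw [hs, hs, hσ]
  let N : Kˣ →* Kˣ := MonoidHom.mk' (fun x => x * s x) (by
    intro x y
    show x * y * s (x * y) = x * s x * (y * s y)
    rw [map_mul]
    exact mul_mul_mul_comm _ _ _ _)
  let D : Kˣ →* Kˣ := MonoidHom.mk' (fun x => x * (s x)⁻¹) (by
    intro x y
    show x * y * (s (x * y))⁻¹ = x * (s x)⁻¹ * (y * (s y)⁻¹)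
    rw [map_mul, mul_inv]
    exact mul_mul_mul_comm _ _ _ _)
  have hN : ∀ x, N x = x * s x := fun x => rfl
  have hD : ∀ x, D x = x * (s x)⁻¹ := fun x => rfl
  have hkD : ∀ x, x ∈ D.ker ↔ s x = x := by
    intro x
    rw [MonoidHom.mem_ker, hD, mul_inv_eq_one]
    exact eq_comm
  have hND : N.range ≤ D.ker := by
    rintro _ ⟨x, rfl⟩
    rw [hkD, hN, map_mul, hss, mul_comm]
  have hker : D.range = N.ker := by
    apply le_antisymm
    · rintro _ ⟨x, rfl⟩
      rw [MonoidHom.mem_ker, hN, hD, map_mul, map_inv, hss]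
      group
    · intro c hc
      rw [MonoidHom.mem_ker, hN] at hc
      have hc' : (c : K) * σ (c : K) = 1 := by
        have := congrArg (fun z : Kˣ => (z : K)) hc
        rw [← hs]
        simpa using this
      have hex : ∃ x : K, x + c * σ x ≠ 0 := by
        by_contra hcon
        push Not at hcon
        obtain ⟨a, ha⟩ := hne
        have h1 := hcon 1
        rw [map_one, mul_one] at h1
        have h2 := hcon a
        have hc1 : (c : K) = -1 := by linear_combination h1
        rw [hc1] at h2
        apply ha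
        linear_combination -h2
      obtain ⟨x, hx⟩ := hex
      have hsa : σ (x + c * σ x) * c = x + c * σ x := by
        rw [map_add, map_mul, hσ]
        linear_combination x * hc'
      refine ⟨Units.mk0 _ hx, ?_⟩
      rw [hD, mul_inv_eq_iff_eq_mul]
      apply Units.ext
      rw [Units.val_mul, hs, Units.val_mk0]
      exact hsa.symm.trans (mul_comm _ _)
  have hcN : Nat.card N.range * Nat.card N.ker = Nat.card Kˣ := by
    have := Subgroup.card_mul_index N.ker
    rw [Subgroup.index_ker] at this
    rw [mul_comm]; exact this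
  have hcD : Nat.card D.range * Nat.card D.ker = Nat.card Kˣ := by
    have := Subgroup.card_mul_index D.ker
    rw [Subgroup.index_ker] at this
    rw [mul_comm]; exact this
  have hcard : Nat.card N.range = Nat.card D.ker := by
    rw [hker] at hcD
    have hpos : 0 < Nat.card N.ker := Nat.card_pos
    have : Nat.card N.range * Nat.card N.ker = Nat.card D.ker * Nat.card N.ker := by
      rw [hcN, ← hcD, mul_comm]
    exact Nat.eq_of_mul_eq_mul_right hpos this
  have heq : N.range = D.ker := by
    apply Subgroup.eq_of_le_of_card_ge hND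
    rw [hcard]
  have htD : Units.mk0 t ht0 ∈ D.ker := by
    rw [hkD]
    apply Units.ext
    rw [hs, Units.val_mk0, ht]
  rw [← heq] at htD
  obtain ⟨a, ha⟩ := htD
  refine ⟨(a : K), ?_⟩
  have := congrArg (fun z : Kˣ => (z : K)) ha
  simpa [hN, hs] using this

/-- The trace is surjective onto the fixed field.

Proof.  There is `z` with `t0 = z + σ z ≠ 0` (otherwise `z = 1` gives `2 = 0` and then `σ z = z`
for all `z`); `σ t0 = t0`; take `a = t * z / t0`. -/
theorem trace_surj (K : Type*) [Field K] (σ : K →+* K) (hσ : ∀ a, σ (σ a) = a)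
    (hne : ∃ a, σ a ≠ a) (t : K) (ht : σ t = t) : ∃ a, a + σ a = t := by
  have hex : ∃ z : K, z + σ z ≠ 0 := by
    by_contra hcon
    push Not at hcon
    obtain ⟨a, ha⟩ := hne
    have h1 := hcon 1
    rw [map_one] at h1
    have h2 := hcon a
    apply ha
    linear_combination h2 - a * h1
  obtain ⟨z, hz⟩ := hex
  have hs : σ (z + σ z) = z + σ z := by
    rw [map_add, hσ, add_comm]
  refine ⟨t * z / (z + σ z), ?_⟩
  rw [map_div₀, map_mul, hs, ht]
  field_simp

end H47Cl
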