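import Mathlib

/-!
# Classical spaces over a field and their simple groups (definitions)
-/

namespace H47Cl

/-- A classical space: a vector space without further structure, or with a nondegenerate
alternating bilinear form, or with a nondegenerate hermitian form with respect to a field
automorphism `σ` of order two, or with a quadratic form whose polar form is nondegenerate. -/
inductive ClassicalSpace (K V : Type*) [Field K] [AddCommGroup V] [Module K V] where
  /-- no form -/
  | linear : ClassicalSpace K V
  /-- a nondegenerate alternating form -/
  | symplectic (B : LinearMap.BilinForm K V) (alt : B.IsAlt) (nondeg : B.Nondegenerate) :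
      ClassicalSpace K V
  /-- a nondegenerate hermitian form for the automorphism `σ` of order two -/
  | unitary (σ : K →+* K) (inv : ∀ a, σ (σ a) = a) (ne : σ ≠ RingHom.id K)
      (B : V →ₗ[K] V →ₛₗ[σ] K) (herm : ∀ x y, B y x = σ (B x y))
      (nondeg : ∀ x, (∀ y, B x y = 0) → x = 0) : ClassicalSpace K V
  /-- a quadratic form with nondegenerate polar form -/
  | orthogonal (Q : QuadraticForm K V) (nondeg : Q.polarBilin.Nondegenerate) :
      ClassicalSpace K V

namespace ClassicalSpace

variable {K V : Type*} [Field K] [AddCommGroup V] [Module K V]

/-- A linear automorphism is an isometry of the classical space if it preserves its form. -/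
def IsIsometry : ClassicalSpace K V → (V ≃ₗ[K] V) → Prop
  | linear, _ => True
  | symplectic B _ _, g => ∀ x y, B (g x) (g y) = B x y
  | unitary _ _ _ B _ _, g => ∀ x y, B (g x) (g y) = B x y
  | orthogonal Q _, g => ∀ x, Q (g x) = Q x

/-- The full isometry group of a classical space: `GL(V)`, `Sp(V)`, `U(V)` or `O(V)`. -/
def isometryGroup (S : ClassicalSpace K V) : Subgroup (V ≃ₗ[K] V) where
  carrier := {g | S.IsIsometry g}
  mul_mem' := by
    intro a b ha hb
    cases S with
    | linear => trivial
    | symplectic B _ _ => intro x y; exact (ha (b x) (b y)).trans (hb x y)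
    | unitary _ _ _ B _ _ => intro x y; exact (ha (b x) (b y)).trans (hb x y)
    | orthogonal Q _ => intro x; exact (ha (b x)).trans (hb x)
  one_mem' := by
    cases S with
    | linear => trivial
    | symplectic B _ _ => intro x y; rfl
    | unitary _ _ _ B _ _ => intro x y; rfl
    | orthogonal Q _ => intro x; rfl
  inv_mem' := by
    intro a ha
    have hi : ∀ x, a (a⁻¹ x) = x := fun x => a.apply_symm_apply x
    cases S with
    | linear => trivial
    | symplectic B _ _ =>
      intro x y
      have := ha (a⁻¹ x) (a⁻¹ y)
      rw [hi, hi] at this
      exact this.symm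
    | unitary _ _ _ B _ _ =>
      intro x y
      have := ha (a⁻¹ x) (a⁻¹ y)
      rw [hi, hi] at this
      exact this.symm
    | orthogonal Q _ =>
      intro x
      have := ha (a⁻¹ x)
      rw [hi] at this
      exact this.symm

/-- The derived subgroup of the isometry group: `SL(V)`, `Sp(V)`, `SU(V)` or `Ω(V)`. -/
abbrev Derived (S : ClassicalSpace K V) : Type _ := ↥(commutator ↥S.isometryGroup)

/-- The simple classical group of a classical space: the derived subgroup of the isometry group
modulo its centre, that is `PSL(V)`, `PSp(V)`, `PSU(V)` or `PΩ(V)`. -/
abbrev SimpleGroup (S : ClassicalSpace K V) : Type _ := S.Derived ⧸ Subgroup.center S.Derived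

end ClassicalSpace

end H47Cl
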