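import Mathlib
import Pool.Agent.H.MP_0335f8_cl.Form
import Pool.Agent.H.MP_0335f8_cl.Chev
import Pool.Agent.H.MP_0335f8_cl.Space

set_option linter.unusedSectionVars false

/-!
# The three types of forms (module Types)
-/

namespace H47Cl

variable {K V : Type*} [Field K] [Finite K] [AddCommGroup V] [Module K V]

/-- Symplectic case: `σ = id`, `ε = -1`, `κ = 0`, `q = 0`, `h x y = B x y`.
`tr`: `s = 0`; `iso`: `(1, 0, 0)`. -/
theorem exists_frm_symplectic (B : LinearMap.BilinForm K V) (alt : B.IsAlt)
    (nondeg : B.Nondegenerate) :
    ∃ F : Frm K V, F.isom = (ClassicalSpace.symplectic B alt nondeg).isometryGroup := by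
  refine ⟨{ σ := RingHom.id K
            σσ := fun _ => rfl
            ε := -1
            ε2 := by ring
            σε := rfl
            κ := 0
            h := fun x y => B x y
            h_add := fun x y z => by simp
            h_smul := fun a x z => by simp
            h_swap := fun x y => by
              have h1 := alt (x + y)
              have h2 := alt x
              have h3 := alt y
              simp only [map_add, LinearMap.add_apply, h2, h3] at h1
              rw [RingHom.id_apply]
              linear_combination h1
            q := fun _ => 0
            q_add := fun _ _ => by ring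
            q_smul := fun _ _ => by ring
            hκ := Or.inl ⟨rfl, fun _ => rfl⟩
            tr := fun x => ⟨0, by
              have := alt x
              simp [this], by ring⟩
            nd := fun x hx => nondeg.1 x hx
            iso := fun x y z => ⟨1, 0, 0, Or.inl one_ne_zero, by
              have := alt x
              simp [this], rfl⟩ }, ?_⟩
  ext g
  constructor
  · intro hg
    exact hg.1
  · intro hg
    exact ⟨hg, fun _ => rfl⟩

/-- Unitary case: `ε = 1`, `κ = 0`, `q = 0`, `h x y = B x y`.
`tr`: `trace_surj` for `-h x x`.  `iso`: given `x, y, z`.  If `h x x = 0` take `(1, 0, 0)`.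
Otherwise let `y' = y - (h y x / h x x) • x`, orthogonal to `x`.  If `h y' y' = 0` take the
coefficients of `y'` (coefficient of `y` is `1`).  Otherwise `t = - h y' y' / h x x` is fixed
by `σ` and `norm_surj` gives `a` with `a σ(a) = t`; then `a • x + y'` is singular. -/
theorem exists_frm_unitary (σ : K →+* K) (inv : ∀ a, σ (σ a) = a) (ne : σ ≠ RingHom.id K)
    (B : V →ₗ[K] V →ₛₗ[σ] K) (herm : ∀ x y, B y x = σ (B x y))
    (nondeg : ∀ x, (∀ y, B x y = 0) → x = 0) :
    ∃ F : Frm K V,
      F.isom = (ClassicalSpace.unitary σ inv ne B herm nondeg).isometryGroup := by
  have hne : ∃ a, σ a ≠ a := by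
    by_contra hall
    apply ne
    ext a
    by_contra ha
    exact hall ⟨a, ha⟩
  have hiso : ∀ x y : V, ∃ a b : K, (a ≠ 0 ∨ b ≠ 0) ∧
      B (a • x + b • y) (a • x + b • y) = 0 := by
    intro x y
    by_cases hx : B x x = 0
    · exact ⟨1, 0, Or.inl one_ne_zero, by simp [hx]⟩
    · have hσx : σ (B x x) = B x x := (herm x x).symm
      have hσy : σ (B y y) = B y y := (herm y y).symm
      have hxy : B x y = σ (B y x) := herm y x
      have hyx : B y x = σ (B x y) := herm x y
      -- norm of the projection of `y`
      have ht : σ (-(B y y - B y x * B x y / B x x) / B x x)
          = -(B y y - B y x * B x y / B x x) / B x x := by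
        rw [map_div₀, map_neg, map_sub, map_div₀, map_mul, hσx, hσy, ← hxy, ← hyx, mul_comm (B x y)]
      obtain ⟨a, ha⟩ := norm_surj K σ inv hne _ ht
      refine ⟨a - B y x / B x x, 1, Or.inr one_ne_zero, ?_⟩
      have e1 : B ((a - B y x / B x x) • x + (1 : K) • y) ((a - B y x / B x x) • x + (1 : K) • y)
          = (a - B y x / B x x) * σ (a - B y x / B x x) * B x x
            + (a - B y x / B x x) * B x y + σ (a - B y x / B x x) * B y x + B y y := by
        simp only [one_smul, map_add, LinearMap.add_apply, LinearMap.smul_apply, map_smul,
          LinearMap.map_smulₛₗ, smul_eq_mul]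
        ring
      rw [e1, map_sub, map_div₀, hσx, ← hxy]
      field_simp at ha ⊢
      linear_combination ha
  refine ⟨{ σ := σ
            σσ := inv
            ε := 1
            ε2 := by ring
            σε := map_one σ
            κ := 0
            h := fun x y => B x y
            h_add := fun x y z => by simp
            h_smul := fun a x z => by simp
            h_swap := fun x y => by
              rw [one_mul]
              exact herm x y
            q := fun _ => 0
            q_add := fun _ _ => by ring
            q_smul := fun _ _ => by ring
            hκ := Or.inl ⟨rfl, fun _ => rfl⟩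
            tr := fun x => by
              have hσx : σ (-B x x) = -B x x := by
                rw [map_neg, ← herm x x]
              obtain ⟨a, ha⟩ := trace_surj K σ inv hne _ hσx
              refine ⟨a, ?_, by ring⟩
              linear_combination ha
            nd := nondeg
            iso := fun x y z => by
              obtain ⟨a, b, hab, h0⟩ := hiso x y
              refine ⟨a, b, 0, ?_, ?_, rfl⟩
              · rcases hab with h1 | h1
                · exact Or.inl h1
                · exact Or.inr (Or.inl h1)
              · rw [zero_smul, add_zero]
                exact h0 }, ?_⟩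
  ext g
  constructor
  · intro hg
    exact hg.1
  · intro hg
    exact ⟨hg, fun _ => rfl⟩

/-- Orthogonal case: `σ = id`, `ε = 1`, `κ = 1`, `q = Q`, `h x y = QuadraticMap.polar Q x y`.
`h x x = 2 Q x`; `tr`: `s = - Q x`; `iso`: `ternary_zero` (if `Q v = 0` then
`h v v = 2 * Q v = 0`).  An automorphism preserving `Q` preserves the polar form. -/
theorem exists_frm_orthogonal (Q : QuadraticForm K V) (nondeg : Q.polarBilin.Nondegenerate) :
    ∃ F : Frm K V, F.isom = (ClassicalSpace.orthogonal Q nondeg).isometryGroup := by
  have hself : ∀ x, QuadraticMap.polar Q x x = 2 * Q x := by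
    intro x
    rw [QuadraticMap.polar_self]
    simp
  have hadd : ∀ x y, Q (x + y) = Q x + Q y + QuadraticMap.polar Q x y := by
    intro x y
    rw [QuadraticMap.polar]
    ring
  have hsm : ∀ (a : K) x, Q (a • x) = a * a * Q x := by
    intro a x
    rw [QuadraticMap.map_smul, smul_eq_mul]
  refine ⟨{ σ := RingHom.id K
            σσ := fun _ => rfl
            ε := 1
            ε2 := by ring
            σε := rfl
            κ := 1
            h := fun x y => QuadraticMap.polar Q x y
            h_add := fun x y z => QuadraticMap.polar_add_left Q x y z
            h_smul := fun a x z => by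
              rw [QuadraticMap.polar_smul_left, smul_eq_mul]
            h_swap := fun x y => by
              rw [RingHom.id_apply, one_mul]
              exact QuadraticMap.polar_comm Q y x
            q := fun x => Q x
            q_add := fun x y => by rw [hadd, one_mul]
            q_smul := fun a x => by rw [hsm, RingHom.id_apply]
            hκ := Or.inr ⟨rfl, rfl, fun _ => rfl⟩
            tr := fun x => ⟨- Q x, by rw [hself, RingHom.id_apply]; ring, by ring⟩
            nd := fun x hx => nondeg.1 x hx
            iso := fun x y z => by
              obtain ⟨a, b, c, habc, h0⟩ := ternary_zero K (Q x) (Q y) (Q z)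
                (QuadraticMap.polar Q x y) (QuadraticMap.polar Q x z) (QuadraticMap.polar Q y z)
              have hQ : Q (a • x + b • y + c • z) = 0 := by
                rw [hadd, hadd, hsm, hsm, hsm, QuadraticMap.polar_add_left,
                  QuadraticMap.polar_smul_left, QuadraticMap.polar_smul_left,
                  QuadraticMap.polar_smul_left, QuadraticMap.polar_smul_right,
                  QuadraticMap.polar_smul_right, QuadraticMap.polar_smul_right]
                simp only [smul_eq_mul]
                linear_combination h0
              refine ⟨a, b, c, habc, ?_, hQ⟩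
              rw [hself, hQ, mul_zero] }, ?_⟩
  ext g
  constructor
  · intro hg
    exact hg.2
  · intro hg
    have hg' : ∀ x, Q (g x) = Q x := hg
    refine ⟨fun x y => ?_, hg'⟩
    change QuadraticMap.polar Q (g x) (g y) = QuadraticMap.polar Q x y
    rw [QuadraticMap.polar, QuadraticMap.polar, ← map_add, hg', hg', hg']

end H47Cl
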