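import Mathlib
import Pool.Agent.H.MP_0335f8_cl.Quot
import Pool.Agent.H.MP_0335f8_cl.Struct
import Pool.Agent.H.MP_0335f8_cl.Types
import Pool.Agent.H.MP_0335f8_cl.Final
import Pool.Agent.H.MP_0335f8_cl.Lin
import Pool.Agent.H.MP_0335f8_cl.Pure
import Pool.Agent.H.MP_0335f8_cl.Param

set_option linter.unusedSectionVars false

/-!
# Assembly
-/

namespace H47Cl

open H47Inv H47Cl.Frm
open scoped commutatorElement

section frm

variable {K V : Type*} [Field K] [AddCommGroup V] [Module K V] {F : Frm K V}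

/-- reindexing a frame -/
def Frame.reindex {X Y : Type*} [Fintype X] [DecidableEq X] [Fintype Y] [DecidableEq Y]
    (B : Frame F X) (g : Y ≃ X) : Frame F Y where
  e y := B.e (g y)
  f y := B.f (g y)
  v := B.v
  hee _ _ := B.hee _ _
  hff _ _ := B.hff _ _
  hef x y := by rw [B.hef]; simp
  qe _ := B.qe _
  qf _ := B.qf _
  hve _ _ := B.hve _ _
  hvf _ _ := B.hvf _ _
  span w he hf := B.span w (fun x => by simpa using he (g.symm x))
    (fun x => by simpa using hf (g.symm x))
  aniso w he hf := B.aniso w (fun x => by simpa using he (g.symm x))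
    (fun x => by simpa using hf (g.symm x))

variable {X : Type*} [Fintype X] [DecidableEq X] {B : Frame F X} (D : Seed B)

theorem C_all (hX : 20 ≤ Fintype.card X) (H : Subgroup F.G)
    (hP : ∀ τ ∈ alternatingGroup X, B.P τ ∈ H) (i i' : Fin 9 → X)
    (hi : Function.Injective (Sum.elim i i')) (hC : D.C i i' ∈ H) (j j' : Fin 9 → X)
    (hj : Function.Injective (Sum.elim j j')) : D.C j j' ∈ H := by
  obtain ⟨τ, hτ, h⟩ := exists_alt_map (X := X) (n := 18) (by omega)
    (fun k => Sum.elim i i' (finSumFinEquiv.symm k : Fin 9 ⊕ Fin 9))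
    (fun k => Sum.elim j j' (finSumFinEquiv.symm k : Fin 9 ⊕ Fin 9))
    (hi.comp (Equiv.injective _)) (hj.comp (Equiv.injective _))
  have h1 : (fun k => τ (i k)) = j := by
    ext k
    have := h (finSumFinEquiv (m := 9) (n := 9) (Sum.inl k))
    simpa only [Equiv.symm_apply_apply, Sum.elim_inl] using this
  have h2 : (fun k => τ (i' k)) = j' := by
    ext k
    have := h (finSumFinEquiv (m := 9) (n := 9) (Sum.inr k))
    simpa only [Equiv.symm_apply_apply, Sum.elim_inr] using this
  have h3 := D.C_conj τ i i'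
  rw [h1, h2] at h3
  rw [← h3]
  exact H.mul_mem (H.mul_mem (hP τ hτ) hC) (H.inv_mem (hP τ hτ))

theorem siegel_le (hX : 30 ≤ Fintype.card X) (H : Subgroup F.G)
    (hP : ∀ τ ∈ alternatingGroup X, B.P τ ∈ H) (i i' : Fin 9 → X)
    (hi : Function.Injective (Sum.elim i i')) (hC : D.C i i' ∈ H) : siegel F ≤ H := by
  have hR := roots_of_seed D hX H (C_all D (by omega) H hP i i' hi hC)
  rw [siegel, Subgroup.closure_le]
  rintro _ ⟨u, w, s, rfl⟩
  exact El_mem (by omega) H hR u w s

end frm

variable {K V : Type*} [Field K] [Finite K] [AddCommGroup V] [Module K V]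

/-- a generator of the multiplicative group -/
theorem exists_gen (K : Type*) [Field K] [Finite K] :
    ∃ l : K, l ≠ 0 ∧ ∀ a : K, a ≠ 0 → ∃ n : ℕ, a = l ^ n := by
  obtain ⟨l, hl⟩ := IsCyclic.exists_generator (α := Kˣ)
  refine ⟨l, l.ne_zero, fun a ha => ?_⟩
  have h1 := hl (Units.mk0 a ha)
  rw [← mem_powers_iff_mem_zpowers] at h1
  obtain ⟨n, hn⟩ := h1
  refine ⟨n, ?_⟩
  have := congrArg Units.val hn
  simpa using this.symm

theorem frm_case [FiniteDimensional K V] (F : Frm K V) (hd : 173 ≤ Module.finrank K V) :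
    IsLeast {k : ℕ | Admissible (↥(commutator F.G) ⧸ Subgroup.center ↥(commutator F.G)) k} 5 := by
  obtain ⟨m, hm, ⟨B0⟩⟩ := exists_frame F
  obtain ⟨p, hp⟩ := CharP.exists K
  have hpp : p.Prime := (CharP.char_is_prime_or_zero K p).resolve_right (by
    intro h0
    subst h0
    have := CharP.charP_to_charZero K
    exact not_finite K)
  have : Fact p.Prime := ⟨hpp⟩
  obtain ⟨X, _, _, hX, ⟨D⟩⟩ := exists_design p hpp m (by omega)
  have g0 : X ≃ Fin m := Fintype.equivFinOfCardEq hX
  set B : Frame F X := B0.reindex g0 with hB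
  obtain ⟨l, hl, hgen⟩ := exists_gen K
  obtain ⟨s0, hs0, hs0', hpure⟩ := exists_s0 F
  obtain ⟨s1, hs1, hs1'⟩ := F.tr (B.v 0)
  obtain ⟨s2, hs2, hs2'⟩ := F.tr (B.v 1)
  let S : Seed B :=
    { l := l
      hl := hl
      gen := hgen
      s0 := s0
      s1 := s1
      s2 := s2
      a0 := fun x => ⟨B.hee _ _, B.qe _, by simp, by simpa using hs0, by simpa using hs0'⟩
      a1 := fun x => ⟨B.hee _ _, B.qe _, B.hev _ _, hs1, hs1'⟩
      a2 := fun x => ⟨B.hee _ _, B.qe _, B.hev _ _, hs2, hs2'⟩
      pure := hpure }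
  have hπ : B.P D.π * B.P D.π = 1 := by rw [← map_mul, D.π2, map_one]
  have hπi : (B.P D.π)⁻¹ = B.P D.π := inv_eq_of_mul_eq_one_left hπ
  have hC : S.C D.i D.i' = S.g D.i * B.P D.π * (S.g D.i)⁻¹ * B.P D.π := by
    have h1 := S.g_conj D.π D.i
    have h2 : (fun k => D.π (D.i k)) = D.i' := funext D.hπ
    rw [h2] at h1
    rw [Seed.C, ← h1]
    simp only [_root_.mul_inv_rev, hπi]
    group
  have hcard : 86 ≤ Fintype.card X := by omega
  have hAlt : ∀ τ ∈ alternatingGroup X, B.P τ ∈ commutator F.G := by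
    intro τ hτ
    rw [← commutator_alternatingGroup_eq_self (α := X) (by rw [Nat.card_eq_fintype_card]; omega)]
      at hτ
    have h1 : B.P τ ∈ (⁅alternatingGroup X, alternatingGroup X⁆).map B.P := ⟨τ, hτ, rfl⟩
    rw [Subgroup.map_commutator] at h1
    exact Subgroup.commutator_mono le_top le_top h1
  have hCD : S.C D.i D.i' ∈ commutator F.G := by
    rw [hC]
    have : S.g D.i * B.P D.π * (S.g D.i)⁻¹ * B.P D.π = ⁅S.g D.i, B.P D.π⁆ := by
      rw [commutatorElement_def, hπi]
    rw [this]
    exact Subgroup.commutator_mem_commutator (Subgroup.mem_top _) (Subgroup.mem_top _)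
  have hSD := siegel_le S (by omega) (commutator F.G) hAlt D.i D.i' D.inj hCD
  refine final (by omega) B.P B.P_inj p 2 D (S.g D.i) (S.C D.i D.i') ?_ hC
    (S.C_pow p D.i D.i' D.inj) ?_ ?_
  · apply S.g_comm
    intro k
    rw [Equiv.Perm.mul_apply, D.hα, ← D.hπ, ← Equiv.Perm.mul_apply, D.π2, Equiv.Perm.one_apply]
  · apply hSD
    have : ∀ u w s, F.El u w s ∈ siegel F := fun u w s =>
      Subgroup.subset_closure ⟨u, w, s, rfl⟩
    unfold Seed.g Seed.A Seed.Be Seed.Bf Seed.S Seed.W1 Seed.W2
    exact Subgroup.mul_mem _ (Subgroup.mul_mem _ (Subgroup.mul_mem _ (Subgroup.mul_mem _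
      (Subgroup.mul_mem _ (this _ _ _) (this _ _ _)) (this _ _ _)) (this _ _ _))
      (this _ _ _)) (this _ _ _)
  · intro H hP hCH
    exact (commutator_le_siegel B (by omega)).trans
      (siegel_le S (by omega) H hP D.i D.i' D.inj hCH)

/-- isomorphic groups have isomorphic quotients `D / Z(D)` -/
theorem dz_equiv {G G' : Type*} [Group G] [Group G'] (f : G ≃* G') :
    Nonempty ((↥(commutator G) ⧸ Subgroup.center ↥(commutator G)) ≃*
      (↥(commutator G') ⧸ Subgroup.center ↥(commutator G'))) := by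
  have h1 : (commutator G).map f.toMonoidHom = commutator G' := by
    rw [commutator_def, commutator_def, Subgroup.map_commutator,
      Subgroup.map_top_of_surjective _ f.surjective]
  have h2 : Nonempty (↥(commutator G) ≃* ↥(commutator G')) := by
    rw [← h1]
    exact ⟨f.subgroupMap (commutator G)⟩
  obtain ⟨f'⟩ := h2
  refine ⟨QuotientGroup.congr _ _ f' ?_⟩
  ext y
  rw [Subgroup.mem_map]
  constructor
  · rintro ⟨x, hx, rfl⟩
    rw [Subgroup.mem_center_iff] at hx ⊢
    intro z
    have := congrArg f' (hx (f'.symm z))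
    simpa using this
  · intro hy
    refine ⟨f'.symm y, ?_, f'.apply_symm_apply y⟩
    rw [Subgroup.mem_center_iff] at hy ⊢
    intro z
    have := congrArg f'.symm (hy (f' z))
    simpa using this

theorem lin_case [FiniteDimensional K V] (hd : 173 ≤ Module.finrank K V) :
    IsLeast {k : ℕ | Admissible (ClassicalSpace.linear : ClassicalSpace K V).SimpleGroup k} 5 := by
  obtain ⟨p, hp⟩ := CharP.exists K
  have hpp : p.Prime := (CharP.char_is_prime_or_zero K p).resolve_right (by
    intro h0
    subst h0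
    have := CharP.charP_to_charZero K
    exact not_finite K)
  have : Fact p.Prime := ⟨hpp⟩
  obtain ⟨X, _, _, hX, ⟨D⟩⟩ := exists_design p hpp (Module.finrank K V) (by omega)
  have g0 : X ≃ Fin (Module.finrank K V) := Fintype.equivFinOfCardEq hX
  have hl := linear_matrix (K := K) (X := X) (by omega) p D
  have b : Module.Basis X K V := (Module.finBasis K V).reindex g0.symm
  have f1 : GL X K ≃* (V ≃ₗ[K] V) :=
    ((Matrix.GeneralLinearGroup.toLin).trans (LinearMap.GeneralLinearGroup.congrLinearEquiv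
      b.equivFun.symm)).trans (LinearMap.GeneralLinearGroup.generalLinearEquiv K V)
  have hT : (ClassicalSpace.linear : ClassicalSpace K V).isometryGroup = ⊤ := by
    rw [eq_top_iff]
    intro g _
    exact trivial
  have f2 : (V ≃ₗ[K] V) ≃* ↥(ClassicalSpace.linear : ClassicalSpace K V).isometryGroup := by
    rw [hT]
    exact Subgroup.topEquiv.symm
  obtain ⟨f⟩ := dz_equiv (f1.trans f2)
  exact isLeast_transfer f 5 hl

theorem main [FiniteDimensional K V] (S : ClassicalSpace K V) (hd : 173 ≤ Module.finrank K V) :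
    IsLeast {k : ℕ | Admissible S.SimpleGroup k} 5 := by
  cases S with
  | linear => exact lin_case hd
  | symplectic B alt nondeg =>
    obtain ⟨F, hF⟩ := exists_frm_symplectic B alt nondeg
    have := frm_case F hd
    unfold Frm.G at this
    rw [hF] at this
    exact this
  | unitary σ inv ne B herm nondeg =>
    obtain ⟨F, hF⟩ := exists_frm_unitary σ inv ne B herm nondeg
    have := frm_case F hd
    unfold Frm.G at this
    rw [hF] at this
    exact this
  | orthogonal Q nondeg =>
    obtain ⟨F, hF⟩ := exists_frm_orthogonal Q nondeg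
    have := frm_case F hd
    unfold Frm.G at this
    rw [hF] at this
    exact this

end H47Cl
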